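import Pool.Agent.N643.TC.Spec

set_option autoImplicit false

/-! Facts on combs (helper46, after W875/TS/CBF). -/

namespace Pool.Agent.N643.TC

open Set
open Pool.Agent.H899R2.VP

theorem cbf_JJ {n : ℕ} {α : Ordinal.{0}} {M : T} {x z : ℕ → ℕ} {us : ℕ → List ℕ}
    (h : Cb n α M x z us) (m k : ℕ) (hmk : m ≤ k) :
    Nd M (x k) (x (k + 1)) ⊆ Nd M (x m) (x (m + 1)) := by
  induction k, hmk using Nat.le_induction with
  | base => exact subset_rfl
  | succ k _ ih => exact (h.JJ k).trans ih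

theorem t_CBF : S_CBF := by
  intro n α M x z us h
  refine ⟨cbf_JJ h, ?_, ?_, ?_, ?_⟩
  · intro m k hmk
    exact (h.XJ k).trans (cbf_JJ h m k hmk)
  · intro m k hmk
    exact (h.XJd m).mono_right (cbf_JJ h (m + 1) k hmk)
  · intro k hk
    exact h.cs.cr.c2 _ _ _ hk hk
  · intro k
    exact h.cs.cr.refl _ _ (h.ne k)

end Pool.Agent.N643.TC
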