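import Pool.Agent.N643.TC.Spec

set_option autoImplicit false

/-! Task CODE3: combs contradict the hypothesis of few models (helper46, after W875/TS/CODE3). -/

namespace Pool.Agent.N643.TC

open Set
open Pool.Agent.H899R2.VP

section cont

variable {n : ℕ} {M : T} {J : ℕ → Set ℕ} {us : ℕ → List ℕ} {t : ℕ → T}

theorem code_bit {X : Type} [TopologicalSpace X] (k : ℕ) (g : Bool → X) :
    Continuous fun σ : ℕ → Bool => g (σ k) :=
  continuous_of_discreteTopology.comp (continuous_apply k)

theorem code_rho (u : ℕ) :
    Continuous fun σ : ℕ → Bool => rho n J us (fun k => t (2 * k + (σ k).toNat)) u := by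
  classical
  unfold rho
  by_cases h : ∃ j, u ∈ J j
  · simp only [h, dite_true]
    exact code_bit h.choose fun b =>
      (us h.choose).getD (lbl n (t (2 * h.choose + b.toNat)) u) u
  · simp only [h, dite_false]
    exact continuous_const

theorem code_cont :
    Continuous fun σ : ℕ → Bool => Gl n M J us (fun k => t (2 * k + (σ k).toNat)) := by
  classical
  refine Continuous.prodMk continuous_const ?_
  refine continuous_pi fun i => continuous_pi fun s => ?_
  match i, s with
  | 0, s =>
    by_cases h : ∃ j, ∀ k, s k ∈ J j
    · simp only [h, dite_true]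
      exact code_bit h.choose fun b => (t (2 * h.choose + b.toNat)).2 0 s
    · simp only [h, dite_false]
      exact continuous_const
  | i + 1, s =>
    by_cases hi : i % 2 = 0
    · simp only [hi, if_true]
      have h1 : Continuous fun r : ℕ => (decide (s (0 : Fin 2) = s (1 : Fin 2)) && lb M (i / 2) r) :=
        continuous_of_discreteTopology
      exact h1.comp (code_rho (s (0 : Fin 2)))
    · simp only [hi, if_false]
      by_cases h : ∃ j, ∀ k, s k ∈ J j
      · simp only [h, dite_true]
        exact code_bit h.choose fun b => (t (2 * h.choose + b.toNat)).2 (i + 1) s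
      · simp only [h, dite_false]
        have h1 : Continuous fun r : Fin (aT (i + 1)) → ℕ => M.2 (i + 1) r :=
          continuous_of_discreteTopology
        exact h1.comp (continuous_pi fun k => code_rho (s k))

end cont

theorem t_CODE3 (h1 : S_SEQ3) (h2 : S_DSF) (h3 : S_DD) : S_CODE3 := by
  intro n α K hG M hM x z us hcb
  obtain ⟨t, ht⟩ := h1 n α M x z us hG.om hcb
  have hSU : SU n α M x z us t := ⟨hG.om, hcb, ht⟩
  refine hG.few ⟨fun σ => DS n M x z us t σ, ?_, ?_, ?_⟩
  · unfold DS
    exact code_cont
  · intro σ
    exact hG.closed M hM _ (h2 n α M x z us t hSU σ).1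
  · intro c d hcd
    obtain ⟨e, he, _⟩ := exists_is hcd
    exact h3 n α M x z us t hSU c d e he

end Pool.Agent.N643.TC
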