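import Pool.Agent.N643.TC.Spec

set_option autoImplicit false

/-! CSBF: the standing assumptions are universal. CSOD: cones with labels. -/

namespace Pool.Agent.N643.TC

open Set
open Pool.Agent.H899R2.VP

namespace CSBFa

variable {α : Ordinal.{0}} {M N : T} {X Y : Set ℕ}

/-- Finitely many points of `Y` correspond to points of `X`. -/
theorem csbf_fun (hα : Ordinal.omega0 ≤ α) (h : BF M N X Y α ∅) (t : List ℕ)
    (ht : ∀ y ∈ t, y ∈ Y) : ∃ f : ℕ → ℕ, (∀ y ∈ t, f y ∈ X) ∧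
      PIso M N {u | u.2 ∈ t ∧ u.1 = f u.2} := by
  classical
  have h1 : BF M N X Y (0 + (t.length : Ordinal.{0})) ∅ :=
    h.mono (by rw [zero_add]; exact (Ordinal.natCast_lt_omega0 _).le.trans hα)
  obtain ⟨s, hs, hsX, hb⟩ := h1.back_list t le_rfl ht
  have hp : PIso M N (zipSet s t) := hb.piso.mono (by simp)
  have h2 : ∀ y, ∃ x, y ∈ t → (x, y) ∈ zipSet s t := by
    intro y
    by_cases hy : y ∈ t
    · obtain ⟨x, hx⟩ := exists_zipSet_right hs hy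
      exact ⟨x, fun _ => hx⟩
    · exact ⟨0, fun h => absurd h hy⟩
  choose f hf using h2
  refine ⟨f, fun y hy => hsX _ (mem_zipSet_left (hf y hy)), hp.mono ?_⟩
  rintro ⟨a, b⟩ ⟨h3, h4⟩
  have h4' : a = f b := h4
  subst h4'
  exact hf b h3

end CSBFa

open CSBFa

theorem t_CSBF : S_CSBF := by
  classical
  intro n α M N X Y hα hC h
  have key := fun t ht => csbf_fun hα h t ht
  -- `N.1 = true`
  have hone : ∀ x ∈ Y, ∀ y ∈ Y, N.1 x y = true := by
    intro x hx y hy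
    obtain ⟨f, hf, hp⟩ := key [x, y] (by simp [hx, hy])
    have h1 := hp.2.1 (f x, x) ⟨by simp, rfl⟩ (f y, y) ⟨by simp, rfl⟩
    exact h1.symm.trans (hC.one _ (hf x (by simp)) _ (hf y (by simp)))
  refine ⟨hone, ?_, ?_, ?_, ?_, ?_, ?_, ?_, ?_, ?_⟩
  · -- flat
    intro j x hx y hy hxy
    obtain ⟨f, hf, hp⟩ := key [x, y] (by simp [hx, hy])
    have mx : (f x, x) ∈ {u : ℕ × ℕ | u.2 ∈ [x, y] ∧ u.1 = f u.2} := ⟨by simp, rfl⟩
    have my : (f y, y) ∈ {u : ℕ × ℕ | u.2 ∈ [x, y] ∧ u.1 = f u.2} := ⟨by simp, rfl⟩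
    have h1 := PIso_two hp (2 * j) mx my
    exact h1.symm.trans (hC.flat j _ (hf x (by simp)) _ (hf y (by simp))
      fun e => hxy (hp.snd_eq mx my e))
  · -- lab
    intro x hx
    obtain ⟨f, hf, hp⟩ := key [x] (by simp [hx])
    have mx : (f x, x) ∈ {u : ℕ × ℕ | u.2 ∈ [x] ∧ u.1 = f u.2} := ⟨by simp, rfl⟩
    obtain ⟨j, hj, h1, h2⟩ := hC.lab _ (hf x (by simp))
    exact ⟨j, hj, (PIso_lb hp j mx).symm.trans h1, fun j' h3 =>
      h2 j' ((PIso_lb hp j' mx).trans h3)⟩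
  · -- refl
    intro x hx z hz hxz
    obtain ⟨f, hf, hp⟩ := key [x, z] (by simp [hx, hz])
    have mx : (f x, x) ∈ {u : ℕ × ℕ | u.2 ∈ [x, z] ∧ u.1 = f u.2} := ⟨by simp, rfl⟩
    have mz : (f z, z) ∈ {u : ℕ × ℕ | u.2 ∈ [x, z] ∧ u.1 = f u.2} := ⟨by simp, rfl⟩
    exact (PIso_D hp mx mx mz).1 (hC.refl _ (hf x (by simp)) _ (hf z (by simp))
      fun e => hxz (hp.snd_eq mx mz e))
  · -- irr
    intro x hx y hy hD
    obtain ⟨f, hf, hp⟩ := key [x, y] (by simp [hx, hy])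
    have mx : (f x, x) ∈ {u : ℕ × ℕ | u.2 ∈ [x, y] ∧ u.1 = f u.2} := ⟨by simp, rfl⟩
    have my : (f y, y) ∈ {u : ℕ × ℕ | u.2 ∈ [x, y] ∧ u.1 = f u.2} := ⟨by simp, rfl⟩
    exact hC.irr _ (hf x (by simp)) _ (hf y (by simp)) ((PIso_D hp mx my mx).2 hD)
  · -- symm
    intro x hx y hy z hz hD
    obtain ⟨f, hf, hp⟩ := key [x, y, z] (by simp [hx, hy, hz])
    have mx : (f x, x) ∈ {u : ℕ × ℕ | u.2 ∈ [x, y, z] ∧ u.1 = f u.2} := ⟨by simp, rfl⟩
    have my : (f y, y) ∈ {u : ℕ × ℕ | u.2 ∈ [x, y, z] ∧ u.1 = f u.2} := ⟨by simp, rfl⟩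
    have mz : (f z, z) ∈ {u : ℕ × ℕ | u.2 ∈ [x, y, z] ∧ u.1 = f u.2} := ⟨by simp, rfl⟩
    exact (PIso_D hp my mx mz).1 (hC.symm _ (hf x (by simp)) _ (hf y (by simp)) _
      (hf z (by simp)) ((PIso_D hp mx my mz).2 hD))
  · -- c2
    intro x hx y hy z hz hD hD'
    obtain ⟨f, hf, hp⟩ := key [x, y, z] (by simp [hx, hy, hz])
    have mx : (f x, x) ∈ {u : ℕ × ℕ | u.2 ∈ [x, y, z] ∧ u.1 = f u.2} := ⟨by simp, rfl⟩
    have my : (f y, y) ∈ {u : ℕ × ℕ | u.2 ∈ [x, y, z] ∧ u.1 = f u.2} := ⟨by simp, rfl⟩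
    have mz : (f z, z) ∈ {u : ℕ × ℕ | u.2 ∈ [x, y, z] ∧ u.1 = f u.2} := ⟨by simp, rfl⟩
    exact hC.c2 _ (hf x (by simp)) _ (hf y (by simp)) _ (hf z (by simp))
      ((PIso_D hp mx my mz).2 hD) ((PIso_D hp mx mz my).2 hD')
  · -- c3
    intro x hx y hy z hz hD w hw
    obtain ⟨f, hf, hp⟩ := key [x, y, z, w] (by simp [hx, hy, hz, hw])
    have mx : (f x, x) ∈ {u : ℕ × ℕ | u.2 ∈ [x, y, z, w] ∧ u.1 = f u.2} := ⟨by simp, rfl⟩
    have my : (f y, y) ∈ {u : ℕ × ℕ | u.2 ∈ [x, y, z, w] ∧ u.1 = f u.2} := ⟨by simp, rfl⟩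
    have mz : (f z, z) ∈ {u : ℕ × ℕ | u.2 ∈ [x, y, z, w] ∧ u.1 = f u.2} := ⟨by simp, rfl⟩
    have mw : (f w, w) ∈ {u : ℕ × ℕ | u.2 ∈ [x, y, z, w] ∧ u.1 = f u.2} := ⟨by simp, rfl⟩
    rcases hC.c3 _ (hf x (by simp)) _ (hf y (by simp)) _ (hf z (by simp))
      ((PIso_D hp mx my mz).2 hD) _ (hf w (by simp)) with h1 | h1
    · exact Or.inl ((PIso_D hp mx my mw).1 h1)
    · exact Or.inr ((PIso_D hp mw my mz).1 h1)
  · -- star
    intro e heY he
    obtain ⟨f, hf, hp⟩ := key (List.ofFn e) (by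
      intro y hy
      obtain ⟨i, rfl⟩ := (List.mem_ofFn' e y).1 hy
      exact heY i)
    have hm : ∀ i, e i ∈ List.ofFn e := fun i => (List.mem_ofFn' e _).2 ⟨i, rfl⟩
    have me : ∀ i, (f (e i), e i) ∈ {u : ℕ × ℕ | u.2 ∈ List.ofFn e ∧ u.1 = f u.2} :=
      fun i => ⟨hm i, rfl⟩
    obtain ⟨i, j, k, h1, h2, h3, h4⟩ := hC.star (fun i => f (e i)) (fun i => hf _ (hm i))
      (fun i j hij => he (hp.snd_eq (me i) (me j) hij))
    exact ⟨i, j, k, h1, h2, h3, (PIso_D hp (me i) (me j) (me k)).1 h4⟩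
  · -- row
    intro x hx z hz hxz e he
    by_contra hcon
    push Not at hcon
    -- witnesses
    have hw : ∀ i j : Fin (n + 1), ∃ w ∈ Y, i ≠ j → (∃ l, lb N l (e i) ≠ lb N l (e j)) ∨
        (w ∉ Cn N x z ∧ ∃ k, ¬ (R N k (e i) w = R N k (e j) w ∧ R N k w (e i) = R N k w (e j))) := by
      intro i j
      by_cases hij : i = j
      · exact ⟨x, hx, fun h => absurd hij h⟩
      by_cases hl : ∃ l, lb N l (e i) ≠ lb N l (e j)
      · exact ⟨x, hx, fun _ => Or.inl hl⟩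
      push Not at hl
      have h1 := hcon i j hij
      by_contra h2
      push Not at h2
      apply h1
      refine ⟨hone _ (he i).1 _ (he j).1, hl, fun w hwY hwC k => ?_⟩
      have h3 := (h2 w hwY).2.2 hwC k
      exact h3
    choose w hwY hw using hw
    set t : List ℕ := x :: z :: (List.ofFn e ++
      (Finset.univ : Finset (Fin (n + 1) × Fin (n + 1))).toList.map fun p => w p.1 p.2) with ht
    have hxt : x ∈ t := by simp [ht]
    have hzt : z ∈ t := by simp [ht]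
    have het : ∀ i, e i ∈ t := by
      intro i
      rw [ht]
      refine List.mem_cons_of_mem _ (List.mem_cons_of_mem _ (List.mem_append_left _ ?_))
      exact (List.mem_ofFn' e _).2 ⟨i, rfl⟩
    have hwt : ∀ i j, w i j ∈ t := by
      intro i j
      rw [ht]
      refine List.mem_cons_of_mem _ (List.mem_cons_of_mem _ (List.mem_append_right _ ?_))
      exact List.mem_map.2 ⟨(i, j), by simp, rfl⟩
    obtain ⟨f, hf, hp⟩ := key t (by
      intro y hy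
      rw [ht] at hy
      rcases List.mem_cons.1 hy with rfl | hy
      · exact hx
      rcases List.mem_cons.1 hy with rfl | hy
      · exact hz
      rcases List.mem_append.1 hy with hy | hy
      · obtain ⟨i, rfl⟩ := (List.mem_ofFn' e y).1 hy
        exact (he i).1
      · obtain ⟨p, -, rfl⟩ := List.mem_map.1 hy
        exact hwY _ _)
    have mm : ∀ y, y ∈ t → (f y, y) ∈ {u : ℕ × ℕ | u.2 ∈ t ∧ u.1 = f u.2} :=
      fun y hy => ⟨hy, rfl⟩
    obtain ⟨i, j, hij, -, h2, h3⟩ := hC.row (f x) (hf x hxt) (f z) (hf z hzt)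
      (fun e' => hxz (hp.snd_eq (mm x hxt) (mm z hzt) e')) (fun i => f (e i))
      (fun i => ⟨hf _ (het i), (PIso_D hp (mm x hxt) (mm _ (het i)) (mm z hzt)).2 (he i).2⟩)
    rcases hw i j hij with ⟨l, hl⟩ | ⟨hwC, k, hk⟩
    · apply hl
      rw [← PIso_lb hp l (mm _ (het i)), ← PIso_lb hp l (mm _ (het j))]
      exact h2 l
    · apply hk
      have h4 := h3 (f (w i j)) (hf _ (hwt i j)) (fun h5 => hwC
        ((PIso_D hp (mm x hxt) (mm _ (hwt i j)) (mm z hzt)).1 h5)) k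
      rw [PIso_R hp k (mm _ (het i)) (mm _ (hwt i j)), PIso_R hp k (mm _ (het j)) (mm _ (hwt i j)),
        PIso_R hp k (mm _ (hwt i j)) (mm _ (het i)), PIso_R hp k (mm _ (hwt i j)) (mm _ (het j))]
        at h4
      exact h4

theorem t_CSOD : S_CSOD := by
  intro n M x z us hC hxz hr
  have hcr := hC.cr
  refine ⟨fun _ _ _ _ => rfl, fun j u _ v _ huv => fl_od j huv, ?_, ?_, ?_, ?_, ?_, ?_, ?_, ?_⟩
  · intro u hu
    refine ⟨ix (pc M univ (Cn M x z)) us u, lt_of_lt_of_le (hr.ix_lt hu) (hC.rp_le hxz hr),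
      ?_, fun j' h1 => ?_⟩
    · rw [lb_od]
      simp
    · rw [lb_od] at h1
      exact (of_decide_eq_true h1).symm
  · intro u _ v _ huv
    exact hcr.refl u v huv
  · intro u _ v _
    exact hcr.irr u v
  · intro u _ v _ w _ h
    exact hcr.symm u v w h
  · intro u _ v _ w _ h
    exact hcr.c2 u v w h
  · intro u _ v _ w _ h y _
    exact hcr.c3 u v w h y
  · intro e _ he
    exact hC.star e (fun _ => mem_univ _) he
  · intro u hu v hv huv e he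
    obtain ⟨i, j, hij, h1⟩ := hC.row u (mem_univ _) v (mem_univ _) huv e
      fun i => ⟨mem_univ _, (he i).2⟩
    refine ⟨i, j, hij, ?_⟩
    exact (er_od hC.eqv hr (subset_univ _) (hcr.csub hu hv) (he i).1 (he j).1).2 h1

end Pool.Agent.N643.TC
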