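import Pool.Agent.N643.TC.Spec

set_option autoImplicit false

/-! Decoding C. -/

namespace Pool.Agent.N643.TC

open Set
open Pool.Agent.H899R2.VP

private theorem dc_sub (h1 : S_DSF) (h2 : S_DA) (h3 : S_DB) (h4 : S_CBF) (n : ℕ)
    (α : Ordinal.{0}) (M : T) (x z : ℕ → ℕ) (us : ℕ → List ℕ) (t : ℕ → T)
    (hs : SU n α M x z us t) (σ τ : ℕ → Bool)
    (e : Equiv.Perm ℕ) (he : Is (DS n M x z us t σ) (DS n M x z us t τ) e) (m : ℕ) :
    e '' Nd M (x m) (x (m + 1)) ⊆ Nd M (x m) (x (m + 1)) := by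
  obtain ⟨-, -, hc1, hn1, -⟩ := h1 n α M x z us t hs σ
  obtain ⟨-, hcs, -, hn2, -⟩ := h1 n α M x z us t hs τ
  have key : ∀ k, e '' Cn M (x k) (z k) ⊆ Nd M (x k) (x (k + 1)) := by
    intro k
    have ha := h2 n α M x z us t hs σ τ e he k
    have hb := h3 n α M x z us t hs σ τ e he k
    rw [← hc1 k, he.image_Cn, ← hn2 k] at ha hb
    rw [← hc1 k, he.image_Cn, ← hn2 k]
    obtain ⟨a, ha1, ha2⟩ := Set.not_disjoint_iff.1 ha
    exact hcs.cr.cnode ha1 ha2 hb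
  obtain ⟨hJ, -, -, -, hx⟩ := h4 n α M x z us hs.cb
  have k1 : e (x m) ∈ Nd (DS n M x z us t τ) (x m) (x (m + 1)) := by
    rw [hn2 m]
    exact key m (mem_image_of_mem e (hx m))
  have k2 : e (x (m + 1)) ∈ Nd (DS n M x z us t τ) (x m) (x (m + 1)) := by
    rw [hn2 m]
    exact hJ m (m + 1) (Nat.le_succ m) (key (m + 1) (mem_image_of_mem e (hx (m + 1))))
  have k3 := hcs.cr.nsub k1 k2
  rw [← hn1 m, he.image_Nd, hn1 m, ← hn2 m]
  exact k3

theorem t_DC (h1 : S_DSF) (h2 : S_DA) (h3 : S_DB) (h4 : S_CBF) : S_DC := by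
  intro n α M x z us t hs σ τ e he m
  refine Subset.antisymm (dc_sub h1 h2 h3 h4 n α M x z us t hs σ τ e he m) ?_
  have h5 := dc_sub h1 h2 h3 h4 n α M x z us t hs τ σ e.symm he.symm m
  intro w hw
  exact ⟨e.symm w, h5 (mem_image_of_mem e.symm hw), e.apply_symm_apply w⟩

end Pool.Agent.N643.TC
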