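import Pool.Agent.N643.TC.CTE

set_option autoImplicit false

/-! Existence of encodings of centred structures. -/

namespace Pool.Agent.N643.TC.EXE

/-- positions of the points -/
noncomputable def ps (p : ℚ × ℕ) : ℝ := (p.1 : ℝ) + p.2 * Real.sqrt 2

theorem ps_inj : Function.Injective ps := by
  intro p q h
  unfold ps at h
  by_cases hm : p.2 = q.2
  · rw [hm] at h
    have h1 : (p.1 : ℝ) = q.1 := by linarith
    exact Prod.ext (by exact_mod_cast h1) hm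
  · exfalso
    have hne : ((p.2 : ℝ) - q.2) ≠ 0 := sub_ne_zero.2 (by exact_mod_cast hm)
    have h1 : Real.sqrt 2 = ((q.1 : ℝ) - p.1) / ((p.2 : ℝ) - q.2) := by
      rw [eq_div_iff hne]
      linarith
    apply irrational_sqrt_two
    refine ⟨(q.1 - p.1) / ((p.2 : ℚ) - q.2), ?_⟩
    rw [h1]
    push_cast
    rfl

theorem ps_dense (m : ℕ) {a b : ℝ} (h : a < b) : ∃ p : ℚ × ℕ, p.2 = m ∧ a < ps p ∧ ps p < b := by
  obtain ⟨q, h1, h2⟩ := exists_rat_btwn (show a - m * Real.sqrt 2 < b - m * Real.sqrt 2 by linarith)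
  refine ⟨(q, m), rfl, ?_, ?_⟩
  · unfold ps
    simp only
    linarith
  · unfold ps
    simp only
    linarith

/-- dense lists in every level of a strict weak order -/
theorem core {A : Type} [Countable A] (a0 : A) (B : A → A → Prop) (irr : ∀ a, ¬ B a a)
    (tr : ∀ a b c, B a b → B b c → B a c) (wk : ∀ a b c, B a c → B a b ∨ B b c) :
    ∃ (o : ℕ → ℕ → Bool) (π : ℕ → A), (∀ u, o u u = false) ∧
      (∀ u v w, o u v = true → o v w = true → o u w = true) ∧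
      (∀ u v, u = v ∨ o u v = true ∨ o v u = true) ∧
      (∀ q q', B (π q) (π q') → o q q' = true) ∧ (∀ s, ∃ q, π q = s) ∧
      (∀ q q' s, o q q' = true → ¬ B (π q) (π q') → ¬ B (π q') (π q) → ¬ B (π q) s →
        ¬ B s (π q) → ∃ r, o q r = true ∧ o r q' = true ∧ π r = s) ∧
      (∀ q s, ¬ B (π q) s → ¬ B s (π q) → ∃ r, o q r = true ∧ π r = s) ∧
      (∀ q s, ¬ B (π q) s → ¬ B s (π q) → ∃ r, o r q = true ∧ π r = s) := by
  classical
  have : Nonempty A := ⟨a0⟩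
  obtain ⟨g, hg⟩ := exists_surjective_nat A
  let e : ℕ ≃ ℚ × ℕ := (Denumerable.eqv (ℚ × ℕ)).symm
  let π : ℕ → A := fun q => g (e q).2
  let L : ℕ → ℕ → Prop := fun q q' => ¬ B (π q) (π q') ∧ ¬ B (π q') (π q)
  let O : ℕ → ℕ → Prop := fun q q' => B (π q) (π q') ∨ (L q q' ∧ ps (e q) < ps (e q'))
  have hO : ∀ q q', decide (O q q') = true ↔ O q q' := fun q q' => decide_eq_true_iff
  have hcol : ∀ (m : ℕ) {a b : ℝ}, a < b → ∃ r : ℕ, (e r).2 = m ∧ a < ps (e r) ∧ ps (e r) < b := by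
    intro m a b h
    obtain ⟨p, h1, h2, h3⟩ := ps_dense m h
    exact ⟨e.symm p, by rw [e.apply_symm_apply]; exact ⟨h1, h2, h3⟩⟩
  refine ⟨fun q q' => decide (O q q'), π, ?_, ?_, ?_, ?_, ?_, ?_, ?_, ?_⟩
  · intro u
    rw [decide_eq_false_iff_not]
    rintro (h | ⟨-, h⟩)
    · exact irr _ h
    · exact lt_irrefl _ h
  · intro u v w h1 h2
    rw [hO] at h1 h2 ⊢
    rcases h1 with h1 | ⟨h1, h1'⟩
    · rcases h2 with h2 | ⟨h2, h2'⟩
      · exact Or.inl (tr _ _ _ h1 h2)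
      · rcases wk _ (π w) _ h1 with h3 | h3
        · exact Or.inl h3
        · exact absurd h3 h2.2
    · rcases h2 with h2 | ⟨h2, h2'⟩
      · rcases wk _ (π u) _ h2 with h3 | h3
        · exact absurd h3 h1.2
        · exact Or.inl h3
      · refine Or.inr ⟨⟨fun h3 => ?_, fun h3 => ?_⟩, h1'.trans h2'⟩
        · rcases wk _ (π v) _ h3 with h4 | h4
          · exact h1.1 h4
          · exact h2.1 h4
        · rcases wk _ (π v) _ h3 with h4 | h4
          · exact h2.2 h4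
          · exact h1.2 h4
  · intro u v
    rw [hO, hO]
    by_cases huv : u = v
    · exact Or.inl huv
    right
    by_cases h1 : B (π u) (π v)
    · exact Or.inl (Or.inl h1)
    by_cases h2 : B (π v) (π u)
    · exact Or.inr (Or.inl h2)
    have hne : ps (e u) ≠ ps (e v) := fun h => huv (e.injective (ps_inj h))
    rcases lt_or_gt_of_ne hne with h3 | h3
    · exact Or.inl (Or.inr ⟨⟨h1, h2⟩, h3⟩)
    · exact Or.inr (Or.inr ⟨⟨h2, h1⟩, h3⟩)
  · intro q q' h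
    rw [hO]
    exact Or.inl h
  · intro s
    obtain ⟨m, hm⟩ := hg s
    obtain ⟨r, h1, -, -⟩ := hcol m (show (0:ℝ) < 1 by norm_num)
    exact ⟨r, by show g (e r).2 = s; rw [h1, hm]⟩
  · intro q q' s h h1 h2 h3 h4
    rw [hO] at h
    rcases h with h | ⟨-, h⟩
    · exact absurd h h1
    obtain ⟨m, hm⟩ := hg s
    obtain ⟨r, h5, h6, h7⟩ := hcol m h
    have hr : π r = s := by show g (e r).2 = s; rw [h5, hm]
    refine ⟨r, ?_, ?_, hr⟩
    · rw [hO]
      refine Or.inr ⟨⟨?_, ?_⟩, h6⟩ <;> rw [hr]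
      · exact h3
      · exact h4
    · rw [hO]
      refine Or.inr ⟨⟨?_, ?_⟩, h7⟩ <;> rw [hr]
      · intro h8
        rcases wk _ (π q) _ h8 with h9 | h9
        · exact h4 h9
        · exact h1 h9
      · intro h8
        rcases wk _ (π q) _ h8 with h9 | h9
        · exact h2 h9
        · exact h3 h9
  · intro q s h3 h4
    obtain ⟨m, hm⟩ := hg s
    obtain ⟨r, h5, h6, -⟩ := hcol m (lt_add_one (ps (e q)))
    have hr : π r = s := by show g (e r).2 = s; rw [h5, hm]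
    refine ⟨r, ?_, hr⟩
    rw [hO]
    refine Or.inr ⟨⟨?_, ?_⟩, h6⟩ <;> rw [hr]
    · exact h3
    · exact h4
  · intro q s h3 h4
    obtain ⟨m, hm⟩ := hg s
    obtain ⟨r, h5, -, h6⟩ := hcol m (sub_one_lt (ps (e q)))
    have hr : π r = s := by show g (e r).2 = s; rw [h5, hm]
    refine ⟨r, ?_, hr⟩
    rw [hO]
    refine Or.inr ⟨⟨?_, ?_⟩, h6⟩ <;> rw [hr]
    · exact h4
    · exact h3

end Pool.Agent.N643.TC.EXE

namespace Pool.Agent.N643.TC

open Set
open Pool.Agent.H899R2.VP (St PIso BF IsoOn)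
open Pool.Agent.N643.MN (XS XI SL LocFin)

/-- Existence of encodings. -/
theorem t_EXE : S_EXE := by
  classical
  intro n S N B f hC
  obtain ⟨s0, hs0, -⟩ := hC.ex_cov 0
  obtain ⟨o, π, h1, h2, h3, h4, h5, h6, h7, h8⟩ := EXE.core
    (A := {s : Fin (n + 1) → ℕ // Cov n N B s}) ⟨s0, hs0⟩ (fun s s' => B (s.1 0) (s'.1 0))
    (fun a => hC.irr) (fun a b c => hC.tr) (fun a b c h => hC.wk (b.1 0) h)
  refine ⟨(o, fun r t => decide (val f N B (fun q => (π q).1) r (t (0 : Fin 2)) (t (1 : Fin 2)))),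
    fun q => (π q).1, ⟨⟨h1, h2, h3⟩, fun q => (π q).2, h4, ?_, ?_, ?_, ?_, ?_⟩⟩
  · intro s hs
    obtain ⟨q, hq⟩ := h5 ⟨s, hs⟩
    refine ⟨q, ?_⟩
    rw [hq]
    exact hC.eqs_refl s
  · intro q q' s ho hl hs hls
    obtain ⟨r, hr1, hr2, hr3⟩ := h6 q q' ⟨s, hs⟩ ho hl.1 hl.2 hls.1 hls.2
    refine ⟨r, hr1, hr2, ?_⟩
    rw [hr3]
    exact hC.eqs_refl s
  · intro q s hs hls
    obtain ⟨r, hr1, hr3⟩ := h7 q ⟨s, hs⟩ hls.1 hls.2
    refine ⟨r, hr1, ?_⟩
    rw [hr3]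
    exact hC.eqs_refl s
  · intro q s hs hls
    obtain ⟨r, hr1, hr3⟩ := h8 q ⟨s, hs⟩ hls.1 hls.2
    refine ⟨r, hr1, ?_⟩
    rw [hr3]
    exact hC.eqs_refl s
  · intro r q q'
    exact decide_eq_true_iff

end Pool.Agent.N643.TC
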