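import Pool.Agent.N643.TC.Spec

set_option autoImplicit false

/-!
# FILL3: fillings avoiding countably many pieces (helper46, after W875/TS/FILL3)
-/

namespace Pool.Agent.N643.TC

open Set
open Pool.Agent.H899R2.VP
open Pool.Agent.H533R2.VO (Lev bf_comp0 iso_trans0 iso_symm0)

theorem t_FILL3 (h : S_TRP3) : S_FILL3 := by
  intro α M X us hα hbig F hF
  obtain ⟨_, hns⟩ := hbig
  obtain ⟨f, hf⟩ := (hF.insert (M, (∅ : Set ℕ))).exists_eq_range (insert_nonempty _ _)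
  have hex : ∃ (N : T) (Y : Set ℕ), BF (od M us) N X Y α ∅ ∧
      ∀ n, ¬ IsoOn (f n).1 (pc N Y Y) (f n).2 Y ∅ := by
    by_contra hcon
    apply hns
    refine ⟨f, fun N Y hb => ?_⟩
    by_contra hno
    exact hcon ⟨N, Y, hb, fun n hn => hno ⟨n, hn⟩⟩
  obtain ⟨N, Y, hb, hno⟩ := hex
  obtain ⟨t, hI⟩ := h (od M us) N X Y α hα hb
  refine ⟨t, bf_comp0 hb (hI.bf α), ?_⟩
  intro P hP hPI
  have hPr : P ∈ range f := by
    rw [← hf]
    exact Or.inr hP
  obtain ⟨n, rfl⟩ := hPr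
  exact hno n (iso_trans0 hPI (iso_symm0 (resIsoU hI)))

end Pool.Agent.N643.TC
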