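import Pool.Agent.N643.TC.GLB3

set_option autoImplicit false

/-! Facts on the glued structure. -/

namespace Pool.Agent.N643.TC

open Set
open Pool.Agent.H899R2.VP

open Glue

theorem glf3_third (n : ℕ) (ι : Type) (M : T) (x z : ι → ℕ) (us : ι → List ℕ) (t : ι → T)
    (u v w : ℕ)
    (h : ∀ j, u ∈ Cn M (x j) (z j) → v ∈ Cn M (x j) (z j) → w ∉ Cn M (x j) (z j)) :
    (D (Gl n M (fun j => Cn M (x j) (z j)) us t) u v w ↔ D M u v w) :=
  Gl_D' fun ⟨j, h1, h2, h3⟩ => h j h1 h2 h3

theorem t_GLF3 : S_GLF3 := by
  intro n ι α M x z us t hG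
  have hd := hG.dj
  have h0 : (0 : Ordinal.{0}) < α := lt_of_lt_of_le Ordinal.omega0_pos hG.om
  refine ⟨fun j => ?_, fun j => ?_, glf3_third n ι M x z us t⟩
  · ext y
    refine glf3_third n ι M x z us t (x j) y (z j) ?_
    intro i hi _ hz
    by_cases hij : i = j
    · subst hij
      exact hG.cs.cr.not_mem hz
    · exact Set.disjoint_left.1 (hd i j hij) hi (hG.cs.cr.self_mem (hG.ne j))
  · refine agree (fun u hu v hv => ?_) (fun u hu v hv w hw => ?_)
      (fun l u _ => by rw [lb_pc, lb_pc]) (fun l u _ v _ _ => fl_pc l)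
      (fun l u _ v _ _ => fl_pc l) (fun i u hu v hv => ?_)
    · rw [Bool.eq_iff_iff, pc1, pc1]
      obtain ⟨hm, h1, h2⟩ := lab hG hu
      obtain ⟨hm', h1', h2'⟩ := lab hG hv
      have hnc : ∀ a w, a ∈ Cn M (x j) (z j) → w ∉ Cn M (x j) (z j) →
          ¬ ∃ k, a ∈ Cn M (x k) (z k) ∧ w ∈ Cn M (x k) (z k) := by
        rintro a w ha hw ⟨k, hk, hk'⟩
        by_cases hjk : k = j
        · rw [hjk] at hk'
          exact hw hk'
        · exact Set.disjoint_left.1 (hd k j hjk) hk ha
      have hnc' : ∀ a w, a ∈ Cn M (x j) (z j) → w ∉ Cn M (x j) (z j) →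
          ¬ ∃ k, w ∈ Cn M (x k) (z k) ∧ a ∈ Cn M (x k) (z k) :=
        fun a w ha hw ⟨k, hk, hk'⟩ => hnc a w ha hw ⟨k, hk', hk⟩
      constructor
      · rintro ⟨-, k2, -⟩
        have k3 : lbl n (t j) u = lbl n (t j) v := by
          have k4 := k2 (lbl n (t j) u)
          rw [h1, h1'] at k4
          have k5 : decide (lbl n (t j) v = lbl n (t j) u) = true := by
            rw [← k4]
            simp
          exact (of_decide_eq_true k5).symm
        have k4 : rho n (fun j => Cn M (x j) (z j)) us t u =
            rho n (fun j => Cn M (x j) (z j)) us t v := by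
          rw [h2, h2']
          simp only [k3]
        refine ⟨rfl, fun l => by rw [Gl_lb, Gl_lb, k4], fun w _ hw i => ⟨?_, ?_⟩⟩
        · rw [Gl_R' (hnc u w hu hw), Gl_R' (hnc v w hv hw), k4]
        · rw [Gl_R' (hnc' u w hu hw), Gl_R' (hnc' v w hv hw), k4]
      · rintro ⟨-, k2, k3⟩
        have k4 : er M univ (Cn M (x j) (z j)) (rho n (fun j => Cn M (x j) (z j)) us t u)
            (rho n (fun j => Cn M (x j) (z j)) us t v) := by
          refine ⟨hG.cs.one _ (mem_univ _) _ (mem_univ _), fun l => ?_, fun w _ hw i => ?_⟩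
          · have k5 := k2 l
            rwa [Gl_lb, Gl_lb] at k5
          · -- a point with a representative which has the row of `w`
            obtain ⟨w', hw', k6, k7⟩ : ∃ w', w' ∉ Cn M (x j) (z j) ∧
                (∀ a, a ∈ Cn M (x j) (z j) →
                  R M i a (rho n (fun j => Cn M (x j) (z j)) us t w') = R M i a w) ∧
                ∀ a, a ∈ Cn M (x j) (z j) →
                  R M i (rho n (fun j => Cn M (x j) (z j)) us t w') a = R M i w a := by
              by_cases hc : ∃ k, w ∈ Cn M (x k) (z k)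
              · obtain ⟨k, hk⟩ := hc
                have hjk : j ≠ k := fun e => hw (e ▸ hk)
                obtain ⟨w', hw', hb⟩ := (hG.bf k).forth h0 hk
                have k8 := row hG hb.piso (mem_insert _ _) hw' hk
                refine ⟨w', fun h9 => Set.disjoint_left.1 (hd j k hjk) h9 hw', fun a ha => ?_,
                  fun a ha => ?_⟩
                · exact (k8.2.2 a (mem_univ _)
                    (fun h9 => Set.disjoint_left.1 (hd j k hjk) ha h9) i).2
                · exact (k8.2.2 a (mem_univ _)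
                    (fun h9 => Set.disjoint_left.1 (hd j k hjk) ha h9) i).1
              · push Not at hc
                refine ⟨w, hw, fun a _ => ?_, fun a _ => ?_⟩
                · rw [rho_out hc]
                · rw [rho_out hc]
            have k8 := k3 w' (mem_univ _) hw' i
            rw [Gl_R' (hnc u w' hu hw'), Gl_R' (hnc v w' hv hw'), Gl_R' (hnc' u w' hu hw'),
              Gl_R' (hnc' v w' hv hw')] at k8
            have ru : rho n (fun j => Cn M (x j) (z j)) us t u ∈ Cn M (x j) (z j) :=
              (rho_mem hG j).2 hu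
            have rv : rho n (fun j => Cn M (x j) (z j)) us t v ∈ Cn M (x j) (z j) :=
              (rho_mem hG j).2 hv
            rw [k6 _ ru, k6 _ rv, k7 _ ru, k7 _ rv] at k8
            exact k8
        rw [h2, h2', ← pc1] at k4
        have k5 := (hG.rp j).sep' (eqv_pc hG.cs.eqv (subset_univ _)) hm hm' k4
        refine ⟨?_, fun l => by rw [h1, h1', k5], fun w hw hw' => absurd hw hw'⟩
        have hone : (1 : Ordinal.{0}) < α := lt_of_lt_of_le Ordinal.one_lt_omega0 hG.om
        obtain ⟨u', hu', hb⟩ := (hG.bf j).back hone hu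
        obtain ⟨v', hv', hb'⟩ := hb.back zero_lt_one hv
        have k9 := hb'.piso.2.1 (u', u) (mem_insert_of_mem _ (mem_insert _ _)) (v', v)
          (mem_insert _ _)
        exact k9.symm
    · rw [D_pc, D_pc]
      exact (Gl_D (J := fun j => Cn M (x j) (z j)) hd (j := j) hu hv hw).symm
    · rw [R_pc, R_pc]
      exact (Gl_R (J := fun j => Cn M (x j) (z j)) hd (j := j) hu hv i).symm

end Pool.Agent.N643.TC
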