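import Pool.Agent.N643.TC.Spec

set_option autoImplicit false

/-! INFC (helper803, port of W875/TS): infinite cones with a centre. -/

namespace Pool.Agent.N643.TC

open Set
open Pool.Agent.H899R2.VP

theorem t_INFC (h1 : S_KCONE) (h2 : S_CT) (h3 : S_CTF) (h4 : S_CTT) : S_INFC := by
  classical
  intro n α K S hK hS M hM x z hxz hinf us hus
  have hG := h1 n α K hK M hM x z hxz hinf us hus
  obtain ⟨h0, hh0⟩ := h2 n α _ S false hG hS
  obtain ⟨h5, hh5⟩ := h2 n α _ S true hG hS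
  refine ⟨fun n => if n % 2 = 0 then h0 (n / 2) else h5 (n / 2), ?_⟩
  intro N hN hdis
  have hcs : CsOn n N univ := hG.cs N hN
  by_cases hc : ∀ y, ∃ x, x ≠ y ∧ Pc N (Cn N x y) ∉ S
  · obtain ⟨n, hn⟩ := hh5 N hN 0 (h4 n S N 0 hS hcs hc hdis)
    refine ⟨2 * n + 1, ?_⟩
    have e1 : (2 * n + 1) % 2 ≠ 0 := by omega
    have e2 : (2 * n + 1) / 2 = n := by omega
    simp only [e1, e2, if_false]
    exact hn
  · push Not at hc
    obtain ⟨v, hv⟩ := hc
    obtain ⟨n, hn⟩ := hh0 N hN v (h3 n S N v hS hcs hv)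
    refine ⟨2 * n, ?_⟩
    have e1 : (2 * n) % 2 = 0 := by omega
    have e2 : (2 * n) / 2 = n := by omega
    simp only [e1, e2, if_true]
    exact hn

end Pool.Agent.N643.TC
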