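import Pool.Agent.N643.TC.CTE

set_option autoImplicit false

/-!
# Encodings have finitely many rows at each cut (helper712)
-/

namespace Pool.Agent.N643.TC

open Set
open Pool.Agent.H899R2.VP (St PIso BF IsoOn)
open Pool.Agent.N643.MN (XS XI SL LocFin SameRow)

/-- Representatives of an equivalence relation with a bounded number of classes. -/
theorem loc_reps {α : Type} (L : Set α) (E : α → α → Prop) (hs : ∀ a b, E a b → E b a) (m : ℕ)
    (h : ∀ e : Fin (m + 1) → α, (∀ i, e i ∈ L) → ∃ i j, i ≠ j ∧ E (e i) (e j)) :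
    ∃ R : List α, R.length ≤ m ∧ ∀ a ∈ L, ∃ r ∈ R, E a r ∨ a = r := by
  have key : ∀ k : ℕ, (∃ R : List α, R.length < k ∧ ∀ a ∈ L, ∃ r ∈ R, E a r ∨ a = r) ∨
      ∃ R : List α, R.length = k ∧ (∀ r ∈ R, r ∈ L) ∧ R.Pairwise fun a b => ¬ E a b := by
    intro k
    induction k with
    | zero => exact Or.inr ⟨[], rfl, by simp, List.Pairwise.nil⟩
    | succ k ih =>
      rcases ih with ⟨R, h1, h2⟩ | ⟨R, h1, h2, h3⟩
      · exact Or.inl ⟨R, by omega, h2⟩
      · by_cases hc : ∀ a ∈ L, ∃ r ∈ R, E a r ∨ a = r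
        · exact Or.inl ⟨R, by omega, hc⟩
        · push Not at hc
          obtain ⟨a, ha, h4⟩ := hc
          refine Or.inr ⟨a :: R, by simp [h1], ?_, ?_⟩
          · intro r hr
            rcases List.mem_cons.1 hr with rfl | hr
            · exact ha
            · exact h2 r hr
          · exact List.pairwise_cons.2 ⟨fun r hr => (h4 r hr).1, h3⟩
  rcases key (m + 1) with ⟨R, h1, h2⟩ | ⟨R, h1, h2, h3⟩
  · exact ⟨R, by omega, h2⟩
  · exfalso
    obtain ⟨i, j, hij, hE⟩ := h (fun i => R[(i : ℕ)]'(by omega)) fun i => h2 _ (List.getElem_mem _)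
    rcases lt_or_gt_of_ne hij with h4 | h4
    · exact List.pairwise_iff_getElem.1 h3 i j (by omega) (by omega) h4 hE
    · exact List.pairwise_iff_getElem.1 h3 j i (by omega) (by omega) h4 (hs _ _ hE)

variable {n : ℕ} {S : Set (T × Set ℕ)} {N : T} {B : ℕ → ℕ → Prop} {f : ℕ → T × Set ℕ} {x : Q2}
  {π : ℕ → Fin (n + 1) → ℕ}

theorem val_congr {q b q' b' : ℕ} (h0 : Lv B (π q 0) (π b 0) ↔ Lv B (π q' 0) (π b' 0))
    (h1 : Sm N B (π q 0) (π b 0) ↔ Sm N B (π q' 0) (π b' 0))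
    (h2 : ∀ a c, Cl N B (π q a) (π b c) ↔ Cl N B (π q' a) (π b' c))
    (h3 : ∀ i a c, ¬ Sm N B (π q 0) (π b 0) → ¬ Sm N B (π q' 0) (π b' 0) →
      R N i (π q a) (π b c) = R N i (π q' a) (π b' c)) (h4 : q ≠ b) (h5 : q' ≠ b') (r : ℕ) :
    val f N B π r q b ↔ val f N B π r q' b' := by
  unfold val
  rcases r.unpair.1 with _ | _ | _ | _ | _ | _ | k
  · exact h0
  · exact h1
  · exact exists_congr fun a => exists_congr fun c => and_congr_right fun _ => h2 a c
  · refine exists_congr fun i => exists_congr fun a => exists_congr fun c =>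
      and_congr_right fun _ => ?_
    constructor
    · rintro ⟨h6, h7⟩
      have h6' : ¬ Sm N B (π q' 0) (π b' 0) := fun h => h6 (h1.2 h)
      exact ⟨h6', (h3 i a c h6 h6') ▸ h7⟩
    · rintro ⟨h6, h7⟩
      have h6' : ¬ Sm N B (π q 0) (π b 0) := fun h => h6 (h1.1 h)
      exact ⟨h6', (h3 i a c h6' h6).symm ▸ h7⟩
  · exact ⟨fun h => absurd h.1 h4, fun h => absurd h.1 h5⟩
  · exact ⟨fun h => absurd h.1 h4, fun h => absurd h.1 h5⟩
  · exact Iff.rfl

/-- Same relations to the points not below `y`. -/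
def SR (n : ℕ) (f : ℕ → T × Set ℕ) (N : T) (B : ℕ → ℕ → Prop) (x : Q2)
    (π : ℕ → Fin (n + 1) → ℕ) (y q q' : ℕ) : Prop :=
  ∀ b, x.1 b y = false → ∀ r, (val f N B π r q b ↔ val f N B π r q' b) ∧
    (val f N B π r b q ↔ val f N B π r b q')

/-- Points in the level of `y`. -/
theorem sr_lv (hC : Ctr n S N B) (hE : Enc n f N B x π) {y q q' : ℕ} (hq : x.1 q y = true)
    (hq' : x.1 q' y = true) (h : Eqs N B (π q) (π q')) : SR n f N B x π y q q' := by
  intro b hb r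
  have hne : q ≠ b := by
    rintro rfl
    rw [hq] at hb
    exact absurd hb (by decide)
  have hne' : q' ≠ b := by
    rintro rfl
    rw [hq'] at hb
    exact absurd hb (by decide)
  have l0 : Lv B (π q 0) (π q' 0) := hC.sm_lv (h 0).1
  have cq := hE.cov q
  have cb := hE.cov b
  have hsm : ¬ Sm N B (π q 0) (π b 0) → ∀ a c, ¬ Sm N B (π q a) (π b c) := fun h1 a c h2 =>
    h1 (hC.sm_trans (cq.1 0 a) (hC.sm_trans h2 (cb.1 c 0)))
  have hsm' : ¬ Sm N B (π b 0) (π q 0) → ∀ a c, ¬ Sm N B (π q a) (π b c) := fun h1 a c h2 =>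
    h1 (hC.sm_symm (hC.sm_trans (cq.1 0 a) (hC.sm_trans h2 (cb.1 c 0))))
  constructor
  · refine val_congr ⟨fun h1 => hC.lv_trans l0.symm' h1, fun h1 => hC.lv_trans l0 h1⟩
      ⟨fun h1 => hC.sm_trans (hC.sm_symm (h 0).1) h1, fun h1 => hC.sm_trans (h 0).1 h1⟩
      (fun a c => ⟨fun h1 => hC.cl_trans (hC.cl_symm (h a)) h1, fun h1 => hC.cl_trans (h a) h1⟩)
      (fun i a c h1 _ => ((h a).row (hsm h1 a c) i).1) hne hne' r
  · refine val_congr ⟨fun h1 => hC.lv_trans h1 l0, fun h1 => hC.lv_trans h1 l0.symm'⟩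
      ⟨fun h1 => hC.sm_trans h1 (h 0).1, fun h1 => hC.sm_trans h1 (hC.sm_symm (h 0).1)⟩
      (fun a c => ⟨fun h1 => hC.cl_trans h1 (h c), fun h1 => hC.cl_trans h1 (hC.cl_symm (h c))⟩)
      (fun i a c h1 _ => ((h c).row (hsm' h1 c a) i).2) hne.symm hne'.symm r

/-- Points in lower levels. -/
theorem sr_lo (hC : Ctr n S N B) (hE : Enc n f N B x π) {y q q' : ℕ}
    (hq : B (π q 0) (π y 0)) (hq' : B (π q' 0) (π y 0))
    (h : ∀ a, er N univ {u | B u (π y 0)} (π q a) (π q' a)) : SR n f N B x π y q q' := by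
  intro b hb r
  have hx := hE.ord _ _ hq
  have hx' := hE.ord _ _ hq'
  have hne : q ≠ b := by
    rintro rfl
    rw [hx] at hb
    exact absurd hb (by decide)
  have hne' : q' ≠ b := by
    rintro rfl
    rw [hx'] at hb
    exact absurd hb (by decide)
  have hbn : ¬ B (π b 0) (π y 0) := by
    intro h1
    rw [hE.ord _ _ h1] at hb
    exact absurd hb (by decide)
  have hbn' : ∀ c, ¬ B (π b c) (π y 0) := fun c h1 =>
    hbn ((hC.lvB' (hC.cov_lv (hE.cov b) c 0)).1 h1)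
  have hlv : ∀ q, B (π q 0) (π y 0) → ∀ a c, ¬ Lv B (π q a) (π b c) := by
    intro q hq a c h1
    have h2 : B (π q a) (π y 0) := (hC.lvB' (hC.cov_lv (hE.cov q) a 0)).2 hq
    exact hbn' c ((hC.lvB' h1).1 h2)
  have hsm : ∀ q, B (π q 0) (π y 0) → ∀ a c, ¬ Sm N B (π q a) (π b c) := fun q hq a c h1 =>
    hlv q hq a c (hC.sm_lv h1)
  constructor
  · refine val_congr ⟨fun h1 => absurd h1 (hlv q hq 0 0), fun h1 => absurd h1 (hlv q' hq' 0 0)⟩
      ⟨fun h1 => absurd h1 (hsm q hq 0 0), fun h1 => absurd h1 (hsm q' hq' 0 0)⟩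
      (fun a c => ⟨fun h1 => absurd h1.1 (hsm q hq a c), fun h1 => absurd h1.1 (hsm q' hq' a c)⟩)
      (fun i a c _ _ => ((h a).2.2 (π b c) (mem_univ _) (hbn' c) i).1) hne hne' r
  · refine val_congr ⟨fun h1 => absurd h1.symm' (hlv q hq 0 0),
        fun h1 => absurd h1.symm' (hlv q' hq' 0 0)⟩
      ⟨fun h1 => absurd (hC.sm_symm h1) (hsm q hq 0 0),
        fun h1 => absurd (hC.sm_symm h1) (hsm q' hq' 0 0)⟩
      (fun a c => ⟨fun h1 => absurd (hC.sm_symm h1.1) (hsm q hq c a),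
        fun h1 => absurd (hC.sm_symm h1.1) (hsm q' hq' c a)⟩)
      (fun i a c _ _ => ((h c).2.2 (π b a) (mem_univ _) (hbn' a) i).2) hne.symm hne'.symm r

/-- From `SR` to rows. -/
theorem sr_row (hE : Enc n f N B x π) {y q q' : ℕ} (h : SR n f N B x π y q q') (s s' : Fin 1 → ℕ)
    (hs : s 0 = q) (hs' : s' 0 = q') : SameRow x 1 y s s' := by
  intro j g h1 h2
  have g' : Fin 2 → Fin 1 ⊕ ℕ := g
  have key : ∀ u v u' v' : ℕ, (val f N B π j u v ↔ val f N B π j u' v') →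
      x.2 j ![u, v] = x.2 j ![u', v'] := fun u v u' v' h3 => by
    rw [Bool.eq_iff_iff, hE.rel, hE.rel]
    exact h3
  have e1 : ∀ t : Fin 1 → ℕ, (fun i : Fin 2 => Sum.elim t id (g i)) =
      ![Sum.elim t id (g (0 : Fin 2)), Sum.elim t id (g (1 : Fin 2))] := by
    intro t
    funext k
    fin_cases k <;> rfl
  show x.2 j (fun i : Fin 2 => Sum.elim s id (g i)) = x.2 j (fun i : Fin 2 => Sum.elim s' id (g i))
  rw [e1 s, e1 s']
  rcases h3 : g (0 : Fin 2) with a | b <;> rcases h4 : g (1 : Fin 2) with c | d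
  · exfalso
    obtain ⟨i, b, hi⟩ := h1
    have hi' : ∀ i : Fin 2, g i ≠ Sum.inr b := by
      intro i
      fin_cases i
      · show g (0 : Fin 2) ≠ _
        rw [h3]
        simp
      · show g (1 : Fin 2) ≠ _
        rw [h4]
        simp
    exact hi' i hi
  · have ha : a = 0 := Subsingleton.elim _ _
    subst ha
    show x.2 j ![s 0, d] = x.2 j ![s' 0, d]
    rw [hs, hs']
    exact key _ _ _ _ ((h d (h2 _ _ h4) j).1)
  · have hc : c = 0 := Subsingleton.elim _ _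
    subst hc
    show x.2 j ![b, s 0] = x.2 j ![b, s' 0]
    rw [hs, hs']
    exact key _ _ _ _ ((h b (h2 _ _ h3) j).2)
  · rfl

/-- The rows of a level. -/
theorem loc_lv (hC : Ctr n S N B) (z : ℕ) : ∃ R : List ℕ, R.length ≤ n * n ∧
    ∀ u, Lv B u z → ∃ r ∈ R, Cl N B u r := by
  have hn : n ≠ 0 := by
    rintro rfl
    obtain ⟨i, j, k, h1, _⟩ := hC.cs.star (fun _ => 0) (fun _ => mem_univ _)
      (fun a b _ => Fin.ext (by omega))
    exact h1 (Fin.ext (by omega))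
  obtain ⟨R1, h1, h2⟩ := loc_reps {u | Lv B u z} (Sm N B) (fun a b => hC.sm_symm) n
    fun e he => hC.lv_bound e fun i j => hC.lv_trans (he i) (he j).symm'
  have h3 : ∀ w : ℕ, ∃ R : List ℕ, R.length ≤ n ∧ ∀ u, Sm N B w u → ∃ r ∈ R, Cl N B u r := by
    intro w
    obtain ⟨R, h4, h5⟩ := loc_reps {u | Sm N B w u} (Cl N B) (fun a b => hC.cl_symm) n
      fun e he => by
        obtain ⟨i, j, h | h⟩ := hC.cl_bound (x := w) e he
        · exact ⟨i, j, h⟩
        · have h01 : (⟨0, by omega⟩ : Fin (n + 1)) ≠ ⟨1, by omega⟩ := by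
            intro h'
            have := congrArg Fin.val h'
            simp at this
          refine ⟨_, _, h01, ?_⟩
          rw [h, h]
          exact hC.cl_refl w
    refine ⟨R, h4, fun u hu => ?_⟩
    obtain ⟨r, hr, h6 | h6⟩ := h5 u hu
    · exact ⟨r, hr, h6⟩
    · exact ⟨r, hr, h6 ▸ hC.cl_refl u⟩
  choose R2 h4 h5 using h3
  refine ⟨R1.flatMap R2, ?_, fun u hu => ?_⟩
  · rw [List.length_flatMap]
    calc (R1.map fun a => (R2 a).length).sum ≤ (R1.map fun a => (R2 a).length).length • n := by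
          refine List.sum_le_card_nsmul _ _ fun a ha => ?_
          obtain ⟨w, _, rfl⟩ := List.mem_map.1 ha
          exact h4 w
      _ ≤ n * n := by
          rw [List.length_map, smul_eq_mul]
          exact Nat.mul_le_mul_right _ h1
  · obtain ⟨r, hr, h6⟩ := h2 u hu
    have h7 : Sm N B r u := by
      rcases h6 with h6 | h6
      · exact hC.sm_symm h6
      · exact h6 ▸ Sm.rfl'
    obtain ⟨r', hr', h8⟩ := h5 r u h7
    exact ⟨r', List.mem_flatMap.2 ⟨r, hr, hr'⟩, h8⟩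

/-- The rows of the cone below a level. -/
theorem loc_lo (hC : Ctr n S N B) (z : ℕ) : ∃ R : List ℕ, R.length ≤ n ∧
    ∀ u, B u z → ∃ r ∈ R, er N univ {u | B u z} u r := by
  have hsy : ∀ a b, er N univ {u | B u z} a b → er N univ {u | B u z} b a := fun a b h =>
    er_symm hC.cs.eqv (mem_univ _) (mem_univ _) h
  obtain ⟨R, h1, h2⟩ := loc_reps {u | B u z} (er N univ {u | B u z}) hsy n
    fun e he => hC.lo_bound e he
  refine ⟨R, h1, fun u hu => ?_⟩
  obtain ⟨r, hr, h3 | h3⟩ := h2 u hu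
  · exact ⟨r, hr, h3⟩
  · exact ⟨r, hr, h3 ▸ er_refl hC.cs.eqv (mem_univ _)⟩

theorem loc_idx {R : List ℕ} {m : ℕ} (h : R.length ≤ m) {P : ℕ → Prop} (hP : ∃ r ∈ R, P r) :
    ∃ i : Fin m, P (R.getD i 0) := by
  obtain ⟨r, hr, h1⟩ := hP
  obtain ⟨i, hi, rfl⟩ := List.getElem_of_mem hr
  refine ⟨⟨i, by omega⟩, ?_⟩
  show P (R.getD i 0)
  rw [List.getD_eq_getElem _ _ hi]
  exact h1

theorem t_LOC : S_LOC := by
  intro n S N B f x π hC hE p q
  classical
  let ι : Type := (Fin (n + 1) → Fin (n * n)) ⊕ (Fin (n + 1) → Fin n)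
  refine ⟨Fintype.card ι, fun y _ _ => ?_⟩
  obtain ⟨R1, h1, h2⟩ := loc_lv hC (π y 0)
  obtain ⟨R2, h3, h4⟩ := loc_lo hC (π y 0)
  let P : ℕ → ι → Prop := fun q c => Sum.elim
    (fun g : Fin (n + 1) → Fin (n * n) => x.1 q y = true ∧
      ∀ a, Cl N B (π q a) (R1.getD (g a) 0))
    (fun g : Fin (n + 1) → Fin n => B (π q 0) (π y 0) ∧
      ∀ a, er N univ {u | B u (π y 0)} (π q a) (R2.getD (g a) 0)) c
  have hP1 : ∀ q, x.1 q y = true → ∃ c, P q c := by
    intro q hq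
    by_cases hb : B (π q 0) (π y 0)
    · have h5 : ∀ a, ∃ i : Fin n, er N univ {u | B u (π y 0)} (π q a) (R2.getD i 0) := fun a =>
        loc_idx h3 (h4 (π q a) ((hC.lvB' (hC.cov_lv (hE.cov q) a 0)).2 hb))
      choose g hg using h5
      exact ⟨Sum.inr g, hb, hg⟩
    · have hlv : Lv B (π q 0) (π y 0) := by
        refine ⟨hb, fun h6 => ?_⟩
        have h7 := hE.ord _ _ h6
        have h8 := hE.sl.tr _ _ _ hq h7
        rw [hE.sl.irr] at h8
        exact absurd h8 (by decide)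
      have h5 : ∀ a, ∃ i : Fin (n * n), Cl N B (π q a) (R1.getD i 0) := fun a =>
        loc_idx h1 (h2 (π q a) (hC.lv_trans (hC.cov_lv (hE.cov q) a 0) hlv))
      choose g hg using h5
      exact ⟨Sum.inl g, hq, hg⟩
  have hP2 : ∀ q q' c, P q c → P q' c → SR n f N B x π y q q' := by
    intro q q' c hq hq'
    rcases c with g | g
    · exact sr_lv hC hE hq.1 hq'.1 fun a => hC.cl_trans (hq.2 a) (hC.cl_symm (hq'.2 a))
    · exact sr_lo hC hE hq.1 hq'.1 fun a => er_trans hC.cs.eqv (mem_univ _) (mem_univ _)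
        (mem_univ _) (hq.2 a) (er_symm hC.cs.eqv (mem_univ _) (mem_univ _) (hq'.2 a))
  let rp : ι → ℕ := fun c => if h : ∃ q, P q c then h.choose else 0
  have hrp : ∀ c, (∃ q, P q c) → P (rp c) c := by
    intro c h
    have : rp c = h.choose := dif_pos h
    rw [this]
    exact h.choose_spec
  refine ⟨fun m _ => rp ((Fintype.equivFin ι).symm m), fun s hs => ?_⟩
  obtain ⟨c, hc⟩ := hP1 (s 0) (hs 0)
  refine ⟨Fintype.equivFin ι c, ?_⟩
  refine sr_row hE (hP2 (s 0) (rp c) c hc (hrp c ⟨_, hc⟩)) _ _ rfl ?_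
  show rp ((Fintype.equivFin ι).symm (Fintype.equivFin ι c)) = rp c
  rw [Equiv.symm_apply_apply]

end Pool.Agent.N643.TC
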