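import Pool.Agent.N643.TC.CTE
import Pool.Agent.H533R2.VO.MEAS1

set_option autoImplicit false

/-!
# MEN: measurability of the encoding relation and of the property of being centred
-/

namespace Pool.Agent.N643.TC

open Set
open Pool.Agent.H899R2.VP
open Pool.Agent.H533R2.VO (Lev)
open Pool.Agent.N643.MN (XS XI SL LocFin)

namespace MENx

section gen

variable {Ω : Type} [MeasurableSpace Ω]

theorem m_eqB {f g : Ω → Bool} (hf : Measurable f) (hg : Measurable g) :
    Measurable fun x => f x = g x :=
  measurableSet_setOfPred.1 (measurableSet_eq_fun hf hg)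

theorem m_eqT {f : Ω → Bool} (hf : Measurable f) (b : Bool) : Measurable fun x => f x = b :=
  m_eqB hf measurable_const

theorem m_dec {P : Ω → Prop} [∀ x, Decidable (P x)] (hP : Measurable P) :
    Measurable fun x => decide (P x) := by
  refine measurable_to_bool ?_
  have e : (fun x => decide (P x)) ⁻¹' {true} = {x | P x} := by
    ext x
    simp
  rw [e]
  exact measurableSet_setOfPred.2 hP

theorem m_eqN {f : Ω → ℕ} (hf : Measurable f) (c : ℕ) : Measurable fun x => f x = c :=
  measurableSet_setOfPred.1 (hf (measurableSet_singleton c))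

/-- back-and-forth relations of structures which depend on a parameter -/
theorem m_BF {a : ℕ → ℕ} (P : St a) (Y : Set ℕ) {M : Ω → St a} {Z : Ω → Set ℕ}
    (hM : Measurable M) (hZ : ∀ y, Measurable fun x => y ∈ Z x) (β : Ordinal.{0})
    (hβ : β < Ordinal.omega 1) (p : Set (ℕ × ℕ)) :
    Measurable fun x => BF P (M x) Y (Z x) β p := by
  induction β using WellFoundedLT.induction generalizing p with
  | ind β ih =>
    have hc : Countable (Iio β) := Dst.countable_Iio hβ
    have h1 : (fun x => BF P (M x) Y (Z x) β p) = fun x => PIso P (M x) p ∧ ∀ o : Iio β,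
        (∀ u : ℕ, u ∈ Y → ∃ y : ℕ, y ∈ Z x ∧ BF P (M x) Y (Z x) o.1 (insert (u, y) p)) ∧
        (∀ y : ℕ, y ∈ Z x → ∃ u : ℕ, u ∈ Y ∧ BF P (M x) Y (Z x) o.1 (insert (u, y) p)) := by
      funext x
      apply propext
      rw [BF_iff]
      constructor
      · rintro ⟨h2, h3⟩
        exact ⟨h2, fun o => h3 o.1 o.2⟩
      · rintro ⟨h2, h3⟩
        exact ⟨h2, fun o ho => h3 ⟨o, ho⟩⟩
    rw [h1]
    have h2 : ∀ (o : Iio β) (q : Set (ℕ × ℕ)),
        Measurable fun x => BF P (M x) Y (Z x) o.1 q := fun o q =>
      ih o.1 o.2 (lt_trans o.2 hβ) q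
    have h3 : Measurable fun x => PIso P (M x) p :=
      measurableSet_setOfPred.1 (hM (Pool.Agent.H533R2.VO.meas1_piso P p))
    refine h3.and (Measurable.forall fun o => Measurable.and ?_ ?_)
    · exact Measurable.forall fun u => measurable_const.imp
        (Measurable.exists fun y => (hZ y).and (h2 o _))
    · exact Measurable.forall fun y => (hZ y).imp
        (Measurable.exists fun u => measurable_const.and (h2 o _))

variable {N : Ω → T} {B : Ω → ℕ → ℕ → Prop}

theorem m_val (hN : Measurable N) (i : ℕ) (t : Fin (aT i) → ℕ) :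
    Measurable fun x => (N x).2 i t := by
  have h : Measurable fun M : T => M.2 i t :=
    (measurable_pi_apply t).comp ((measurable_pi_apply i).comp measurable_snd)
  exact h.comp hN

theorem m_val1 (hN : Measurable N) (u v : ℕ) : Measurable fun x => (N x).1 u v := by
  have h : Measurable fun M : T => M.1 u v :=
    (measurable_pi_apply v).comp ((measurable_pi_apply u).comp measurable_fst)
  exact h.comp hN

theorem m_R (hN : Measurable N) (i u v : ℕ) : Measurable fun x => R (N x) i u v :=
  m_val hN (2 * i + 1 + 1) ![u, v]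

theorem m_lb (hN : Measurable N) (j u : ℕ) : Measurable fun x => lb (N x) j u :=
  m_val hN (2 * j + 1) ![u, u]

theorem m_D (hN : Measurable N) (u v w : ℕ) : Measurable fun x => D (N x) u v w :=
  m_eqT (m_val hN 0 ![u, v, w]) true

theorem m_Lv (hB : ∀ u v, Measurable fun x => B x u v) (u v : ℕ) :
    Measurable fun x => Lv (B x) u v := (hB u v).not.and (hB v u).not

theorem m_Sm (hN : Measurable N) (hB : ∀ u v, Measurable fun x => B x u v) (u v : ℕ) :
    Measurable fun x => Sm (N x) (B x) u v :=
  measurable_const.or (Measurable.exists fun b => (hB b u).and (m_D hN u v b))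

theorem m_er (hN : Measurable N) {Z : Ω → Set ℕ} (hZ : ∀ y, Measurable fun x => y ∈ Z x)
    (u v : ℕ) : Measurable fun x => er (N x) univ (Z x) u v := by
  unfold er
  refine (m_eqT (m_val1 hN u v) true).and ((Measurable.forall fun j =>
    m_eqB (m_lb hN j u) (m_lb hN j v)).and (Measurable.forall fun w => measurable_const.imp
    ((hZ w).not.imp (Measurable.forall fun i => ?_))))
  exact (m_eqB (m_R hN i u w) (m_R hN i v w)).and (m_eqB (m_R hN i w u) (m_R hN i w v))

theorem m_Cl (hN : Measurable N) (hB : ∀ u v, Measurable fun x => B x u v) (u v : ℕ) :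
    Measurable fun x => Cl (N x) (B x) u v :=
  (m_Sm hN hB u v).and (m_er hN (fun y => m_Sm hN hB u y) u v)

theorem m_Cov {n : ℕ} (hN : Measurable N) (hB : ∀ u v, Measurable fun x => B x u v)
    (s : Fin (n + 1) → ℕ) : Measurable fun x => Cov n (N x) (B x) s :=
  (Measurable.forall fun a => Measurable.forall fun b => m_Sm hN hB (s a) (s b)).and
    (Measurable.forall fun u => (m_Sm hN hB (s 0) u).imp (Measurable.exists fun a =>
      m_Cl hN hB (s a) u))

theorem m_Eqs {n : ℕ} (hN : Measurable N) (hB : ∀ u v, Measurable fun x => B x u v)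
    (s s' : Fin (n + 1) → ℕ) : Measurable fun x => Eqs (N x) (B x) s s' :=
  Measurable.forall fun a => m_Cl hN hB (s a) (s' a)

theorem m_er0 (hN : Measurable N) (i : ℕ) (t : Fin (aT i) → ℕ) :
    Measurable fun x => er0 (N x) i t := by
  match i, t with
  | 0, t => exact m_val hN 0 t
  | i + 1, t =>
    show Measurable fun x => if i % 2 = 0 then false else (N x).2 (i + 1) t
    split_ifs
    · exact measurable_const
    · exact m_val hN (i + 1) t

theorem m_pc (hN : Measurable N) {Z : Ω → Set ℕ} (hZ : ∀ y, Measurable fun x => y ∈ Z x) :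
    Measurable fun x => pc (N x) univ (Z x) := by
  classical
  refine Measurable.prodMk ?_ ?_
  · exact measurable_pi_iff.2 fun u => measurable_pi_iff.2 fun v => m_dec (m_er hN hZ u v)
  · exact measurable_pi_iff.2 fun i => measurable_pi_iff.2 fun t => m_er0 hN i t

theorem m_ix (hN : Measurable N) (us : List ℕ) (v : ℕ) : Measurable fun x => ix (N x) us v := by
  unfold ix
  induction us with
  | nil => exact measurable_const
  | cons u us ih =>
    have e : (fun x => List.findIdx (fun u => (N x).1 u v) (u :: us)) =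
        fun x => if (N x).1 u v = true then 0 else List.findIdx (fun u => (N x).1 u v) us + 1 := by
      funext x
      rw [List.findIdx_cons]
      cases (N x).1 u v <;> rfl
    rw [e]
    exact Measurable.ite (measurableSet_setOfPred.2 (m_eqT (m_val1 hN u v) true))
      measurable_const (ih.add_const 1)

theorem m_od (hN : Measurable N) (us : List ℕ) : Measurable fun x => od (N x) us := by
  refine Measurable.prodMk ?_ ?_
  · exact measurable_const
  · refine measurable_pi_iff.2 fun i => measurable_pi_iff.2 fun t => ?_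
    match i, t with
    | 0, t => exact m_val hN 0 t
    | i + 1, t =>
      show Measurable fun x => if i % 2 = 0 then
        decide (t (0 : Fin 2) = t (1 : Fin 2) ∧ ix (N x) us (t (0 : Fin 2)) = i / 2)
        else (N x).2 (i + 1) t
      split_ifs
      · exact m_dec (measurable_const.and (m_eqN (m_ix hN us _) _))
      · exact m_val hN (i + 1) t

theorem m_lp {n : ℕ} (hN : Measurable N) (hB : ∀ u v, Measurable fun x => B x u v)
    (s : Fin (n + 1) → ℕ) : Measurable fun x => lp (N x) (B x) s :=
  m_od (m_pc hN fun y => m_Sm hN hB (s 0) y) (List.ofFn s)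

/-- Isomorphism with a member of a family. -/
theorem m_iso {S : Set (T × Set ℕ)} {l : Ordinal.{0}} (hl : Lev S l) (hlt : l < Ordinal.omega 1)
    {P : T × Set ℕ} (hP : P ∈ S) {M : Ω → T} {Z : Ω → Set ℕ} (hM : Measurable M)
    (hZ : ∀ y, Measurable fun x => y ∈ Z x) :
    Measurable fun x => IsoOn P.1 (M x) P.2 (Z x) ∅ := by
  have e : (fun x => IsoOn P.1 (M x) P.2 (Z x) ∅) = fun x => BF P.1 (M x) P.2 (Z x) l ∅ := by
    funext x
    apply propext
    exact ⟨fun h => IsoOn.bf h l, fun h => hl P.1 P.2 (M x) (Z x) ∅ hP finite_empty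
      (empty_subset _) h⟩
  rw [e]
  exact m_BF P.1 P.2 hM hZ l hlt ∅

theorem sInf_eq (P : ℕ → Prop) (c : ℕ) :
    sInf {t | P t} = c ↔ (P c ∧ ∀ t, t < c → ¬ P t) ∨ (c = 0 ∧ ∀ t, ¬ P t) := by
  constructor
  · intro h
    by_cases hne : ∃ t, P t
    · left
      have hne' : ({t | P t} : Set ℕ).Nonempty := hne
      subst h
      exact ⟨Nat.sInf_mem hne', fun t ht hP => Nat.notMem_of_lt_sInf ht hP⟩
    · right
      push Not at hne
      have h0 : ({t | P t} : Set ℕ) = ∅ := by
        ext t
        simp [hne t]
      rw [h0, Nat.sInf_empty] at h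
      exact ⟨h.symm, hne⟩
  · rintro (⟨h1, h2⟩ | ⟨rfl, h⟩)
    · have hne' : ({t | P t} : Set ℕ).Nonempty := ⟨c, h1⟩
      refine le_antisymm (Nat.sInf_le h1) ?_
      by_contra hlt
      exact h2 _ (not_le.1 hlt) (Nat.sInf_mem hne')
    · have h0 : ({t | P t} : Set ℕ) = ∅ := by
        ext t
        simp [h t]
      rw [h0, Nat.sInf_empty]

theorem m_tp {n : ℕ} (h1 : S_GENC) (h2 : S_LEV3) (f : ℕ → T × Set ℕ) (hN : Measurable N)
    (hB : ∀ u v, Measurable fun x => B x u v) (s : Fin (n + 1) → ℕ) (c : ℕ) :
    Measurable fun x => tp f (lp (N x) (B x) s) (Ch (N x) (B x) (s 0)) = c := by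
  obtain ⟨S, hS, hfS⟩ := h1 f
  obtain ⟨l, hlt, -, hl⟩ := h2 S hS
  have h3 : ∀ t, Measurable fun x =>
      IsoOn (f t).1 (lp (N x) (B x) s) (f t).2 (Ch (N x) (B x) (s 0)) ∅ := fun t =>
    m_iso hl hlt (hfS t) (m_lp hN hB s) fun y => m_Sm hN hB (s 0) y
  unfold tp
  simp only [sInf_eq]
  exact ((h3 c).and (Measurable.forall fun t => measurable_const.imp (h3 t).not)).or
    (measurable_const.and (Measurable.forall fun t => (h3 t).not))

/-- Conditions on `π x q`. -/
theorem m_pi {n : ℕ} {π : Ω → ℕ → Fin (n + 1) → ℕ}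
    (hπ : ∀ q a u, Measurable fun x => π x q a = u) {Φ : Ω → (Fin (n + 1) → ℕ) → Prop}
    (hΦ : ∀ s, Measurable fun x => Φ x s) (q : ℕ) : Measurable fun x => Φ x (π x q) := by
  have e : (fun x => Φ x (π x q)) = fun x => ∀ s, (∀ a, π x q a = s a) → Φ x s := by
    funext x
    apply propext
    constructor
    · intro h s hs
      have : π x q = s := funext hs
      rwa [← this]
    · intro h
      exact h _ fun _ => rfl
  rw [e]
  exact Measurable.forall fun s => (Measurable.forall fun a => hπ q a (s a)).imp (hΦ s)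

theorem m_pi2 {n : ℕ} {π : Ω → ℕ → Fin (n + 1) → ℕ}
    (hπ : ∀ q a u, Measurable fun x => π x q a = u)
    {Φ : Ω → (Fin (n + 1) → ℕ) → (Fin (n + 1) → ℕ) → Prop}
    (hΦ : ∀ s s', Measurable fun x => Φ x s s') (q q' : ℕ) :
    Measurable fun x => Φ x (π x q) (π x q') :=
  m_pi (Φ := fun x s => Φ x s (π x q')) hπ (fun s => m_pi (Φ := fun x s' => Φ x s s') hπ
    (fun s' => hΦ s s') q') q

theorem m_vl {n : ℕ} (h1 : S_GENC) (h2 : S_LEV3) (f : ℕ → T × Set ℕ) (hN : Measurable N)
    (hB : ∀ u v, Measurable fun x => B x u v) {π : Ω → ℕ → Fin (n + 1) → ℕ}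
    (hπ : ∀ q a u, Measurable fun x => π x q a = u) (r q q' : ℕ) :
    Measurable fun x => val f (N x) (B x) (π x) r q q' := by
  unfold val
  split
  · exact m_pi2 (Φ := fun x s s' => Lv (B x) (s 0) (s' 0)) hπ (fun s s' => m_Lv hB _ _) q q'
  · exact m_pi2 (Φ := fun x s s' => Sm (N x) (B x) (s 0) (s' 0)) hπ
      (fun s s' => m_Sm hN hB _ _) q q'
  · exact Measurable.exists fun a => Measurable.exists fun b => measurable_const.and
      (m_pi2 (Φ := fun x s s' => Cl (N x) (B x) (s a) (s' b)) hπ
        (fun s s' => m_Cl hN hB _ _) q q')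
  · exact Measurable.exists fun i => Measurable.exists fun a => Measurable.exists fun b =>
      measurable_const.and ((m_pi2 (Φ := fun x s s' => ¬ Sm (N x) (B x) (s 0) (s' 0)) hπ
        (fun s s' => (m_Sm hN hB _ _).not) q q').and
        (m_pi2 (Φ := fun x s s' => R (N x) i (s a) (s' b) = true) hπ
          (fun s s' => m_eqT (m_R hN i _ _) true) q q'))
  · exact measurable_const.and (m_pi (Φ := fun x s => tp f (lp (N x) (B x) s)
      (Ch (N x) (B x) (s 0)) = r.unpair.2) hπ (fun s => m_tp h1 h2 f hN hB s _) q)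
  · exact measurable_const.and (Measurable.exists fun j => Measurable.exists fun a =>
      measurable_const.and (m_pi (Φ := fun x s => lb (N x) j (s a) = true) hπ
        (fun s => m_eqT (m_lb hN j _) true) q))
  · exact measurable_const

end gen

end MENx

open MENx

theorem t_MEN (h1 : S_GENC) (h2 : S_LEV3) : S_MEN := by
  intro n f N B π hN hB' hπ'
  have hB : ∀ u v, Measurable fun x => B x u v := fun u v => measurableSet_setOfPred.1 (hB' u v)
  have hπ : ∀ q a u, Measurable fun x => π x q a = u := fun q a u =>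
    measurableSet_setOfPred.1 (hπ' q a u)
  have hx1 : ∀ u v, Measurable fun x : Q2 => x.1 u v := fun u v =>
    (measurable_pi_apply v).comp ((measurable_pi_apply u).comp measurable_fst)
  have hx2 : ∀ (j : ℕ) (t : Fin 2 → ℕ), Measurable fun x : Q2 => x.2 j t := fun j t =>
    (measurable_pi_apply t).comp ((measurable_pi_apply j).comp measurable_snd)
  have e : (fun x => Enc n f (N x) (B x) x (π x)) = fun x =>
      ((∀ m, x.1 m m = false) ∧
        (∀ m n p, x.1 m n = true → x.1 n p = true → x.1 m p = true) ∧
        ∀ m n, m = n ∨ x.1 m n = true ∨ x.1 n m = true) ∧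
      (∀ q, Cov n (N x) (B x) (π x q)) ∧
      (∀ q q', B x (π x q 0) (π x q' 0) → x.1 q q' = true) ∧
      (∀ s, Cov n (N x) (B x) s → ∃ q, Eqs (N x) (B x) (π x q) s) ∧
      (∀ q q' s, x.1 q q' = true → Lv (B x) (π x q 0) (π x q' 0) → Cov n (N x) (B x) s →
        Lv (B x) (π x q 0) (s 0) → ∃ r, x.1 q r = true ∧ x.1 r q' = true ∧
          Eqs (N x) (B x) (π x r) s) ∧
      (∀ q s, Cov n (N x) (B x) s → Lv (B x) (π x q 0) (s 0) →
        ∃ r, x.1 q r = true ∧ Eqs (N x) (B x) (π x r) s) ∧
      (∀ q s, Cov n (N x) (B x) s → Lv (B x) (π x q 0) (s 0) →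
        ∃ r, x.1 r q = true ∧ Eqs (N x) (B x) (π x r) s) ∧
      ∀ r q q', x.2 r ![q, q'] = true ↔ val f (N x) (B x) (π x) r q q' := by
    funext x
    apply propext
    constructor
    · intro h
      exact ⟨⟨h.sl.irr, h.sl.tr, h.sl.tot⟩, h.cov, h.ord, h.ex, h.dn, h.up, h.dw, h.rel⟩
    · rintro ⟨⟨a1, a2, a3⟩, a4, a5, a6, a7, a8, a9, a10⟩
      exact ⟨⟨a1, a2, a3⟩, a4, a5, a6, a7, a8, a9, a10⟩
  refine measurableSet_setOfPred.2 ?_
  rw [e]
  have hE : ∀ q s, Measurable fun x => Eqs (N x) (B x) (π x q) s := fun q s =>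
    m_pi (Φ := fun x s' => Eqs (N x) (B x) s' s) hπ (fun s' => m_Eqs hN hB s' s) q
  have hL : ∀ q (s : Fin (n + 1) → ℕ), Measurable fun x => Lv (B x) (π x q 0) (s 0) :=
    fun q s => m_pi (Φ := fun x s' => Lv (B x) (s' 0) (s 0)) hπ (fun s' => m_Lv hB _ _) q
  have hL2 : ∀ q q', Measurable fun x => Lv (B x) (π x q 0) (π x q' 0) := fun q q' =>
    m_pi2 (Φ := fun x s s' => Lv (B x) (s 0) (s' 0)) hπ (fun s s' => m_Lv hB _ _) q q'
  refine Measurable.and ?_ (Measurable.and ?_ (Measurable.and ?_ (Measurable.and ?_
    (Measurable.and ?_ (Measurable.and ?_ (Measurable.and ?_ ?_))))))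
  · exact (Measurable.forall fun m => m_eqT (hx1 m m) false).and ((Measurable.forall fun m =>
      Measurable.forall fun k => Measurable.forall fun p => (m_eqT (hx1 m k) true).imp
        ((m_eqT (hx1 k p) true).imp (m_eqT (hx1 m p) true))).and (Measurable.forall fun m =>
        Measurable.forall fun k => measurable_const.or ((m_eqT (hx1 m k) true).or
          (m_eqT (hx1 k m) true))))
  · exact Measurable.forall fun q => m_pi (Φ := fun x s => Cov n (N x) (B x) s) hπ
      (fun s => m_Cov hN hB s) q
  · exact Measurable.forall fun q => Measurable.forall fun q' =>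
      (m_pi2 (Φ := fun x s s' => B x (s 0) (s' 0)) hπ (fun s s' => hB _ _) q q').imp
        (m_eqT (hx1 q q') true)
  · exact Measurable.forall fun s => (m_Cov hN hB s).imp (Measurable.exists fun q => hE q s)
  · exact Measurable.forall fun q => Measurable.forall fun q' => Measurable.forall fun s =>
      (m_eqT (hx1 q q') true).imp ((hL2 q q').imp ((m_Cov hN hB s).imp ((hL q s).imp
        (Measurable.exists fun r => (m_eqT (hx1 q r) true).and ((m_eqT (hx1 r q') true).and
          (hE r s))))))
  · exact Measurable.forall fun q => Measurable.forall fun s => (m_Cov hN hB s).imp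
      ((hL q s).imp (Measurable.exists fun r => (m_eqT (hx1 q r) true).and (hE r s)))
  · exact Measurable.forall fun q => Measurable.forall fun s => (m_Cov hN hB s).imp
      ((hL q s).imp (Measurable.exists fun r => (m_eqT (hx1 r q) true).and (hE r s)))
  · exact Measurable.forall fun r => Measurable.forall fun q => Measurable.forall fun q' =>
      (m_eqT (hx2 r ![q, q']) true).iff (m_vl h1 h2 f hN hB hπ r q q')

namespace MENx

section cs

variable {Ω : Type} [MeasurableSpace Ω] {N : Ω → T}

theorem m_CsOn (n : ℕ) (hN : Measurable N) : Measurable fun x => CsOn n (N x) univ := by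
  have e : (fun x => CsOn n (N x) univ) = fun x =>
      (∀ u v, (N x).1 u v = true) ∧
      (∀ j u v, u ≠ v → (N x).2 (2 * j + 1) ![u, v] = false) ∧
      (∀ u, ∃ j, j < n ∧ lb (N x) j u = true ∧ ∀ j', lb (N x) j' u = true → j' = j) ∧
      (∀ u v, u ≠ v → D (N x) u u v) ∧
      (∀ u v, ¬ D (N x) u v u) ∧
      (∀ u v w, D (N x) u v w → D (N x) v u w) ∧
      (∀ u v w, D (N x) u v w → ¬ D (N x) u w v) ∧
      (∀ u v w, D (N x) u v w → ∀ y, D (N x) u v y ∨ D (N x) y v w) ∧
      (∀ e : Fin (n + 1) → ℕ, Function.Injective e →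
        ∃ i j k, i ≠ j ∧ i ≠ k ∧ j ≠ k ∧ D (N x) (e i) (e j) (e k)) ∧
      (∀ u v, u ≠ v → ∀ e : Fin (n + 1) → ℕ, (∀ i, D (N x) u (e i) v) →
        ∃ i j, i ≠ j ∧ er (N x) univ (Cn (N x) u v) (e i) (e j)) := by
    funext x
    apply propext
    constructor
    · intro h
      refine ⟨fun u v => h.one u trivial v trivial, fun j u v huv => h.flat j u trivial v trivial huv,
        fun u => ?_, fun u v huv => h.refl u trivial v trivial huv,
        fun u v => h.irr u trivial v trivial, fun u v w => h.symm u trivial v trivial w trivial,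
        fun u v w => h.c2 u trivial v trivial w trivial,
        fun u v w h1 y => h.c3 u trivial v trivial w trivial h1 y trivial,
        fun e he => h.star e (fun _ => trivial) he,
        fun u v huv e he => h.row u trivial v trivial huv e fun i => ⟨trivial, he i⟩⟩
      obtain ⟨j, h1, h2, h3⟩ := h.lab u trivial
      exact ⟨j, h1, h2, h3⟩
    · rintro ⟨a1, a2, a3, a4, a5, a6, a7, a8, a9, a10⟩
      exact ⟨fun u _ v _ => a1 u v, fun j u _ v _ huv => a2 j u v huv, fun u _ => a3 u,
        fun u _ v _ huv => a4 u v huv, fun u _ v _ => a5 u v, fun u _ v _ w _ => a6 u v w,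
        fun u _ v _ w _ => a7 u v w, fun u _ v _ w _ h1 y _ => a8 u v w h1 y,
        fun e _ he => a9 e he, fun u _ v _ huv e he => a10 u v huv e fun i => (he i).2⟩
  rw [e]
  refine Measurable.and ?_ (Measurable.and ?_ (Measurable.and ?_ (Measurable.and ?_
    (Measurable.and ?_ (Measurable.and ?_ (Measurable.and ?_ (Measurable.and ?_
      (Measurable.and ?_ ?_))))))))
  · exact Measurable.forall fun u => Measurable.forall fun v => m_eqT (m_val1 hN u v) true
  · exact Measurable.forall fun j => Measurable.forall fun u => Measurable.forall fun v =>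
      measurable_const.imp (m_eqT (m_val hN (2 * j + 1) ![u, v]) false)
  · exact Measurable.forall fun u => Measurable.exists fun j => measurable_const.and
      ((m_eqT (m_lb hN j u) true).and (Measurable.forall fun j' =>
        (m_eqT (m_lb hN j' u) true).imp measurable_const))
  · exact Measurable.forall fun u => Measurable.forall fun v => measurable_const.imp
      (m_D hN u u v)
  · exact Measurable.forall fun u => Measurable.forall fun v => (m_D hN u v u).not
  · exact Measurable.forall fun u => Measurable.forall fun v => Measurable.forall fun w =>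
      (m_D hN u v w).imp (m_D hN v u w)
  · exact Measurable.forall fun u => Measurable.forall fun v => Measurable.forall fun w =>
      (m_D hN u v w).imp (m_D hN u w v).not
  · exact Measurable.forall fun u => Measurable.forall fun v => Measurable.forall fun w =>
      (m_D hN u v w).imp (Measurable.forall fun y => (m_D hN u v y).or (m_D hN y v w))
  · exact Measurable.forall fun e => measurable_const.imp (Measurable.exists fun i =>
      Measurable.exists fun j => Measurable.exists fun k => measurable_const.and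
        (measurable_const.and (measurable_const.and (m_D hN _ _ _))))
  · exact Measurable.forall fun u => Measurable.forall fun v => measurable_const.imp
      (Measurable.forall fun e => (Measurable.forall fun i => m_D hN u (e i) v).imp
        (Measurable.exists fun i => Measurable.exists fun j => measurable_const.and
          (m_er hN (fun y => m_D hN u y v) _ _)))

end cs

end MENx

theorem t_MCT (h1 : S_LEV3) (h2 : S_MS) : S_MCT := by
  intro n S N B b hS hN hB'
  have hB : ∀ u v, Measurable fun x => B x u v := fun u v => measurableSet_setOfPred.1 (hB' u v)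
  obtain ⟨l, hlt, -, hl⟩ := h1 S hS
  have hPc : ∀ u v, Measurable fun x => Pc (N x) (Cn (N x) u v) ∈ S := fun u v =>
    measurableSet_setOfPred.1 (hN ((h2 S l hS hl hlt).1 u v))
  have hBe : ∀ v u w, Measurable fun x => Be S b (N x) v u w := by
    intro v u w
    cases b with
    | false => exact m_D hN v u w
    | true => exact measurable_const.and (hPc u w).not
  have e : (fun x => Ctr n S (N x) (B x) ∧ ∃ v, ∀ u w, B x u w ↔ Be S b (N x) v u w) = fun x =>
      (CsOn n (N x) univ ∧
      (∀ u v, B x u v → u ≠ v ∧ ∀ u', (B x u' v ↔ D (N x) u u' v)) ∧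
      (∀ v v', (∃ u, B x u v) → (∃ u, B x u v') → ∃ u, B x u v ∧ B x u v') ∧
      (∀ v, (¬ ∃ u, B x u v) → ∀ y, y ≠ v → B x v y) ∧
      (∀ u v, B x u v → Pc (N x) (Cn (N x) v u) ∈ S)) ∧
      ∃ v, ∀ u w, B x u w ↔ Be S b (N x) v u w := by
    funext x
    apply propext
    refine and_congr_left' ?_
    constructor
    · intro h
      exact ⟨h.cs, h.cone, h.cmp, h.cen, h.thin⟩
    · rintro ⟨a1, a2, a3, a4, a5⟩
      exact ⟨a1, a2, a3, a4, a5⟩
  refine measurableSet_setOfPred.2 ?_
  rw [e]
  refine Measurable.and (Measurable.and ?_ (Measurable.and ?_ (Measurable.and ?_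
    (Measurable.and ?_ ?_)))) ?_
  · exact m_CsOn n hN
  · exact Measurable.forall fun u => Measurable.forall fun v => (hB u v).imp
      (measurable_const.and (Measurable.forall fun u' => (hB u' v).iff (m_D hN u u' v)))
  · exact Measurable.forall fun v => Measurable.forall fun v' => (Measurable.exists fun u =>
      hB u v).imp ((Measurable.exists fun u => hB u v').imp (Measurable.exists fun u =>
        (hB u v).and (hB u v')))
  · exact Measurable.forall fun v => (Measurable.exists fun u => hB u v).not.imp
      (Measurable.forall fun y => measurable_const.imp (hB v y))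
  · exact Measurable.forall fun u => Measurable.forall fun v => (hB u v).imp (hPc v u)
  · exact Measurable.exists fun v => Measurable.forall fun u => Measurable.forall fun w =>
      (hB u w).iff (hBe v u w)

end Pool.Agent.N643.TC
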