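import Pool.Agent.N643.TC.CTD

set_option autoImplicit false

/-!
# Measurability of the decoding maps (helper8)
-/

namespace Pool.Agent.N643.TC

open Set

namespace MRC_

section Gen

variable {X : Type*} [MeasurableSpace X]

/-- Countable case distinction. -/
lemma m_comp {β : Type*} [MeasurableSpace β] {c : X → ℕ} (hc : Measurable c) {F : ℕ → X → β}
    (hF : ∀ k, Measurable (F k)) : Measurable fun x => F (c x) x := by
  have h1 : Measurable fun p : X × ℕ => F p.2 p.1 :=
    measurable_from_prod_countable_left (f := fun p : X × ℕ => F p.2 p.1) hF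
  exact h1.comp (measurable_id.prodMk hc)

/-- Countable case distinction for sets. -/
lemma s_comp {c : X → ℕ} (hc : Measurable c) {A : ℕ → X → Prop}
    (hA : ∀ k, MeasurableSet {x | A k x}) : MeasurableSet {x | A (c x) x} := by
  have h1 : {x | A (c x) x} = ⋃ k, (c ⁻¹' {k} ∩ {x | A k x}) := by
    ext x
    simp
  rw [h1]
  exact MeasurableSet.iUnion fun k => (hc (measurableSet_singleton k)).inter (hA k)

lemma s_eq {c : X → ℕ} (hc : Measurable c) (k : ℕ) : MeasurableSet {x | c x = k} :=
  hc (measurableSet_singleton k)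

lemma s_true {c : X → Bool} (hc : Measurable c) (b : Bool) : MeasurableSet {x | c x = b} :=
  hc (measurableSet_singleton b)

/-- The least element. -/
lemma m_sInf {A : ℕ → X → Prop} (hA : ∀ k, MeasurableSet {x | A k x}) :
    Measurable fun x => sInf {k | A k x} := by
  refine measurable_to_countable' fun c => ?_
  have h1 : (fun x => sInf {k | A k x}) ⁻¹' {c} =
      {x | (A c x ∧ ∀ k < c, ¬ A k x) ∨ ((∀ k, ¬ A k x) ∧ c = 0)} := by
    ext x
    simp only [mem_preimage, mem_singleton_iff, mem_ofPred_eq]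
    constructor
    · intro h
      rcases Set.eq_empty_or_nonempty {k | A k x} with h2 | h2
      · right
        refine ⟨fun k hk => ?_, ?_⟩
        · have : k ∈ ({k | A k x} : Set ℕ) := hk
          rw [h2] at this
          exact this
        · rw [h2] at h
          rw [← h]
          exact Nat.sInf_empty
      · left
        have h3 := Nat.sInf_mem h2
        rw [h] at h3
        refine ⟨h3, fun k hk hk' => ?_⟩
        have h4 : sInf {k | A k x} ≤ k := Nat.sInf_le hk'
        omega
    · rintro (⟨h1, h2⟩ | ⟨h1, h2⟩)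
      · have h3 : c ∈ ({k | A k x} : Set ℕ) := h1
        refine le_antisymm (Nat.sInf_le h3) ?_
        by_contra hlt
        push Not at hlt
        exact h2 _ hlt (Nat.sInf_mem ⟨c, h3⟩)
      · have h3 : ({k | A k x} : Set ℕ) = ∅ := by
          ext k
          simp only [mem_ofPred_eq, mem_empty_iff_false, iff_false]
          exact h1 k
        rw [h3, h2]
        exact Nat.sInf_empty
  rw [h1]
  refine MeasurableSet.union ((hA c).inter ?_) (MeasurableSet.inter ?_ ?_)
  · have : {x | ∀ k < c, ¬ A k x} = ⋂ k, ⋂ (_ : k < c), {x | A k x}ᶜ := by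
      ext x
      simp
    change MeasurableSet {x | ∀ k < c, ¬ A k x}
    rw [this]
    exact MeasurableSet.iInter fun k => MeasurableSet.iInter fun _ => (hA k).compl
  · have : {x | ∀ k, ¬ A k x} = ⋂ k, {x | A k x}ᶜ := by
      ext x
      simp
    change MeasurableSet {x | ∀ k, ¬ A k x}
    rw [this]
    exact MeasurableSet.iInter fun k => (hA k).compl
  · exact MeasurableSet.const _

/-- The enumeration. -/
lemma m_nth {A : ℕ → X → Prop} (hA : ∀ k, MeasurableSet {x | A k x}) (u : ℕ) :
    Measurable fun x => Nat.nth (fun k => A k x) u := by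
  induction u using Nat.strong_induction_on with
  | _ u ih =>
    have h1 : (fun x => Nat.nth (fun k => A k x) u) =
        fun x => sInf {p | A p x ∧ ∀ k < u, Nat.nth (fun k => A k x) k < p} := by
      funext x
      rw [Nat.nth_eq_sInf]
    rw [h1]
    refine m_sInf (A := fun p x => A p x ∧ ∀ k < u, Nat.nth (fun k => A k x) k < p) fun p => ?_
    refine (hA p).inter ?_
    have : {x | ∀ k < u, Nat.nth (fun k => A k x) k < p} =
        ⋂ k, ⋂ (_ : k < u), {x | Nat.nth (fun k => A k x) k < p} := by
      ext x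
      simp
    change MeasurableSet {x | ∀ k < u, Nat.nth (fun k => A k x) k < p}
    rw [this]
    exact MeasurableSet.iInter fun k => MeasurableSet.iInter fun hk =>
      measurableSet_lt (ih k hk) measurable_const

lemma m_dec {P : X → Prop} [∀ x, Decidable (P x)] (h : MeasurableSet {x | P x}) :
    Measurable fun x => decide (P x) := by
  refine measurable_to_bool ?_
  have : (fun x => decide (P x)) ⁻¹' {true} = {x | P x} := by
    ext x
    simp
  rw [this]
  exact h

end Gen

lemma m_x1 (u v : ℕ) : Measurable fun x : Q2 => x.1 u v :=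
  (measurable_pi_apply v).comp ((measurable_pi_apply u).comp measurable_fst)

lemma m_rl (k c q q' : ℕ) : Measurable fun x : Q2 => rl x k c q q' :=
  (measurable_pi_apply (![q, q'] : Fin 2 → ℕ)).comp
    ((measurable_pi_apply (Nat.pair k c)).comp measurable_snd)

lemma m_mn (q : ℕ) : Measurable fun x : Q2 => mn x q :=
  m_sInf (A := fun q' x => rl x 1 0 q q' = true) fun _ => s_true (m_rl _ _ _ _) true

lemma m_ty (q : ℕ) : Measurable fun x : Q2 => ty x q :=
  m_sInf (A := fun t x => rl x 4 t q q = true) fun _ => s_true (m_rl _ _ _ _) true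

variable (f : ℕ → T × Set ℕ)

lemma s_Wn (p : ℕ) : MeasurableSet {x : Q2 | p ∈ Wn f x} := by
  have h1 : {x : Q2 | p ∈ Wn f x} = {x | mn x p.unpair.1 = p.unpair.1} ∩
      {x | p.unpair.2 ∈ (f (ty x p.unpair.1)).2} := rfl
  rw [h1]
  exact (s_eq (m_mn _) _).inter
    (s_comp (m_ty _) (A := fun t _ => p.unpair.2 ∈ (f t).2) fun _ => MeasurableSet.const _)

lemma m_nu (u : ℕ) : Measurable fun x : Q2 => nu f x u :=
  m_nth (A := fun p x => p ∈ Wn f x) (s_Wn f) u

lemma m_cu (u : ℕ) : Measurable fun x : Q2 => cu f x u :=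
  (measurable_of_countable fun p : ℕ => p.unpair.1).comp (m_nu f u)

lemma m_eu (u : ℕ) : Measurable fun x : Q2 => eu f x u :=
  (measurable_of_countable fun p : ℕ => p.unpair.2).comp (m_nu f u)

lemma m_tc (u : ℕ) : Measurable fun x : Q2 => ty x (cu f x u) :=
  m_comp (m_cu f u) (F := fun k x => ty x k) m_ty

lemma m_lu (n u : ℕ) : Measurable fun x : Q2 => lu n f x u :=
  m_comp (m_tc f u) (F := fun t x => lbl (n + 1) (f t).1 (eu f x u)) fun t =>
    (measurable_of_countable fun e : ℕ => lbl (n + 1) (f t).1 e).comp (m_eu f u)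

lemma m_rl' {k c q q' : Q2 → ℕ} (hk : Measurable k) (hc : Measurable c) (hq : Measurable q)
    (hq' : Measurable q') : Measurable fun x => rl x (k x) (c x) (q x) (q' x) :=
  m_comp hk (F := fun k x => rl x k (c x) (q x) (q' x)) fun _ =>
    m_comp hc (F := fun c x => rl x _ c (q x) (q' x)) fun _ =>
      m_comp hq (F := fun q x => rl x _ _ q (q' x)) fun _ =>
        m_comp hq' (F := fun q' x => rl x _ _ _ q') fun _ => m_rl _ _ _ _

lemma m_x1' {q q' : Q2 → ℕ} (hq : Measurable q) (hq' : Measurable q') :
    Measurable fun x : Q2 => x.1 (q x) (q' x) :=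
  m_comp hq (F := fun q x => x.1 q (q' x)) fun _ =>
    m_comp hq' (F := fun q' x => x.1 _ q') fun _ => m_x1 _ _

lemma s_Bd (u v : ℕ) : MeasurableSet {x | Bd f x u v} :=
  (s_true (m_x1' (m_cu f u) (m_cu f v)) true).inter
    (s_true (m_rl' measurable_const measurable_const (m_cu f u) (m_cu f v)) false)

lemma s_cc (u v : ℕ) : MeasurableSet {x | cu f x u = cu f x v} :=
  measurableSet_eq_fun (m_cu f u) (m_cu f v)

lemma s_D (u v w : ℕ) : MeasurableSet {x : Q2 |
    D (f (ty x (cu f x u))).1 (eu f x u) (eu f x v) (eu f x w)} :=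
  s_comp (m_tc f u) (A := fun t x => D (f t).1 (eu f x u) (eu f x v) (eu f x w)) fun t =>
    s_comp (m_eu f u) (A := fun a x => D (f t).1 a (eu f x v) (eu f x w)) fun a =>
      s_comp (m_eu f v) (A := fun b x => D (f t).1 a b (eu f x w)) fun b =>
        s_comp (m_eu f w) (A := fun c _ => D (f t).1 a b c) fun _ => MeasurableSet.const _

lemma m_R (i u v : ℕ) : Measurable fun x : Q2 =>
    R (f (ty x (cu f x u))).1 i (eu f x u) (eu f x v) :=
  m_comp (m_tc f u) (F := fun t x => R (f t).1 i (eu f x u) (eu f x v)) fun t =>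
    m_comp (m_eu f u) (F := fun a x => R (f t).1 i a (eu f x v)) fun a =>
      (measurable_of_countable fun b : ℕ => R (f t).1 i a b).comp (m_eu f v)

lemma m_pd (n q : ℕ) (a : Fin (n + 1)) : Measurable fun x : Q2 => pd n f x q a := by
  refine m_sInf (A := fun u x => cu f x u = mn x q ∧
    rl x 2 (Nat.pair (lu n f x u) a) (mn x q) q = true) fun u => ?_
  refine (measurableSet_eq_fun (m_cu f u) (m_mn q)).inter
    (s_true (m_rl' measurable_const ?_ (m_mn q) measurable_const) true)
  exact (measurable_of_countable fun l : ℕ => Nat.pair l a).comp (m_lu f n u)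

open Classical in
lemma m_Rc (n : ℕ) : Measurable (Rc n f) := by
  refine measurable_const.prodMk (measurable_pi_lambda _ fun i => measurable_pi_lambda _ ?_)
  intro s
  rcases i with _ | i
  · change Measurable fun x : Q2 => decide ((Bd f x (s 0) (s 2) ∧ Bd f x (s 1) (s 2)) ∨
        (cu f x (s 0) = cu f x (s 1) ∧ (cu f x (s 0) ≠ cu f x (s 2) ∨
          D (f (ty x (cu f x (s 0)))).1 (eu f x (s 0)) (eu f x (s 1)) (eu f x (s 2)))))
    refine m_dec ?_
    exact ((s_Bd f _ _).inter (s_Bd f _ _)).union
      ((s_cc f _ _).inter ((s_cc f _ _).compl.union (s_D f _ _ _)))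
  · by_cases hi : i % 2 = 0
    · have h1 : (fun x : Q2 => (Rc n f x).2 (i + 1) s) = fun x : Q2 =>
          decide (s (0 : Fin 2) = s (1 : Fin 2)) &&
          rl x 5 (Nat.pair (i / 2) (lu n f x (s (0 : Fin 2)))) (cu f x (s (0 : Fin 2)))
            (cu f x (s (0 : Fin 2))) := by
        funext x
        simp only [Rc, if_pos hi]
      change Measurable (fun x : Q2 => (Rc n f x).2 (i + 1) s)
      rw [h1]
      refine (measurable_of_countable fun b : Bool =>
        decide (s (0 : Fin 2) = s (1 : Fin 2)) && b).comp (m_rl' measurable_const ?_ (m_cu f _) (m_cu f _))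
      exact (measurable_of_countable fun l : ℕ => Nat.pair (i / 2) l).comp (m_lu f n _)
    · have h1 : (fun x : Q2 => (Rc n f x).2 (i + 1) s) = fun x : Q2 =>
          if cu f x (s (0 : Fin 2)) = cu f x (s (1 : Fin 2)) then
        R (f (ty x (cu f x (s (0 : Fin 2))))).1 (i / 2) (eu f x (s (0 : Fin 2)))
          (eu f x (s (1 : Fin 2)))
      else rl x 3 (Nat.pair (i / 2) (Nat.pair (lu n f x (s (0 : Fin 2))) (lu n f x (s (1 : Fin 2)))))
        (cu f x (s (0 : Fin 2))) (cu f x (s (1 : Fin 2))) := by
        funext x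
        simp only [Rc, if_neg hi]
      change Measurable (fun x : Q2 => (Rc n f x).2 (i + 1) s)
      rw [h1]
      refine Measurable.ite (s_cc f _ _) (m_R f _ _ _)
        (m_rl' measurable_const ?_ (m_cu f _) (m_cu f _))
      exact m_comp (m_lu f n _) (F := fun l x => Nat.pair (i / 2) (Nat.pair l
        (lu n f x (s (1 : Fin 2))))) fun l =>
        (measurable_of_countable fun l' : ℕ => Nat.pair (i / 2) (Nat.pair l l')).comp (m_lu f n _)

end MRC_

/-- Measurability of the decoding. -/
theorem t_MRC : S_MRC := fun n f =>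
  ⟨MRC_.m_Rc f n, MRC_.s_Bd f, fun q a u => MRC_.s_eq (MRC_.m_pd f n q a) u⟩

end Pool.Agent.N643.TC
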