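import Pool.Agent.N643.TC.Spec

set_option autoImplicit false

namespace Pool.Agent.N643.TC

open Set

open Pool.Agent.H899R2.VP

theorem msc_D (x y z : ℕ) : MeasurableSet {M : T | D M x y z} := by
  have h : Measurable fun M : T => M.2 0 ![x, y, z] :=
    (measurable_pi_apply _).comp ((measurable_pi_apply _).comp measurable_snd)
  exact h (measurableSet_singleton true)

theorem msc_sub (p q : ℕ) : MeasurableSet {M : T | Cc M q ⊆ Cc M p} := by
  have e : {M : T | Cc M q ⊆ Cc M p} =
      ⋂ w, ({M : T | D M q.unpair.1 w q.unpair.2}ᶜ ∪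
        {M : T | D M p.unpair.1 w p.unpair.2}) := by
    ext M
    simp only [Set.mem_ofPred_eq, Set.mem_iInter, Set.mem_union, Set.mem_compl_iff]
    constructor
    · intro h w
      by_cases hw : D M q.unpair.1 w q.unpair.2
      · exact Or.inr (h hw)
      · exact Or.inl hw
    · intro h w hw
      rcases h w with h1 | h1
      · exact absurd hw h1
      · exact h1
  rw [e]
  exact MeasurableSet.iInter fun w => (msc_D _ _ _).compl.union (msc_D _ _ _)

theorem msc_disj (q r : ℕ) : MeasurableSet {M : T | Disjoint (Cc M q) (Cc M r)} := by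
  have e : {M : T | Disjoint (Cc M q) (Cc M r)} =
      ⋂ w, ({M : T | D M q.unpair.1 w q.unpair.2}ᶜ ∪
        {M : T | D M r.unpair.1 w r.unpair.2}ᶜ) := by
    ext M
    simp only [Set.mem_ofPred_eq, Set.mem_iInter, Set.mem_union, Set.mem_compl_iff]
    rw [Set.disjoint_left]
    constructor
    · intro h w
      by_cases hw : D M q.unpair.1 w q.unpair.2
      · exact Or.inr (h hw)
      · exact Or.inl hw
    · intro h w hw
      rcases h w with h1 | h1
      · exact absurd hw h1
      · exact h1
  rw [e]
  exact MeasurableSet.iInter fun w => (msc_D _ _ _).compl.union (msc_D _ _ _).compl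

theorem t_MSC : S_MSC := by
  intro p q r
  have e : {M : T | Sc M p q r} = {_M : T | Pr q} ∩ ({_M : T | Pr r} ∩
      ({M : T | Cc M q ⊆ Cc M p} ∩ ({M : T | Cc M r ⊆ Cc M p} ∩
        {M : T | Disjoint (Cc M q) (Cc M r)}))) := by
    ext M
    simp only [Sc, Set.mem_ofPred_eq, Set.mem_inter_iff]
  rw [e]
  exact (MeasurableSet.const _).inter ((MeasurableSet.const _).inter ((msc_sub _ _).inter
    ((msc_sub _ _).inter (msc_disj _ _))))

end Pool.Agent.N643.TC
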