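import Pool.Agent.N643.TC.CTE

set_option autoImplicit false

/-!
# Transport of encodings, change of representatives, enumeration of types
-/

namespace Pool.Agent.N643.TC

open Set
open Pool.Agent.H899R2.VP (St Adj PIso BF IsoOn idOn inv comp zipSet)
open Pool.Agent.H533R2.VO (iso_symm0 iso_trans0 iso_congr)
open Pool.Agent.N643.MN (XS XI SL LocFin)

/-! ### Lists -/

theorem findIdx_ofFn {k : ℕ} (s t : Fin k → ℕ) (P Q : ℕ → Bool) (h : ∀ a, P (s a) = Q (t a)) :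
    (List.ofFn s).findIdx P = (List.ofFn t).findIdx Q := by
  induction k with
  | zero => simp
  | succ k ih =>
    rw [List.ofFn_succ, List.ofFn_succ, List.findIdx_cons, List.findIdx_cons, h 0,
      ih (fun i => s i.succ) (fun i => t i.succ) fun a => h a.succ]

theorem ix_ofFn_congr {M M' : T} {k : ℕ} (s t : Fin k → ℕ) (u v : ℕ)
    (h : ∀ a, M.1 (s a) u = M'.1 (t a) v) : ix M (List.ofFn s) u = ix M' (List.ofFn t) v :=
  findIdx_ofFn s t _ _ h

/-! ### Transport -/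

section trn

variable {n : ℕ} {N N' : T} {B B' : ℕ → ℕ → Prop} {σ : Equiv.Perm ℕ} {u v w x y z : ℕ}
  {s s' : Fin (n + 1) → ℕ}

theorem trLv (hB : ∀ u v, B' (σ u) (σ v) ↔ B u v) : Lv B' (σ x) (σ y) ↔ Lv B x y := by
  unfold Lv
  rw [hB, hB]

theorem trSm (hI : Is N N' σ) (hB : ∀ u v, B' (σ u) (σ v) ↔ B u v) :
    Sm N' B' (σ x) (σ y) ↔ Sm N B x y := by
  constructor
  · rintro (h | ⟨b, h1, h2⟩)
    · exact Or.inl (σ.injective h)
    · refine Or.inr ⟨σ.symm b, (hB _ _).1 ?_, (hI.D_iff _ _ _).2 ?_⟩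
      · rw [Equiv.apply_symm_apply]
        exact h1
      · rw [Equiv.apply_symm_apply]
        exact h2
  · rintro (rfl | ⟨b, h1, h2⟩)
    · exact Or.inl rfl
    · exact Or.inr ⟨σ b, (hB _ _).2 h1, (hI.D_iff _ _ _).1 h2⟩

theorem trCh (hI : Is N N' σ) (hB : ∀ u v, B' (σ u) (σ v) ↔ B u v) :
    σ '' Ch N B x = Ch N' B' (σ x) := by
  ext w
  constructor
  · rintro ⟨y, hy, rfl⟩
    exact (trSm hI hB).2 hy
  · intro hw
    refine ⟨σ.symm w, ?_, σ.apply_symm_apply w⟩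
    refine (trSm hI hB).1 ?_
    rw [Equiv.apply_symm_apply]
    exact hw

theorem trR (hI : Is N N' σ) (i : ℕ) : R N' i (σ u) (σ v) = R N i u v :=
  (PIso_R hI i (x := u) (x' := σ u) (y := v) (y' := σ v) rfl rfl).symm

theorem trlb (hI : Is N N' σ) (j : ℕ) : lb N' j (σ u) = lb N j u :=
  (PIso_lb hI j (x := u) (x' := σ u) rfl).symm

theorem tr1 (hI : Is N N' σ) : N'.1 (σ u) (σ v) = N.1 u v :=
  (hI.2.1 (u, σ u) rfl (v, σ v) rfl).symm

theorem trEr (hI : Is N N' σ) (Y : Set ℕ) :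
    er N' univ (σ '' Y) (σ u) (σ v) ↔ er N univ Y u v := by
  unfold er
  rw [tr1 hI]
  refine and_congr Iff.rfl (and_congr ?_ ?_)
  · exact forall_congr' fun j => by rw [trlb hI, trlb hI]
  · constructor
    · intro h w _ hw i
      have h1 := h (σ w) (mem_univ _) (fun h2 => hw (σ.injective.mem_set_image.1 h2)) i
      rwa [trR hI, trR hI, trR hI, trR hI] at h1
    · intro h w _ hw i
      have h1 := h (σ.symm w) (mem_univ _) (fun h2 => hw ⟨σ.symm w, h2, σ.apply_symm_apply w⟩) i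
      rw [← trR hI, ← trR hI, ← trR hI, ← trR hI, Equiv.apply_symm_apply] at h1
      exact h1

theorem trCl (hI : Is N N' σ) (hB : ∀ u v, B' (σ u) (σ v) ↔ B u v) :
    Cl N' B' (σ x) (σ y) ↔ Cl N B x y := by
  unfold Cl
  rw [trSm hI hB, ← trCh hI hB, trEr hI]

theorem trCov (hI : Is N N' σ) (hB : ∀ u v, B' (σ u) (σ v) ↔ B u v) :
    Cov n N' B' (fun a => σ (s a)) ↔ Cov n N B s := by
  unfold Cov
  refine and_congr ?_ ?_
  · exact forall_congr' fun a => forall_congr' fun b => trSm hI hB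
  · constructor
    · intro h u hu
      obtain ⟨a, ha⟩ := h (σ u) ((trSm hI hB).2 hu)
      exact ⟨a, (trCl hI hB).1 ha⟩
    · intro h u hu
      have h1 : Sm N B (s 0) (σ.symm u) := (trSm hI hB).1 (by
        rw [Equiv.apply_symm_apply]
        exact hu)
      obtain ⟨a, ha⟩ := h _ h1
      refine ⟨a, ?_⟩
      have h2 := (trCl hI hB).2 ha
      rwa [Equiv.apply_symm_apply] at h2

theorem trEqs (hI : Is N N' σ) (hB : ∀ u v, B' (σ u) (σ v) ↔ B u v) :
    Eqs N' B' (fun a => σ (s a)) (fun a => σ (s' a)) ↔ Eqs N B s s' :=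
  forall_congr' fun _ => trCl hI hB

/-- The labelled children are isomorphic. -/
theorem trLp (hI : Is N N' σ) (hB : ∀ u v, B' (σ u) (σ v) ↔ B u v) :
    IsoOn (lp N B s) (lp N' B' (fun a => σ (s a))) (Ch N B (s 0)) (Ch N' B' (σ (s 0))) ∅ := by
  unfold lp
  rw [← trCh hI hB]
  refine ⟨{w | w.2 = σ w.1 ∧ w.1 ∈ Ch N B (s 0)}, empty_subset _, ?_, ?_, ?_, ?_⟩
  · rintro ⟨u, v⟩ ⟨h1, h2⟩
    have h1' : v = σ u := h1
    subst h1'
    exact ⟨h2, mem_image_of_mem _ h2⟩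
  · refine piso_od (piso_pc (PIso.mono hI fun u hu => hu.1) ?_) ?_
    · rintro ⟨u, u'⟩ ⟨h1, -⟩ ⟨v, v'⟩ ⟨h2, -⟩
      have h1' : u' = σ u := h1
      have h2' : v' = σ v := h2
      subst h1'
      subst h2'
      exact (trEr hI _).symm
    · rintro ⟨u, u'⟩ ⟨h1, -⟩
      have h1' : u' = σ u := h1
      subst h1'
      refine ix_ofFn_congr _ _ _ _ fun a => ?_
      rw [Bool.eq_iff_iff, pc1, pc1]
      exact (trEr hI _).symm
  · intro u hu
    exact ⟨σ u, rfl, hu⟩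
  · rintro _ ⟨u, hu, rfl⟩
    exact ⟨u, rfl, hu⟩

theorem tp_congr {f : ℕ → T × Set ℕ} {M M' : T} {X X' : Set ℕ} (h : IsoOn M M' X X' ∅) :
    tp f M X = tp f M' X' := by
  unfold tp
  congr 1
  ext t
  exact ⟨fun h1 => iso_trans0 h1 h, fun h1 => iso_trans0 h1 (iso_symm0 h)⟩

theorem trVal (f : ℕ → T × Set ℕ) (π : ℕ → Fin (n + 1) → ℕ) (hI : Is N N' σ)
    (hB : ∀ u v, B' (σ u) (σ v) ↔ B u v) (r q q' : ℕ) :
    val f N' B' (fun q a => σ (π q a)) r q q' ↔ val f N B π r q q' := by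
  unfold val
  split
  · exact trLv hB
  · exact trSm hI hB
  · refine exists_congr fun a => exists_congr fun b => and_congr Iff.rfl (trCl hI hB)
  · refine exists_congr fun i => exists_congr fun a => exists_congr fun b =>
      and_congr Iff.rfl (and_congr (not_congr (trSm hI hB)) ?_)
    rw [trR hI]
  · refine and_congr Iff.rfl ?_
    rw [tp_congr (trLp (s := π q) hI hB)]
  · refine and_congr Iff.rfl (exists_congr fun j => exists_congr fun a => and_congr Iff.rfl ?_)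
    rw [trlb hI]
  · exact Iff.rfl

end trn

theorem t_TRN : S_TRN := by
  intro n f N N' B B' x π σ hI hB hE
  have key : ∀ s : Fin (n + 1) → ℕ, (fun a => σ (σ.symm (s a))) = s := fun s =>
    funext fun a => σ.apply_symm_apply _
  have cv : ∀ s, Cov n N' B' s → Cov n N B (fun a => σ.symm (s a)) := by
    intro s hs
    rw [← key s] at hs
    exact (trCov hI hB).1 hs
  have lv : ∀ (q : ℕ) (s : Fin (n + 1) → ℕ), Lv B' (σ (π q 0)) (s 0) →
      Lv B (π q 0) (σ.symm (s 0)) := by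
    intro q s hs
    rw [← σ.apply_symm_apply (s 0)] at hs
    exact (trLv hB).1 hs
  have eq : ∀ q s, Eqs N B (π q) (fun a => σ.symm (s a)) → Eqs N' B' (fun a => σ (π q a)) s := by
    intro q s hs
    have h1 := (trEqs hI hB).2 hs
    rwa [key s] at h1
  refine ⟨hE.sl, fun q => (trCov hI hB).2 (hE.cov q), fun q q' h => hE.ord q q' ((hB _ _).1 h),
    fun s hs => ?_, fun q q' s h1 h2 h3 h4 => ?_, fun q s h1 h2 => ?_, fun q s h1 h2 => ?_,
    fun r q q' => ?_⟩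
  · obtain ⟨q, hq⟩ := hE.ex _ (cv s hs)
    exact ⟨q, eq q s hq⟩
  · obtain ⟨r, hr1, hr2, hr3⟩ := hE.dn q q' _ h1 ((trLv hB).1 h2) (cv s h3) (lv q s h4)
    exact ⟨r, hr1, hr2, eq r s hr3⟩
  · obtain ⟨r, hr1, hr3⟩ := hE.up q _ (cv s h1) (lv q s h2)
    exact ⟨r, hr1, eq r s hr3⟩
  · obtain ⟨r, hr1, hr3⟩ := hE.dw q _ (cv s h1) (lv q s h2)
    exact ⟨r, hr1, eq r s hr3⟩
  · rw [hE.rel]
    exact (trVal f π hI hB r q q').symm

/-! ### Change of representatives -/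

section chg

variable {n : ℕ} {S : Set (T × Set ℕ)} {N : T} {B : ℕ → ℕ → Prop} {x y z w b u v : ℕ}
  {s s' : Fin (n + 1) → ℕ}

theorem Ctr.sm_congr (hC : Ctr n S N B) {x' y' : ℕ} (hx : Sm N B x x') (hy : Sm N B y y') :
    Sm N B x y ↔ Sm N B x' y' :=
  ⟨fun h => hC.sm_trans (hC.sm_symm hx) (hC.sm_trans h hy),
    fun h => hC.sm_trans hx (hC.sm_trans h (hC.sm_symm hy))⟩

theorem Ctr.cl_congr (hC : Ctr n S N B) {x' y' : ℕ} (hx : Cl N B x x') (hy : Cl N B y y') :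
    Cl N B x y ↔ Cl N B x' y' :=
  ⟨fun h => hC.cl_trans (hC.cl_symm hx) (hC.cl_trans h hy),
    fun h => hC.cl_trans hx (hC.cl_trans h (hC.cl_symm hy))⟩

theorem Ctr.B_congr (hC : Ctr n S N B) {x' y' : ℕ} (hx : Lv B x x') (hy : Lv B y y') :
    B x y ↔ B x' y' := (hC.lvB' hx).trans (hC.lvB hy)

theorem Ctr.lv_congr (hC : Ctr n S N B) {x' y' : ℕ} (hx : Lv B x x') (hy : Lv B y y') :
    Lv B x y ↔ Lv B x' y' := by
  unfold Lv
  rw [hC.B_congr hx hy, hC.B_congr hy hx]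

theorem Ctr.lp_eqs (hC : Ctr n S N B) (hs : Cov n N B s) (h : Eqs N B s s') :
    IsoOn (lp N B s) (lp N B s') (Ch N B (s 0)) (Ch N B (s' 0)) ∅ := by
  have hs' := hC.cov_eqs h hs
  have e : Ch N B (s 0) = Ch N B (s' 0) := hC.ch_sm (h 0).1
  have hix : ∀ u, Sm N B (s 0) u → ix (pc N univ (Ch N B (s 0))) (List.ofFn s) u =
      ix (pc N univ (Ch N B (s' 0))) (List.ofFn s') u := by
    intro u hu
    obtain ⟨a, ha1, ha2, ha3⟩ := hC.lp_lab hs hu
    obtain ⟨c, hc1, hc2, hc3⟩ := hC.lp_lab hs' (hC.sm_trans (hC.sm_symm (h 0).1) hu)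
    have h1 : a ≤ c := ha3 c (hC.cl_trans (h c) hc2)
    have h2 : c ≤ a := hc3 a (hC.cl_trans (hC.cl_symm (h a)) ha2)
    rw [ha1, hc1, le_antisymm h1 h2]
  refine ⟨idOn (Ch N B (s 0)), empty_subset _, ?_, ?_, ?_, ?_⟩
  · rintro ⟨u, v⟩ ⟨h1, h2⟩
    have h1' : u = v := h1
    subst h1'
    exact ⟨h2, e ▸ h2⟩
  · unfold lp
    refine piso_od ?_ ?_
    · rw [← e]
      refine ⟨?_, ?_, ?_⟩
      · rintro ⟨u, u'⟩ ⟨h1, -⟩ ⟨v, v'⟩ ⟨h2, -⟩
        have h1' : u = u' := h1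
        have h2' : v = v' := h2
        rw [h1', h2']
      · rintro ⟨u, u'⟩ ⟨h1, -⟩ ⟨v, v'⟩ ⟨h2, -⟩
        have h1' : u = u' := h1
        have h2' : v = v' := h2
        rw [h1', h2']
      · intro i t ht
        have : (fun k => (t k).1) = fun k => (t k).2 := funext fun k => (ht k).1
        rw [this]
    · rintro ⟨u, u'⟩ ⟨h1, h2⟩
      have h1' : u = u' := h1
      subst h1'
      exact hix u h2
  · intro u hu
    exact ⟨u, rfl, hu⟩
  · intro u hu
    exact ⟨u, rfl, e ▸ hu⟩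

theorem Ctr.val_eqs (hC : Ctr n S N B) (f : ℕ → T × Set ℕ) (π π' : ℕ → Fin (n + 1) → ℕ)
    (hcov : ∀ q, Cov n N B (π q)) (h : ∀ q, Eqs N B (π q) (π' q)) (r q q' : ℕ) :
    val f N B π r q q' ↔ val f N B π' r q q' := by
  have hl : ∀ q, Lv B (π q 0) (π' q 0) := fun q => hC.sm_lv (h q 0).1
  unfold val
  split
  · exact hC.lv_congr (hl q) (hl q')
  · exact hC.sm_congr (h q 0).1 (h q' 0).1
  · exact exists_congr fun a => exists_congr fun b => and_congr Iff.rfl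
      (hC.cl_congr (h q a) (h q' b))
  · refine exists_congr fun i => exists_congr fun a => exists_congr fun b =>
      and_congr Iff.rfl ?_
    rw [hC.sm_congr (h q 0).1 (h q' 0).1]
    refine and_congr_right fun hn => ?_
    have hn' : ¬ Sm N B (π q a) (π q' b) := by
      intro h1
      apply hn
      refine (hC.sm_congr (h q 0).1 (h q' 0).1).1 ?_
      exact hC.sm_trans ((hcov q).1 0 a) (hC.sm_trans h1 ((hcov q').1 b 0))
    have e1 : R N i (π q a) (π q' b) = R N i (π' q a) (π q' b) := ((h q a).row hn' i).1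
    have hn2 : ¬ Sm N B (π q' b) (π' q a) := fun h1 =>
      hn' (hC.sm_trans (h q a).1 (hC.sm_symm h1))
    have e2 : R N i (π' q a) (π q' b) = R N i (π' q a) (π' q' b) := ((h q' b).row hn2 i).2
    rw [e1, e2]
  · refine and_congr Iff.rfl ?_
    rw [tp_congr (hC.lp_eqs (hcov q) (h q))]
  · refine and_congr Iff.rfl (exists_congr fun j => exists_congr fun a => and_congr Iff.rfl ?_)
    rw [(h q a).lab j]
  · exact Iff.rfl

end chg

theorem t_CHG : S_CHG := by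
  intro n S N B f x π π' hC hE h
  have hl : ∀ q, Lv B (π q 0) (π' q 0) := fun q => hC.sm_lv (h q 0).1
  have ht : ∀ q s, Eqs N B (π q) s → Eqs N B (π' q) s := fun q s h1 =>
    hC.eqs_trans (hC.eqs_symm (h q)) h1
  have hv : ∀ q (s : Fin (n + 1) → ℕ), Lv B (π' q 0) (s 0) → Lv B (π q 0) (s 0) := fun q s h1 =>
    hC.lv_trans (hl q) h1
  refine ⟨hE.sl, fun q => hC.cov_eqs (h q) (hE.cov q),
    fun q q' h1 => hE.ord q q' ((hC.B_congr (hl q) (hl q')).2 h1),
    fun s hs => ?_, fun q q' s h1 h2 h3 h4 => ?_, fun q s h1 h2 => ?_, fun q s h1 h2 => ?_,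
    fun r q q' => ?_⟩
  · obtain ⟨q, hq⟩ := hE.ex s hs
    exact ⟨q, ht q s hq⟩
  · obtain ⟨r, hr1, hr2, hr3⟩ := hE.dn q q' s h1 ((hC.lv_congr (hl q) (hl q')).2 h2) h3
      (hv q s h4)
    exact ⟨r, hr1, hr2, ht r s hr3⟩
  · obtain ⟨r, hr1, hr3⟩ := hE.up q s h1 (hv q s h2)
    exact ⟨r, hr1, ht r s hr3⟩
  · obtain ⟨r, hr1, hr3⟩ := hE.dw q s h1 (hv q s h2)
    exact ⟨r, hr1, ht r s hr3⟩
  · rw [hE.rel]
    exact hC.val_eqs f π π' hE.cov h r q q'

/-! ### Types -/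

theorem t_TYP (h : S_LAB3) : S_TYP := by
  classical
  intro n α K S hK hS
  obtain ⟨g, hg⟩ := hS.cnt
  obtain ⟨c, hc⟩ := h n α K hK 0 (Ordinal.omega_pos 1)
  let rep : ℕ → T × Set ℕ := fun m =>
    if hm : ∃ p : T × ℕ, p.1 ∈ K ∧ c p.1 [p.2] = m then
      (od (pc hm.choose.1 univ {hm.choose.2}) (List.ofFn fun _ : Fin (n + 1) => hm.choose.2),
        {hm.choose.2})
    else ((fun _ _ => true, fun _ _ => true), ∅)
  let F : (ℕ × List ℕ) ⊕ ℕ → T × Set ℕ := fun t => match t with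
    | Sum.inl p => (od (g p.1).1 p.2, (g p.1).2)
    | Sum.inr m => rep m
  obtain ⟨e, he⟩ := exists_surjective_nat ((ℕ × List ℕ) ⊕ ℕ)
  refine ⟨fun t => F (e t), fun N hN B hC s hs => ?_⟩
  by_cases hb : ∃ b, B b (s 0)
  · obtain ⟨b, hb⟩ := hb
    have h1 : Pc N (Ch N B (s 0)) ∈ S := by
      rw [hC.ch_eq hb]
      exact hC.thin _ _ hb
    obtain ⟨m, q, -, hq2, hq3, hq4, hq5⟩ := hg _ _ h1
    have hmem : ∀ a, s a ∈ Ch N B (s 0) := fun a => hs.1 0 a
    choose us hus using fun a => hq5 (s a) (hmem a)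
    obtain ⟨t, ht⟩ := he (Sum.inl (m, List.ofFn us))
    refine ⟨t, ?_⟩
    show IsoOn (F (e t)).1 (lp N B s) (F (e t)).2 (Ch N B (s 0)) ∅
    rw [ht]
    show IsoOn (od (g m).1 (List.ofFn us)) (lp N B s) (g m).2 (Ch N B (s 0)) ∅
    refine ⟨q, empty_subset _, hq2, piso_od hq3 ?_, hq4, hq5⟩
    intro u hu
    exact ix_ofFn_congr _ _ _ _ fun a => hq3.2.1 _ (hus a) u hu
  · have hcen := hC.ch_cen hb
    set v := s 0 with hv
    have hconst : s = fun _ => v := by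
      funext a
      have h1 : s a ∈ Ch N B v := hs.1 0 a
      rw [hcen] at h1
      exact h1
    have hm : ∃ p : T × ℕ, p.1 ∈ K ∧ c p.1 [p.2] = c N [v] := ⟨(N, v), hN, rfl⟩
    obtain ⟨t, ht⟩ := he (Sum.inr (c N [v]))
    refine ⟨t, ?_⟩
    show IsoOn (F (e t)).1 (lp N B s) (F (e t)).2 (Ch N B v) ∅
    rw [ht]
    show IsoOn (rep (c N [v])).1 (lp N B s) (rep (c N [v])).2 (Ch N B v) ∅
    have hrep : rep (c N [v]) =
        (od (pc hm.choose.1 univ {hm.choose.2}) (List.ofFn fun _ : Fin (n + 1) => hm.choose.2),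
          {hm.choose.2}) := dif_pos hm
    rw [hrep]
    obtain ⟨hK0, hc0⟩ := hm.choose_spec
    set N0 := hm.choose.1 with hN0
    set v0 := hm.choose.2 with hv0
    have hBF := hc N0 hK0 N hN [v0] [v] rfl hc0
    have hP : PIso N0 N {(v0, v)} := hBF.piso.mono (by
      intro u hu
      rw [hu]
      show (v0, v) ∈ [v0].zip [v]
      simp)
    have hlp : lp N B s = od (pc N univ {v}) (List.ofFn fun _ : Fin (n + 1) => v) := by
      unfold lp
      rw [← hv, hcen]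
      congr 1
      rw [hconst]
    rw [hlp, hcen]
    show IsoOn (od (pc N0 univ {v0}) (List.ofFn fun _ : Fin (n + 1) => v0))
      (od (pc N univ {v}) (List.ofFn fun _ : Fin (n + 1) => v)) {v0} {v} ∅
    have hEr : er N0 univ {v0} v0 v0 ↔ er N univ {v} v v :=
      ⟨fun _ => er_refl hC.cs.eqv (mem_univ _), fun _ => er_refl (hK.cs N0 hK0).eqv (mem_univ _)⟩
    refine ⟨{(v0, v)}, empty_subset _, ?_, ?_, ?_, ?_⟩
    · intro u hu
      rw [hu]
      exact ⟨rfl, rfl⟩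
    · refine piso_od (piso_pc hP ?_) ?_
      · intro u hu w hw
        rw [hu, hw]
        exact hEr
      · intro u hu
        rw [hu]
        refine ix_ofFn_congr _ _ _ _ fun a => ?_
        rw [Bool.eq_iff_iff, pc1, pc1]
        exact hEr
    · intro u hu
      rw [hu]
      exact ⟨v, rfl⟩
    · intro u hu
      rw [hu]
      exact ⟨v0, rfl⟩

end Pool.Agent.N643.TC
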