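import Pool.Agent.N643.TC.CTD

set_option autoImplicit false

/-!
# Basic facts on centred structures
-/

namespace Pool.Agent.N643.TC

open Set
open Pool.Agent.H899R2.VP (St PIso BF IsoOn)
open Pool.Agent.N643.MN (XS XI SL LocFin)

variable {n : ℕ} {S : Set (T × Set ℕ)} {N : T} {B : ℕ → ℕ → Prop} {x y z w b u v : ℕ}
  {s s' s'' : Fin (n + 1) → ℕ}

theorem Ctr.ch_eq (hC : Ctr n S N B) (h : B b x) : Ch N B x = Cn N x b := by
  ext y
  exact hC.sm_iff h

theorem Ctr.ch_cen (hC : Ctr n S N B) (h : ¬ ∃ b, B b x) : Ch N B x = {x} := by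
  ext y
  constructor
  · rintro (rfl | ⟨b, hb, -⟩)
    · rfl
    · exact absurd ⟨b, hb⟩ h
  · rintro rfl
    exact Sm.rfl'

theorem Ctr.ch_sm (hC : Ctr n S N B) (h : Sm N B x y) : Ch N B x = Ch N B y := by
  ext z
  exact ⟨fun h1 => hC.sm_trans (hC.sm_symm h) h1, fun h1 => hC.sm_trans h h1⟩

theorem mem_Ch : y ∈ Ch N B x ↔ Sm N B x y := Iff.rfl

theorem Ctr.self_ch : x ∈ Ch N B x := Sm.rfl'

theorem Cl.sm (h : Cl N B x y) : Sm N B x y := h.1

theorem Ctr.cl_refl (hC : Ctr n S N B) (x : ℕ) : Cl N B x x :=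
  ⟨Sm.rfl', er_refl hC.cs.eqv (mem_univ x)⟩

theorem Ctr.cl_symm (hC : Ctr n S N B) (h : Cl N B x y) : Cl N B y x := by
  refine ⟨hC.sm_symm h.1, ?_⟩
  rw [← hC.ch_sm h.1]
  exact er_symm hC.cs.eqv (mem_univ x) (mem_univ y) h.2

theorem Ctr.cl_trans (hC : Ctr n S N B) (h : Cl N B x y) (h' : Cl N B y z) : Cl N B x z := by
  refine ⟨hC.sm_trans h.1 h'.1, ?_⟩
  have h2 := h'.2
  rw [← hC.ch_sm h.1] at h2
  exact er_trans hC.cs.eqv (mem_univ x) (mem_univ y) (mem_univ z) h.2 h2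

/-- Rows outside of the child. -/
theorem Cl.row (h : Cl N B x y) (hw : ¬ Sm N B x w) (i : ℕ) :
    R N i x w = R N i y w ∧ R N i w x = R N i w y := h.2.2.2 w (mem_univ w) hw i

theorem Cl.lab (h : Cl N B x y) (j : ℕ) : lb N j x = lb N j y := h.2.2.1 j

/-- The number of rows of a child. -/
theorem Ctr.cl_bound (hC : Ctr n S N B) (e : Fin (n + 1) → ℕ) (he : ∀ i, Sm N B x (e i)) :
    ∃ i j, i ≠ j ∧ Cl N B (e i) (e j) ∨ ∀ i, e i = x := by
  by_cases hb : ∃ b, B b x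
  · obtain ⟨b, hb⟩ := hb
    obtain ⟨i, j, hij, h1⟩ := hC.cs.row x (mem_univ _) b (mem_univ _)
      (fun h => (hC.irr (h ▸ hb))) e fun i => ⟨mem_univ _, (hC.sm_iff hb).1 (he i)⟩
    refine ⟨i, j, Or.inl ⟨hij, hC.sm_trans (hC.sm_symm (he i)) (he j), ?_⟩⟩
    rw [← hC.ch_sm (he i), hC.ch_eq hb]
    exact h1
  · refine ⟨0, 0, Or.inr fun i => ?_⟩
    have h1 : e i ∈ Ch N B x := he i
    rw [hC.ch_cen hb] at h1
    exact h1

/-- The number of children of a level. -/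
theorem Ctr.lv_bound (hC : Ctr n S N B) (e : Fin (n + 1) → ℕ) (he : ∀ i j, Lv B (e i) (e j)) :
    (∃ i j, i ≠ j ∧ Sm N B (e i) (e j)) := by
  by_contra hno
  push Not at hno
  have hinj : Function.Injective e := by
    intro i j hij
    by_contra hne
    exact hno i j hne (hij ▸ Sm.rfl')
  obtain ⟨i, j, k, hij, hik, hjk, h1⟩ := hC.cs.star e (fun _ => mem_univ _) hinj
  rcases (hC.D_iff _ _ _).1 h1 with h2 | h2
  · exact (he i k).1 h2.1
  · exact hno i j hij h2.1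

/-- The number of rows of the cone below a level. -/
theorem Ctr.lo_bound (hC : Ctr n S N B) (e : Fin (n + 1) → ℕ) (he : ∀ i, B (e i) y) :
    ∃ i j, i ≠ j ∧ er N univ {u | B u y} (e i) (e j) := by
  have h0 := he 0
  obtain ⟨hne, hc⟩ := hC.cone _ _ h0
  have e1 : {u | B u y} = Cn N (e 0) y := by
    ext u
    exact hc u
  obtain ⟨i, j, hij, h1⟩ := hC.cs.row (e 0) (mem_univ _) y (mem_univ _) hne e fun i =>
    ⟨mem_univ _, (hc (e i)).1 (he i)⟩
  exact ⟨i, j, hij, e1 ▸ h1⟩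

theorem Ctr.eqs_refl (hC : Ctr n S N B) (s : Fin (n + 1) → ℕ) : Eqs N B s s :=
  fun a => hC.cl_refl (s a)

theorem Ctr.eqs_symm (hC : Ctr n S N B) (h : Eqs N B s s') : Eqs N B s' s :=
  fun a => hC.cl_symm (h a)

theorem Ctr.eqs_trans (hC : Ctr n S N B) (h : Eqs N B s s') (h' : Eqs N B s' s'') :
    Eqs N B s s'' := fun a => hC.cl_trans (h a) (h' a)

theorem Ctr.cov_eqs (hC : Ctr n S N B) (h : Eqs N B s s') (hs : Cov n N B s) : Cov n N B s' := by
  refine ⟨fun a c => ?_, fun u hu => ?_⟩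
  · exact hC.sm_trans (hC.sm_symm (h a).1) (hC.sm_trans (hs.1 a c) (h c).1)
  · obtain ⟨a, ha⟩ := hs.2 u (hC.sm_trans (h 0).1 hu)
    exact ⟨a, hC.cl_trans (hC.cl_symm (h a)) ha⟩

theorem Ctr.cov_ch (hC : Ctr n S N B) (hs : Cov n N B s) (a : Fin (n + 1)) :
    Ch N B (s a) = Ch N B (s 0) := hC.ch_sm (hs.1 a 0)

/-- The levels of a covering list. -/
theorem Ctr.cov_lv (hC : Ctr n S N B) (hs : Cov n N B s) (a c : Fin (n + 1)) : Lv B (s a) (s c) :=
  hC.sm_lv (hs.1 a c)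

theorem Ctr.ch_equ (hC : Ctr n S N B) (x : ℕ) : Eqv (pc N univ (Ch N B x)) (Ch N B x) :=
  eqv_pc hC.cs.eqv (subset_univ _)

/-- Every child has a covering list. -/
theorem Ctr.ex_cov (hC : Ctr n S N B) (x : ℕ) : ∃ s, Cov n N B s ∧ Sm N B x (s 0) := by
  classical
  by_cases hb : ∃ b, B b x
  · obtain ⟨us, h1, h2⟩ := TC.exRp (hC.ch_equ x) n fun e he => by
      obtain ⟨b, hb⟩ := hb
      obtain ⟨i, j, hij, h3⟩ := hC.cs.row x (mem_univ _) b (mem_univ _)
        (fun h => (hC.irr (h ▸ hb))) e fun i => ⟨mem_univ _, (hC.sm_iff hb).1 (he i)⟩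
      refine ⟨i, j, hij, pc1.2 ?_⟩
      rw [hC.ch_eq hb]
      exact h3
    refine ⟨fun a => us.getD a x, ⟨fun a c => ?_, fun u hu => ?_⟩, ?_⟩
    · have key : ∀ a : Fin (n + 1), Sm N B x (us.getD a x) := by
        intro a
        by_cases ha : (a : ℕ) < us.length
        · rw [List.getD_eq_getElem _ _ ha]
          exact h1.mem ha
        · rw [List.getD_eq_default _ _ (not_lt.1 ha)]
          exact Sm.rfl'
      exact hC.sm_trans (hC.sm_symm (key a)) (key c)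
    · have key : Sm N B x (us.getD ((0 : Fin (n + 1)) : ℕ) x) := by
        by_cases ha : ((0 : Fin (n + 1)) : ℕ) < us.length
        · rw [List.getD_eq_getElem _ _ ha]
          exact h1.mem ha
        · rw [List.getD_eq_default _ _ (not_lt.1 ha)]
          exact Sm.rfl'
      have hu' : u ∈ Ch N B x := hC.sm_trans key hu
      obtain ⟨i, hi, h3⟩ := h1.ex hu'
      have h4 : us.getD (((⟨i, by omega⟩ : Fin (n + 1)) : ℕ)) x = us[i] := by
        rw [List.getD_eq_getElem _ _ hi]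
      refine ⟨⟨i, by omega⟩, ?_⟩
      show Cl N B (us.getD (((⟨i, by omega⟩ : Fin (n + 1)) : ℕ)) x) u
      rw [h4]
      have h5 : Sm N B x us[i] := h1.mem hi
      refine ⟨hC.sm_trans (hC.sm_symm h5) hu', ?_⟩
      rw [← hC.ch_sm h5]
      exact pc1.1 h3
    · show Sm N B x (us.getD ((0 : Fin (n + 1)) : ℕ) x)
      by_cases ha : ((0 : Fin (n + 1)) : ℕ) < us.length
      · rw [List.getD_eq_getElem _ _ ha]
        exact h1.mem ha
      · rw [List.getD_eq_default _ _ (not_lt.1 ha)]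
        exact Sm.rfl'
  · refine ⟨fun _ => x, ⟨fun a c => Sm.rfl', fun u hu => ⟨0, ?_⟩⟩, Sm.rfl'⟩
    have h1 : u ∈ Ch N B x := hu
    rw [hC.ch_cen hb] at h1
    have h2 : u = x := h1
    rw [h2]
    exact hC.cl_refl x

theorem ofFn_get (s : Fin (n + 1) → ℕ) (i : ℕ) (h : i < (List.ofFn s).length)
    (h' : i < n + 1) : (List.ofFn s)[i] = s ⟨i, h'⟩ := List.getElem_ofFn h

/-- The labels of the points of a child: the first entry of `s` with the same row. -/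
theorem ix_ofFn (M : T) (s : Fin (n + 1) → ℕ) (v : ℕ) (h : ∃ a, M.1 (s a) v = true) :
    ∃ a : Fin (n + 1), ix M (List.ofFn s) v = a ∧ M.1 (s a) v = true ∧
      ∀ c, M.1 (s c) v = true → a ≤ c := by
  have hl : (List.ofFn s).length = n + 1 := List.length_ofFn
  have h1 : ix M (List.ofFn s) v < (List.ofFn s).length := by
    obtain ⟨a, ha⟩ := h
    exact List.findIdx_lt_length_of_exists ⟨s a, List.mem_ofFn.2 ⟨a, rfl⟩, ha⟩
  have h2 : (fun u => M.1 u v) ((List.ofFn s)[ix M (List.ofFn s) v]'h1) = true :=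
    List.findIdx_getElem (w := h1)
  have h3 : ix M (List.ofFn s) v < n + 1 := lt_of_lt_of_eq h1 hl
  refine ⟨⟨_, h3⟩, rfl, ?_, ?_⟩
  · rw [ofFn_get s _ h1 h3] at h2
    exact h2
  · intro c hc
    by_contra hlt
    have h4 : (c : ℕ) < ix M (List.ofFn s) v := not_le.1 hlt
    have h5 := List.not_of_lt_findIdx (p := fun u => M.1 u v) h4
    have h6 : (c : ℕ) < (List.ofFn s).length := by
      rw [hl]
      exact c.2
    have h7 : (List.ofFn s)[(c : ℕ)] = s c := ofFn_get s c h6 c.2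
    simp only [h7] at h5
    rw [h5] at hc
    exact absurd hc (by decide)

/-- Labels of the labelled child. -/
theorem Ctr.lp_lab (hC : Ctr n S N B) (hs : Cov n N B s) (hu : Sm N B (s 0) u) :
    ∃ a : Fin (n + 1), ix (pc N univ (Ch N B (s 0))) (List.ofFn s) u = a ∧ Cl N B (s a) u ∧
      ∀ c, Cl N B (s c) u → a ≤ c := by
  have key : ∀ a, (pc N univ (Ch N B (s 0))).1 (s a) u = true ↔ Cl N B (s a) u := by
    intro a
    rw [pc1, ← hC.cov_ch hs a]
    exact ⟨fun h => ⟨hC.sm_trans (hs.1 a 0) hu, h⟩, fun h => h.2⟩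
  obtain ⟨a, ha⟩ := hs.2 u hu
  obtain ⟨c, h1, h2, h3⟩ := ix_ofFn (pc N univ (Ch N B (s 0))) s u ⟨a, (key a).2 ha⟩
  exact ⟨c, h1, (key c).1 h2, fun d hd => h3 d ((key d).2 hd)⟩

theorem lb_lp (j u : ℕ) : lb (lp N B s) j u =
    decide (ix (pc N univ (Ch N B (s 0))) (List.ofFn s) u = j) := lb_od j

theorem R_lp (i u v : ℕ) : R (lp N B s) i u v = R N i u v := by
  unfold lp
  rw [R_od, R_pc]

theorem D_lp : D (lp N B s) u v w ↔ D N u v w := Iff.rfl

end Pool.Agent.N643.TC
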