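import Pool.Agent.N643.TC.Spec

set_option autoImplicit false

/-! Decoding A. -/

namespace Pool.Agent.N643.TC

open Set
open Pool.Agent.H899R2.VP
open Pool.Agent.H533R2.VO (iso_symm0 iso_trans0)

theorem da_FF_mono {n : ℕ} {M : T} {x z : ℕ → ℕ} {us : ℕ → List ℕ} {t : ℕ → T} {s s' : ℕ}
    (h : s ≤ s') {P : T × Set ℕ} (hP : P ∈ FF n M x z us t s) : P ∈ FF n M x z us t s' := by
  obtain ⟨r, hr, c, u, v, huv, h1⟩ := hP
  exact ⟨r, hr.trans h, c, u, v, huv, h1⟩

theorem t_DA (h1 : S_DSF) (h2 : S_STG) : S_DA := by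
  intro n α M x z us t hS σ τ e he m hdis
  obtain ⟨-, -, h3, -, h5⟩ := h1 n α M x z us t hS σ
  have hb : ∀ b : Bool, b.toNat ≤ 1 := by intro b; cases b <;> simp
  have himg : e '' Cn M (x m) (z m) = Cn (DS n M x z us t τ) (e (x m)) (e (z m)) := by
    rw [← h3 m, he.image_Cn]
  have hne : e (x m) ≠ e (z m) := fun h => hS.cb.ne m (e.injective h)
  have hdis' := hdis
  rw [himg] at hdis'
  obtain ⟨P, hP, hPi⟩ := h2 n α M x z us t hS τ m (2 * m) (fun k hk => by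
    have := hb (τ k); omega) _ _ hne hdis'
  have hPs : P ∈ FF n M x z us t (2 * m + (σ m).toNat) := da_FF_mono (Nat.le_add_right _ _) hP
  rw [← himg] at hPi
  have hi1 : IsoOn (pc (DS n M x z us t σ) univ (Cn M (x m) (z m)))
      (pc (DS n M x z us t τ) univ (e '' Cn M (x m) (z m))) (Cn M (x m) (z m))
      (e '' Cn M (x m) (z m)) ∅ := he.isoPc _
  have hi2 := h5 m
  have hi3 : IsoOn P.1 (pc (t (2 * m + (σ m).toNat)) (Cn M (x m) (z m)) (Cn M (x m) (z m))) P.2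
      (Cn M (x m) (z m)) ∅ :=
    iso_trans0 hPi (iso_trans0 (iso_symm0 hi1) (iso_symm0 hi2))
  have hg := (hS.gt (2 * m + (σ m).toNat)).2 P hPs
  have hdiv : (2 * m + (σ m).toNat) / 2 = m := by
    have := hb (σ m)
    omega
  rw [hdiv] at hg
  exact hg hi3

end Pool.Agent.N643.TC
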