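import Pool.Agent.N643.TC.Def3
import Pool.Agent.N643.MN.FO

set_option autoImplicit false

/-!
# First-order theories with a definable C-relation
-/

namespace Pool.Agent.N643.TC.FO

open Set MeasureTheory FirstOrder FirstOrder.Language
open Pool.Agent.H533R2.VO (RS RIso VC Dich)
open Pool.Agent.H533R2.VS (act)
open Pool.Agent.N643.MN.FO
open Pool.Agent.N643.TC (DefR Tk C3 SRow cD C3_cD Wk vc_Wk S_MAIN3)

variable {L : FirstOrder.Language.{0, 0}}
variable (e : ℕ → Option (Σ n, L.Relations n)) (he : Function.Surjective e)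

/-- the relation defined by a formula -/
def FD [L.IsRelational] (F : ℕ → Σ n, L.Formula (Fin n ⊕ Fin 3)) (k : ℕ) (p : List ℕ)
    (x : RS (fun i => ar (e i))) (u v w : ℕ) : Prop :=
  ∃ h : p.length = (F k).1, @Formula.Realize L ℕ (dec e he x) _ (F k).2
    (Sum.elim (fun i => p.get (Fin.cast h.symm i)) ![u, v, w])

theorem fam_FD [L.IsRelational] (F : ℕ → Σ n, L.Formula (Fin n ⊕ Fin 3)) (k : ℕ) :
    DefR (FD e he F k) := by
  refine ⟨fun p m n l => ?_, fun p x σ m n l => ?_⟩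
  · by_cases h : p.length = (F k).1
    · have e1 : {x : RS (fun i => ar (e i)) | FD e he F k p x m n l} =
          {x | @Formula.Realize L ℕ (dec e he x) _ (F k).2
            (Sum.elim (fun i => p.get (Fin.cast h.symm i)) ![m, n, l])} := by
        ext x
        exact ⟨fun ⟨_, h1⟩ => h1, fun h1 => ⟨h, h1⟩⟩
      rw [e1]
      exact meas_realize (fun n R v => meas_rel e he R v) _ _ _
    · have e1 : {x : RS (fun i => ar (e i)) | FD e he F k p x m n l} = ∅ := by
        ext x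
        exact ⟨fun ⟨h1, _⟩ => absurd h1 h, fun h1 => absurd h1 (notMem_empty _)⟩
      rw [e1]
      exact MeasurableSet.empty
  · have h1 := dec_iso e he (fun i v => act_rel σ x i v)
    have h2 : ∀ c : Fin (F k).1 ⊕ Fin 3 → ℕ,
        @Formula.Realize L ℕ (dec e he x) _ (F k).2 c ↔
          @Formula.Realize L ℕ (dec e he (act σ x)) _ (F k).2 (fun i => σ (c i)) := fun c =>
      (@StrongHomClass.realize_formula L ℕ ℕ (dec e he x) (dec e he (act σ x)) _ _ _ _
        (isoOf σ h1) (F k).2 c).symm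
    unfold FD
    constructor
    · rintro ⟨h, h3⟩
      have h' : p.length = (F k).1 := by rw [← h, List.length_map]
      refine ⟨h', (h2 _).2 ?_⟩
      convert h3 using 2
      rename_i i
      rcases i with i | i
      · simp
      · fin_cases i <;> rfl
    · rintro ⟨h', h3⟩
      have h : (p.map σ).length = (F k).1 := by rw [← h', List.length_map]
      refine ⟨h, ?_⟩
      have h4 := (h2 _).1 h3
      convert h4 using 2
      rename_i i
      rcases i with i | i
      · simp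
      · fin_cases i <;> rfl

theorem fd_key (S : L.Structure ℕ) (k : ℕ) (φ : L.Formula (Fin k ⊕ Fin 3)) (p : Fin k → ℕ)
    (u v w : ℕ) (q : Σ n, L.Formula (Fin n ⊕ Fin 3)) (hq : q = ⟨k, φ⟩) :
    (∃ h : (List.ofFn p).length = q.1, @Formula.Realize L ℕ S _ q.2
      (Sum.elim (fun i => (List.ofFn p).get (Fin.cast h.symm i)) ![u, v, w])) ↔
    @Formula.Realize L ℕ S _ φ (Sum.elim p ![u, v, w]) := by
  subst hq
  have key : ∀ h : (List.ofFn p).length = k,
      (Sum.elim (fun i => (List.ofFn p).get (Fin.cast h.symm i)) ![u, v, w] :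
        Fin k ⊕ Fin 3 → ℕ) = Sum.elim p ![u, v, w] := by
    intro h
    funext i
    rcases i with i | i
    · simp
    · rfl
  constructor
  · rintro ⟨h, h3⟩
    simp only at h3
    rw [key h] at h3
    exact h3
  · intro h3
    refine ⟨by simp, ?_⟩
    simp only
    rw [key (by simp)]
    exact h3

/-- same row -/
def SRL (S : L.Structure ℕ) (C : ℕ → ℕ → ℕ → Prop) (x w u v : ℕ) : Prop :=
  ∀ (j : ℕ) (R : L.Relations j) (t : Fin j → ℕ) (k : Fin j), (∃ l, l ≠ k) →
    (∀ l, l ≠ k → ¬ C x (t l) w) →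
    (@Structure.RelMap L ℕ S j R (Function.update t k u) ↔
      @Structure.RelMap L ℕ S j R (Function.update t k v))

/-- the conditions on the relation -/
structure CL (S : L.Structure ℕ) (n : ℕ) (C : ℕ → ℕ → ℕ → Prop) : Prop where
  refl : ∀ x w, x ≠ w → C x x w
  irr : ∀ x y, ¬ C x y x
  symm : ∀ x y w, C x y w → C y x w
  c2 : ∀ x y w, C x y w → ¬ C x w y
  c3 : ∀ x y w, C x y w → ∀ v, C x y v ∨ C v y w
  star : ∀ e : Fin (n + 1) → ℕ, Function.Injective e →
    ∃ i j k, i ≠ j ∧ i ≠ k ∧ j ≠ k ∧ C (e i) (e j) (e k)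
  row : ∀ x w, x ≠ w → ∀ e : Fin (n + 1) → ℕ, (∀ i, C x (e i) w) →
    ∃ i j, i ≠ j ∧ SRL S C x w (e i) (e j)

theorem tk_of (S : L.Structure ℕ) (C : ℕ → ℕ → ℕ → Prop) {n : ℕ} (h : CL S n C)
    (E : List ℕ → RS (fun i => ar (e i)) → ℕ → ℕ → ℕ → Prop) (p : List ℕ)
    (hE : E p (enc e S) = C) : Tk n (cD E p (enc e S)) := by
  classical
  have hC : ∀ x y w, C3 (cD E p (enc e S)) x y w ↔ C x y w := by
    intro x y w
    rw [C3_cD, hE]
  refine ⟨fun x w hxw => (hC _ _ _).2 (h.refl x w hxw), fun x y h1 => h.irr x y ((hC _ _ _).1 h1),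
    fun x y w h1 => (hC _ _ _).2 (h.symm _ _ _ ((hC _ _ _).1 h1)),
    fun x y w h1 h2 => h.c2 _ _ _ ((hC _ _ _).1 h1) ((hC _ _ _).1 h2),
    fun x y w h1 v => ?_, fun f hf => ?_, fun x w hxw f hf => ?_⟩
  · rw [hC, hC]
    exact h.c3 _ _ _ ((hC _ _ _).1 h1) v
  · obtain ⟨i, j, k, h1, h2, h3, h4⟩ := h.star f hf
    exact ⟨i, j, k, h1, h2, h3, (hC _ _ _).2 h4⟩
  · obtain ⟨i, j, hij, h1⟩ := h.row x w hxw f fun i => (hC _ _ _).1 (hf i)
    refine ⟨i, j, hij, fun l t k hk ht => ?_⟩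
    have ht' : ∀ m, m ≠ k → ¬ C x (t m) w := fun m hm h2 => ht m hm ((hC _ _ _).2 h2)
    have g : ∀ (o : Option (Σ n, L.Relations n)) (t : Fin (ar o) → ℕ) (k : Fin (ar o)),
        (∃ l, l ≠ k) → (∀ m, m ≠ k → ¬ C x (t m) w) →
        evr S o (Function.update t k (f i)) = evr S o (Function.update t k (f j)) := by
      intro o t k g1 g2
      cases o with
      | none => rfl
      | some R => exact decide_eq_decide.2 (h1 R.1 R.2 t k g1 g2)
    exact g (e l) t k hk ht'

/-- **The first-order form.** -/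
theorem fo_dichotomy (main : S_MAIN3) [L.IsRelational] (hc : Countable (Σ n, L.Relations n))
    (T : L.Theory) (hk : ∀ n, 2 < n → IsEmpty (L.Relations n))
    (hT : ∀ S : L.Structure ℕ, @Theory.Model L ℕ S T →
      ∃ (m : ℕ) (p : Fin m → ℕ) (φ : L.Formula (Fin m ⊕ Fin 3)) (C : ℕ → ℕ → ℕ → Prop) (n : ℕ),
        (∀ u v w, C u v w ↔ @Formula.Realize L ℕ S _ φ (Sum.elim p ![u, v, w])) ∧ CL S n C) :
    (∃ g : ℕ → L.Structure ℕ, ∀ S : L.Structure ℕ, @Theory.Model L ℕ S T →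
        ∃ n : ℕ, Nonempty (@FirstOrder.Language.Equiv L ℕ ℕ S (g n))) ∨
    (∃ f : (ℕ → Bool) → L.Structure ℕ, (∀ x : ℕ → Bool, @Theory.Model L ℕ (f x) T) ∧
      (∀ x y : ℕ → Bool, Nonempty (@FirstOrder.Language.Equiv L ℕ ℕ (f x) (f y)) → x = y) ∧
      (∀ (n : ℕ) (R : L.Relations n) (a : Fin n → ℕ),
        IsClopen {x : ℕ → Bool | @Structure.RelMap L ℕ (f x) n R a})) := by
  classical
  have hne : Nonempty (Option (Σ n, L.Relations n)) := ⟨none⟩
  obtain ⟨e, he⟩ := exists_surjective_nat (Option (Σ n, L.Relations n))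
  have hFc := countable_formula hc 3
  have hFn : Nonempty (Σ n, L.Formula (Fin n ⊕ Fin 3)) := ⟨⟨0, ⊥⟩⟩
  obtain ⟨F, hF⟩ := exists_surjective_nat (Σ n, L.Formula (Fin n ⊕ Fin 3))
  have har : ∀ i, ar (e i) ≤ 2 := by
    intro i
    cases h : e i with
    | none => exact Nat.zero_le _
    | some R =>
      by_contra hc
      exact (hk R.1 (not_le.1 hc)).false R.2
  refine dichotomy_gen hc T e he (Wk (FD e he F)) (vc_Wk main (fam_FD e he F) har) fun S hS => ?_
  obtain ⟨m, p, φ, C, n, h0, h1⟩ := hT S hS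
  obtain ⟨i, hi⟩ := hF ⟨m, φ⟩
  refine ⟨i, List.ofFn p, n, tk_of e S C h1 (FD e he F i) (List.ofFn p) ?_⟩
  funext u v w
  apply propext
  rw [h0]
  unfold FD
  rw [dec_enc]
  exact fd_key S m φ p u v w _ hi

end Pool.Agent.N643.TC.FO
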