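import Mathlib

set_option autoImplicit false

/-!
# Languages with an additional ternary relation symbol
-/

namespace Pool.Agent.N643.TC

open FirstOrder FirstOrder.Language

/-- The symbols of `L` and an additional ternary relation symbol. -/
inductive TR (L : FirstOrder.Language.{0, 0}) : ℕ → Type
  | old {n : ℕ} (R : L.Relations n) : TR L n
  | tern : TR L 3

/-- The relational language with the relation symbols of `L` and an additional ternary relation
symbol. -/
def TL (L : FirstOrder.Language.{0, 0}) : FirstOrder.Language.{0, 0} := ⟨fun _ => Empty, TR L⟩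

instance (L : FirstOrder.Language.{0, 0}) : (TL L).IsRelational :=
  fun _ => inferInstanceAs (IsEmpty Empty)

/-- The relational language with the relation symbols of `L` of arity at most two. -/
def L2 (L : FirstOrder.Language.{0, 0}) : FirstOrder.Language.{0, 0} :=
  ⟨fun _ => Empty, fun n => {_R : L.Relations n // n ≤ 2}⟩

instance (L : FirstOrder.Language.{0, 0}) : (L2 L).IsRelational :=
  fun _ => inferInstanceAs (IsEmpty Empty)

/-- The interpretation of the symbols in the structure `S` with the relation `C`. -/
def rmap {L : FirstOrder.Language.{0, 0}} (S : L.Structure ℕ) (C : ℕ → ℕ → ℕ → Prop) :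
    {n : ℕ} → TR L n → (Fin n → ℕ) → Prop
  | _, .old R, v => @Structure.RelMap L ℕ S _ R v
  | _, .tern, v => C (v 0) (v 1) (v 2)

/-- The structure `S` with the relation `C` for the additional symbol. -/
@[reducible] def TSt {L : FirstOrder.Language.{0, 0}} (S : L.Structure ℕ)
    (C : ℕ → ℕ → ℕ → Prop) : (TL L).Structure ℕ where
  funMap := fun {_} f => isEmptyElim f
  RelMap := fun {_} R v => rmap S C R v

/-- The reduct to the symbols of arity at most two. -/
@[reducible] def red {L : FirstOrder.Language.{0, 0}} (S : L.Structure ℕ) : (L2 L).Structure ℕ where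
  funMap := fun {_} f => isEmptyElim f
  RelMap := fun {_} R v => @Structure.RelMap L ℕ S _ R.1 v

end Pool.Agent.N643.TC
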