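import Pool.Agent.N643.TC.Gen
import Pool.Agent.N643.TC.TLang
import Pool.Agent.N643.MN.FO

set_option autoImplicit false

/-!
# First-order theories whose models are definable in trees
-/

namespace Pool.Agent.N643.TC.FO

open Set MeasureTheory FirstOrder FirstOrder.Language
open Pool.Agent.H533R2.VO (RS RIso VC Dich)
open Pool.Agent.H533R2.VS (act)
open Pool.Agent.TH425.FF (PCanon)
open Pool.Agent.N643.MN.FO
open Pool.Agent.N643.TC

variable {L : FirstOrder.Language.{0, 0}}

/-- the data: a formula for the ternary relation and formulas for the symbols of arity at least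
three -/
abbrev Dat (L : FirstOrder.Language.{0, 0}) : Type :=
  Σ m, L.Formula (Fin m ⊕ Fin 3) × ((R : {R : Σ n, L.Relations n // 3 ≤ R.1}) →
    (TL (L2 L)).Formula (Fin m ⊕ Fin R.1.1))

variable (e : ℕ → Option (Σ n, L.Relations n)) (he : Function.Surjective e)
variable (e2 : ℕ → Option (Σ n, (L2 L).Relations n)) (he2 : Function.Surjective e2)

/-- the ternary relation -/
def FG [L.IsRelational] (q : Dat L) (p : List ℕ) (x : RS (fun i => ar (e i))) (u v w : ℕ) : Prop :=
  ∃ h : p.length = q.1, @Formula.Realize L ℕ (dec e he x) _ q.2.1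
    (Sum.elim (fun i => p.get (Fin.cast h.symm i)) ![u, v, w])

/-- the remaining relations -/
def tl3 {b : ℕ → ℕ} (z : RS (tt b)) : RS b := fun j => z (j + 1)

open Classical in
/-- the tree structure -/
noncomputable def cG [L.IsRelational] (q : Dat L) (p : List ℕ) (x : RS (fun i => ar (e i))) :
    RS (tt (fun i => ar (e2 i))) :=
  fun i => match i with
    | 0 => fun v => decide (FG e he q p x (v (0 : Fin 3)) (v (1 : Fin 3)) (v (2 : Fin 3)))
    | j + 1 => enc e2 (red (dec e he x)) j

/-- the structure recovered from the tree structure -/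
@[reducible] noncomputable def SZ [L.IsRelational] (q : Dat L) (p : List ℕ)
    (z : RS (tt (fun i => ar (e2 i)))) : L.Structure ℕ where
  funMap := fun {_} f => isEmptyElim f
  RelMap := fun {n} R v => if h : n ≤ 2 then
      @Structure.RelMap (L2 L) ℕ (dec e2 he2 (tl3 z)) n ⟨R, h⟩ v
    else ∃ h' : p.length = q.1, @Formula.Realize (TL (L2 L)) ℕ
      (TSt (dec e2 he2 (tl3 z)) (C3 z)) _ (q.2.2 ⟨⟨n, R⟩, not_le.1 h⟩)
      (Sum.elim (fun i => p.get (Fin.cast h'.symm i)) v)

/-- decoding -/
noncomputable def dG [L.IsRelational] (q : Dat L) (p : List ℕ)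
    (z : RS (tt (fun i => ar (e2 i)))) : RS (fun i => ar (e i)) :=
  enc e (SZ e2 he2 q p z)

section meas

variable {Y : Type} [MeasurableSpace Y]

/-- measurability of codes -/
theorem meas_enc {f : Y → L.Structure ℕ}
    (hf : ∀ (n : ℕ) (R : L.Relations n) (v : Fin n → ℕ),
      MeasurableSet {y | @Structure.RelMap L ℕ (f y) n R v}) :
    Measurable fun y => (enc e (f y) : RS (fun i => ar (e i))) := by
  classical
  refine measurable_pi_lambda _ fun i => measurable_pi_lambda _ fun v => measurable_to_bool ?_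
  have h3 : ∀ (o : Option (Σ n, L.Relations n)) (v : Fin (ar o) → ℕ),
      MeasurableSet {y | evr (f y) o v = true} := by
    intro o v
    cases o with
    | none =>
      have e2 : {y | evr (f y) none v = true} = ∅ := by
        ext x
        simp [evr]
      rw [e2]
      exact MeasurableSet.empty
    | some j =>
      have e2 : {y | evr (f y) (some j) v = true} =
          {y | @Structure.RelMap L ℕ (f y) j.1 j.2 v} := by
        ext x
        exact decide_eq_true_iff
      rw [e2]
      exact hf j.1 j.2 v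
  exact h3 (e i) v

end meas

theorem enc_cast (S : L.Structure ℕ) [L.IsRelational] {n : ℕ} (R : L.Relations n)
    (v : Fin n → ℕ) : @Structure.RelMap L ℕ (dec e he (enc e S)) n R v ↔
      @Structure.RelMap L ℕ S n R v := rel_dec_enc e he S R v

theorem m_tl3 {b : ℕ → ℕ} : Measurable (tl3 : RS (tt b) → RS b) :=
  measurable_pi_lambda _ fun j => measurable_pi_apply (j + 1)

theorem meas_TSt (n : ℕ) (R : (TL (L2 L)).Relations n) (v : Fin n → ℕ) :
    MeasurableSet {z : RS (tt (fun i => ar (e2 i))) |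
      @Structure.RelMap (TL (L2 L)) ℕ (TSt (dec e2 he2 (tl3 z)) (C3 z)) n R v} := by
  cases R with
  | old R => exact m_tl3 (meas_rel e2 he2 R v)
  | tern => exact (m_C3 (a := fun i => ar (e2 i)) (v 0) (v 1) (v 2)).setOf

theorem meas_SZ [L.IsRelational] (q : Dat L) (p : List ℕ) (n : ℕ) (R : L.Relations n)
    (v : Fin n → ℕ) : MeasurableSet {z : RS (tt (fun i => ar (e2 i))) |
      @Structure.RelMap L ℕ (SZ e2 he2 q p z) n R v} := by
  by_cases h : n ≤ 2
  · have e1 : {z : RS (tt (fun i => ar (e2 i))) | @Structure.RelMap L ℕ (SZ e2 he2 q p z) n R v} =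
        {z | @Structure.RelMap (L2 L) ℕ (dec e2 he2 (tl3 z)) n ⟨R, h⟩ v} := by
      ext z
      show (if h : n ≤ 2 then _ else _) ↔ _
      rw [dif_pos h]
      exact Iff.rfl
    rw [e1]
    exact m_tl3 (meas_rel e2 he2 (⟨R, h⟩ : (L2 L).Relations n) v)
  · by_cases h' : p.length = q.1
    · have e1 : {z : RS (tt (fun i => ar (e2 i))) |
          @Structure.RelMap L ℕ (SZ e2 he2 q p z) n R v} =
          {z | @Formula.Realize (TL (L2 L)) ℕ (TSt (dec e2 he2 (tl3 z)) (C3 z)) _
            (q.2.2 ⟨⟨n, R⟩, not_le.1 h⟩) (Sum.elim (fun i => p.get (Fin.cast h'.symm i)) v)} := by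
        ext z
        show (if h : n ≤ 2 then _ else _) ↔ _
        rw [dif_neg h]
        exact ⟨fun ⟨_, h1⟩ => h1, fun h1 => ⟨h', h1⟩⟩
      rw [e1]
      exact meas_realize (meas_TSt e2 he2) _ _ _
    · have e1 : {z : RS (tt (fun i => ar (e2 i))) |
          @Structure.RelMap L ℕ (SZ e2 he2 q p z) n R v} = ∅ := by
        ext z
        show (if h : n ≤ 2 then _ else _) ↔ _
        rw [dif_neg h]
        exact ⟨fun ⟨h1, _⟩ => absurd h1 h', fun h1 => absurd h1 (notMem_empty _)⟩
      rw [e1]
      exact MeasurableSet.empty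

theorem elim_map {m n : ℕ} (p : List ℕ) (σ : ℕ → ℕ) (h : (p.map σ).length = m)
    (h' : p.length = m) (v : Fin n → ℕ) :
    (Sum.elim (fun i => (p.map σ).get (Fin.cast h.symm i)) (σ ∘ v) : Fin m ⊕ Fin n → ℕ) =
      fun i => σ (Sum.elim (fun i => p.get (Fin.cast h'.symm i)) v i) := by
  funext i
  rcases i with i | i
  · simp
  · rfl

theorem tst_iso {z : RS (tt (fun i => ar (e2 i)))} (σ : Equiv.Perm ℕ) (n : ℕ)
    (R : (TL (L2 L)).Relations n) (v : Fin n → ℕ) :
    @Structure.RelMap (TL (L2 L)) ℕ (TSt (dec e2 he2 (tl3 (act σ z))) (C3 (act σ z))) n R (⇑σ ∘ v) ↔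
      @Structure.RelMap (TL (L2 L)) ℕ (TSt (dec e2 he2 (tl3 z)) (C3 z)) n R v := by
  cases R with
  | old R => exact dec_iso e2 he2 (fun i v => act_rel σ (tl3 z) i v) n R v
  | tern =>
    exact c3_iso (a := fun i => ar (e2 i)) (fun i v => act_rel σ z i v) (v 0) (v 1) (v 2)

theorem sz_iso [L.IsRelational] (q : Dat L) (p : List ℕ) (z : RS (tt (fun i => ar (e2 i))))
    (σ : Equiv.Perm ℕ) (n : ℕ) (R : L.Relations n) (v : Fin n → ℕ) :
    @Structure.RelMap L ℕ (SZ e2 he2 q (p.map σ) (act σ z)) n R (⇑σ ∘ v) ↔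
      @Structure.RelMap L ℕ (SZ e2 he2 q p z) n R v := by
  show (if h : n ≤ 2 then _ else _) ↔ (if h : n ≤ 2 then _ else _)
  by_cases h : n ≤ 2
  · rw [dif_pos h, dif_pos h]
    exact dec_iso e2 he2 (fun i v => act_rel σ (tl3 z) i v) n (⟨R, h⟩ : (L2 L).Relations n) v
  · rw [dif_neg h, dif_neg h]
    have h2 : ∀ {β : Type} (φ : (TL (L2 L)).Formula β) (c : β → ℕ),
        @Formula.Realize (TL (L2 L)) ℕ (TSt (dec e2 he2 (tl3 z)) (C3 z)) _ φ c ↔
          @Formula.Realize (TL (L2 L)) ℕ (TSt (dec e2 he2 (tl3 (act σ z))) (C3 (act σ z))) _ φ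
            (fun i => σ (c i)) := fun φ c =>
      (@StrongHomClass.realize_formula (TL (L2 L)) ℕ ℕ (TSt (dec e2 he2 (tl3 z)) (C3 z))
        (TSt (dec e2 he2 (tl3 (act σ z))) (C3 (act σ z))) _ _ _ _
        (isoOf σ (tst_iso e2 he2 σ)) φ c).symm
    constructor
    · rintro ⟨h1, h3⟩
      have h1' : p.length = q.1 := by rw [← h1, List.length_map]
      refine ⟨h1', (h2 _ _).2 ?_⟩
      rw [elim_map p σ h1 h1' v] at h3
      exact h3
    · rintro ⟨h1', h3⟩
      have h1 : (p.map σ).length = q.1 := by rw [← h1', List.length_map]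
      refine ⟨h1, ?_⟩
      rw [elim_map p σ h1 h1' v]
      exact (h2 _ _).1 h3

theorem pcanon_G [L.IsRelational] (q : Dat L) : PCanon (cG e he e2 q) (dG e e2 he2 q) := by
  classical
  refine ⟨fun p => ?_, fun p => ?_, fun σ p x => ?_, fun σ p z => ?_⟩
  · refine measurable_pi_lambda _ fun i => ?_
    cases i with
    | zero =>
      refine measurable_pi_lambda _ fun v => measurable_to_bool ?_
      have e0 : (fun x : RS (fun i => ar (e i)) => cG e he e2 q p x 0 v) ⁻¹' {true} =
          {x | FG e he q p x (v (0 : Fin 3)) (v (1 : Fin 3)) (v (2 : Fin 3))} := by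
        ext x
        exact decide_eq_true_iff
      rw [e0]
      by_cases h : p.length = q.1
      · have e1 : {x : RS (fun i => ar (e i)) |
            FG e he q p x (v (0 : Fin 3)) (v (1 : Fin 3)) (v (2 : Fin 3))} =
            {x | @Formula.Realize L ℕ (dec e he x) _ q.2.1
              (Sum.elim (fun i => p.get (Fin.cast h.symm i))
                ![v (0 : Fin 3), v (1 : Fin 3), v (2 : Fin 3)])} := by
          ext x
          exact ⟨fun ⟨_, h1⟩ => h1, fun h1 => ⟨h, h1⟩⟩
        rw [e1]
        exact meas_realize (fun n R v => meas_rel e he R v) _ _ _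
      · have e1 : {x : RS (fun i => ar (e i)) |
            FG e he q p x (v (0 : Fin 3)) (v (1 : Fin 3)) (v (2 : Fin 3))} = ∅ := by
          ext x
          exact ⟨fun ⟨h1, _⟩ => absurd h1 h, fun h1 => absurd h1 (notMem_empty _)⟩
        rw [e1]
        exact MeasurableSet.empty
    | succ j =>
      have h1 : Measurable fun x : RS (fun i => ar (e i)) =>
          (enc e2 (red (dec e he x)) : RS (fun i => ar (e2 i))) :=
        meas_enc e2 fun n R v => meas_rel e he R.1 v
      exact (measurable_pi_apply j).comp h1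
  · exact meas_enc e (meas_SZ e2 he2 q p)
  · funext i v
    cases i with
    | zero =>
      show decide (FG e he q (p.map σ) (act σ x) (v (0 : Fin 3)) (v (1 : Fin 3)) (v (2 : Fin 3))) =
        decide (FG e he q p x (σ.symm (v (0 : Fin 3))) (σ.symm (v (1 : Fin 3)))
          (σ.symm (v (2 : Fin 3))))
      refine decide_eq_decide.2 ?_
      have h1 := dec_iso e he (fun i v => act_rel σ x i v)
      have h2 : ∀ c : Fin q.1 ⊕ Fin 3 → ℕ,
          @Formula.Realize L ℕ (dec e he x) _ q.2.1 c ↔
            @Formula.Realize L ℕ (dec e he (act σ x)) _ q.2.1 (fun i => σ (c i)) := fun c =>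
        (@StrongHomClass.realize_formula L ℕ ℕ (dec e he x) (dec e he (act σ x)) _ _ _ _
          (isoOf σ h1) q.2.1 c).symm
      have e3 : (![v (0 : Fin 3), v (1 : Fin 3), v (2 : Fin 3)] : Fin 3 → ℕ) =
          ⇑σ ∘ ![σ.symm (v (0 : Fin 3)), σ.symm (v (1 : Fin 3)), σ.symm (v (2 : Fin 3))] := by
        funext t
        fin_cases t <;> simp
      unfold FG
      rw [e3]
      constructor
      · rintro ⟨h, h3⟩
        have h' : p.length = q.1 := by rw [← h, List.length_map]
        refine ⟨h', (h2 _).2 ?_⟩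
        rw [elim_map p σ h h'] at h3
        exact h3
      · rintro ⟨h', h3⟩
        have h : (p.map σ).length = q.1 := by rw [← h', List.length_map]
        refine ⟨h, ?_⟩
        rw [elim_map p σ h h']
        exact (h2 _).1 h3
    | succ j =>
      show enc e2 (red (dec e he (act σ x))) j v = enc e2 (red (dec e he x)) j (⇑σ.symm ∘ v)
      have h3 := enc_iso e2 (S := red (dec e he x)) (S' := red (dec e he (act σ x))) (σ := σ)
        (fun n R v => dec_iso e he (fun i v => act_rel σ x i v) n R.1 v) j (⇑σ.symm ∘ v)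
      rw [← h3]
      congr 1
      funext t
      simp
  · funext i v
    show enc e (SZ e2 he2 q (p.map σ) (act σ z)) i v = enc e (SZ e2 he2 q p z) i (⇑σ.symm ∘ v)
    have h3 := enc_iso e (S := SZ e2 he2 q p z) (S' := SZ e2 he2 q (p.map σ) (act σ z)) (σ := σ)
      (sz_iso e2 he2 q p z σ) i (⇑σ.symm ∘ v)
    rw [← h3]
    congr 1
    funext t
    simp

end Pool.Agent.N643.TC.FO
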