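import Pool.Agent.N643.TC.FOG

set_option autoImplicit false

/-!
# First-order theories whose models are definable in trees: the dichotomy
-/

namespace Pool.Agent.N643.TC.FO

open Set MeasureTheory FirstOrder FirstOrder.Language
open Pool.Agent.H533R2.VO (RS RIso VC Dich)
open Pool.Agent.H533R2.VS (act)
open Pool.Agent.TH425.FF (PCanon)
open Pool.Agent.N643.MN.FO
open Pool.Agent.N643.TC

variable {L : FirstOrder.Language.{0, 0}}

/-- same row -/
def SRG (S : L.Structure ℕ) (C : ℕ → ℕ → ℕ → Prop) (x w u v : ℕ) : Prop :=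
  ∀ (j : ℕ) (R : L.Relations j), j ≤ 2 → ∀ (t : Fin j → ℕ) (k : Fin j), (∃ l, l ≠ k) →
    (∀ l, l ≠ k → ¬ C x (t l) w) →
    (@Structure.RelMap L ℕ S j R (Function.update t k u) ↔
      @Structure.RelMap L ℕ S j R (Function.update t k v))

/-- the conditions on the relation -/
structure CG (S : L.Structure ℕ) (n : ℕ) (C : ℕ → ℕ → ℕ → Prop) : Prop where
  refl : ∀ x w, x ≠ w → C x x w
  irr : ∀ x y, ¬ C x y x
  symm : ∀ x y w, C x y w → C y x w
  c2 : ∀ x y w, C x y w → ¬ C x w y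
  c3 : ∀ x y w, C x y w → ∀ v, C x y v ∨ C v y w
  star : ∀ e : Fin (n + 1) → ℕ, Function.Injective e →
    ∃ i j k, i ≠ j ∧ i ≠ k ∧ j ≠ k ∧ C (e i) (e j) (e k)
  row : ∀ x w, x ≠ w → ∀ e : Fin (n + 1) → ℕ, (∀ i, C x (e i) w) →
    ∃ i j, i ≠ j ∧ SRG S C x w (e i) (e j)

theorem fg_key (S : L.Structure ℕ) {k : ℕ} (φ : L.Formula (Fin k ⊕ Fin 3)) (p : Fin k → ℕ)
    (u v w : ℕ) (h : (List.ofFn p).length = k) :
    @Formula.Realize L ℕ S _ φ
      (Sum.elim (fun i => (List.ofFn p).get (Fin.cast h.symm i)) ![u, v, w]) ↔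
    @Formula.Realize L ℕ S _ φ (Sum.elim p ![u, v, w]) := by
  have e1 : (fun i => (List.ofFn p).get (Fin.cast h.symm i)) = p := by
    funext i
    simp
  rw [e1]

theorem countable_TL (hc : Countable (Σ n, L.Relations n)) :
    Countable (Σ n, (TL (L2 L)).Relations n) := by
  have h2 : Countable (Σ n, (L2 L).Relations n) := by
    have hi : Function.Injective (fun R : (Σ n, (L2 L).Relations n) =>
        (⟨R.1, R.2.1⟩ : Σ n, L.Relations n)) := by
      rintro ⟨n, R, hR⟩ ⟨n', R', hR'⟩ h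
      obtain ⟨h1, h2⟩ := Sigma.mk.inj h
      subst h1
      cases eq_of_heq h2
      rfl
    exact hi.countable
  have hs : Function.Surjective (fun o : Option (Σ n, (L2 L).Relations n) =>
      (match o with
        | none => ⟨3, TR.tern⟩
        | some R => ⟨R.1, TR.old R.2⟩ : Σ n, (TL (L2 L)).Relations n)) := by
    rintro ⟨n, R⟩
    cases R with
    | old R => exact ⟨some ⟨n, R⟩, rfl⟩
    | tern => exact ⟨none, rfl⟩
  exact hs.countable

theorem countable_L2 (hc : Countable (Σ n, L.Relations n)) :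
    Countable (Σ n, (L2 L).Relations n) := by
  have hi : Function.Injective (fun R : (Σ n, (L2 L).Relations n) =>
      (⟨R.1, R.2.1⟩ : Σ n, L.Relations n)) := by
    rintro ⟨n, R, hR⟩ ⟨n', R', hR'⟩ h
    obtain ⟨h1, h2⟩ := Sigma.mk.inj h
    subst h1
    cases eq_of_heq h2
    rfl
  exact hi.countable

/-- countably many formulas -/
theorem countable_fm [L.IsRelational] (hc : Countable (Σ n, L.Relations n)) (β : Type)
    [Countable β] : Countable (L.Formula β) := by
  have hf : Countable (Σ n, L.Functions n) := by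
    have : ∀ n, IsEmpty (L.Functions n) := fun n => inferInstance
    infer_instance
  have h2 : Countable L.Symbols :=
    inferInstanceAs (Countable ((Σ n, L.Functions n) ⊕ Σ n, L.Relations n))
  have h3 : Cardinal.mk (Σ k, L.BoundedFormula β k) ≤ Cardinal.aleph0 := by
    refine BoundedFormula.card_le.trans ?_
    refine max_le le_rfl ?_
    rw [Cardinal.lift_id, Cardinal.lift_id]
    exact Cardinal.add_le_aleph0.2 ⟨Cardinal.mk_le_aleph0, Cardinal.mk_le_aleph0⟩
  have h4 : Countable (Σ k, L.BoundedFormula β k) := Cardinal.mk_le_aleph0_iff.1 h3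
  exact (sigma_mk_injective (β := fun k => L.BoundedFormula β k) (i := 0)).countable

variable (e : ℕ → Option (Σ n, L.Relations n)) (he : Function.Surjective e)
variable (e2 : ℕ → Option (Σ n, (L2 L).Relations n)) (he2 : Function.Surjective e2)

theorem tk_gen [L.IsRelational] (S : L.Structure ℕ) (C : ℕ → ℕ → ℕ → Prop) {n : ℕ}
    (h : CG S n C) (z : RS (tt (fun i => ar (e2 i)))) (hC : ∀ x y w, C3 z x y w ↔ C x y w)
    (hz : tl3 z = enc e2 (red S)) : Tk n z := by
  classical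
  refine ⟨fun x w hxw => (hC _ _ _).2 (h.refl x w hxw), fun x y h1 => h.irr x y ((hC _ _ _).1 h1),
    fun x y w h1 => (hC _ _ _).2 (h.symm _ _ _ ((hC _ _ _).1 h1)),
    fun x y w h1 h2 => h.c2 _ _ _ ((hC _ _ _).1 h1) ((hC _ _ _).1 h2),
    fun x y w h1 v => ?_, fun f hf => ?_, fun x w hxw f hf => ?_⟩
  · rw [hC, hC]
    exact h.c3 _ _ _ ((hC _ _ _).1 h1) v
  · obtain ⟨i, j, k, h1, h2, h3, h4⟩ := h.star f hf
    exact ⟨i, j, k, h1, h2, h3, (hC _ _ _).2 h4⟩
  · obtain ⟨i, j, hij, h1⟩ := h.row x w hxw f fun i => (hC _ _ _).1 (hf i)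
    refine ⟨i, j, hij, fun l t k hk ht => ?_⟩
    have ht' : ∀ m, m ≠ k → ¬ C x (t m) w := fun m hm h2 => ht m hm ((hC _ _ _).2 h2)
    have g : ∀ (o : Option (Σ n, (L2 L).Relations n)) (t : Fin (ar o) → ℕ) (k : Fin (ar o)),
        (∃ l, l ≠ k) → (∀ m, m ≠ k → ¬ C x (t m) w) →
        evr (red S) o (Function.update t k (f i)) = evr (red S) o (Function.update t k (f j)) := by
      intro o t k g1 g2
      cases o with
      | none => rfl
      | some R => exact decide_eq_decide.2 (h1 R.1 R.2.1 R.2.2 t k g1 g2)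
    have h5 : ∀ t, z (l + 1) t = evr (red S) (e2 l) t := fun t => congrFun (congrFun hz l) t
    rw [h5, h5]
    exact g (e2 l) t k hk ht'

/-- **The first-order form.** -/
theorem fo_gen (main : S_MAIN3) [L.IsRelational] (hc : Countable (Σ n, L.Relations n))
    (hf : {R : Σ n, L.Relations n | 3 ≤ R.1}.Finite) (T : L.Theory)
    (hT : ∀ S : L.Structure ℕ, @Theory.Model L ℕ S T →
      ∃ (m : ℕ) (p : Fin m → ℕ) (φ : L.Formula (Fin m ⊕ Fin 3)) (C : ℕ → ℕ → ℕ → Prop) (n : ℕ),
        (∀ u v w, C u v w ↔ @Formula.Realize L ℕ S _ φ (Sum.elim p ![u, v, w])) ∧ CG S n C ∧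
        ∀ (j : ℕ) (R : L.Relations j), 3 ≤ j → ∃ ψ : (TL (L2 L)).Formula (Fin m ⊕ Fin j),
          ∀ v : Fin j → ℕ, @Structure.RelMap L ℕ S j R v ↔
            @Formula.Realize (TL (L2 L)) ℕ (TSt (red S) C) _ ψ (Sum.elim p v)) :
    (∃ g : ℕ → L.Structure ℕ, ∀ S : L.Structure ℕ, @Theory.Model L ℕ S T →
        ∃ n : ℕ, Nonempty (@FirstOrder.Language.Equiv L ℕ ℕ S (g n))) ∨
    (∃ f : (ℕ → Bool) → L.Structure ℕ, (∀ x : ℕ → Bool, @Theory.Model L ℕ (f x) T) ∧
      (∀ x y : ℕ → Bool, Nonempty (@FirstOrder.Language.Equiv L ℕ ℕ (f x) (f y)) → x = y) ∧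
      (∀ (n : ℕ) (R : L.Relations n) (a : Fin n → ℕ),
        IsClopen {x : ℕ → Bool | @Structure.RelMap L ℕ (f x) n R a})) := by
  classical
  have hne : Nonempty (Option (Σ n, L.Relations n)) := ⟨none⟩
  obtain ⟨e, he⟩ := exists_surjective_nat (Option (Σ n, L.Relations n))
  have hc2 := countable_L2 hc
  have hne2 : Nonempty (Option (Σ n, (L2 L).Relations n)) := ⟨none⟩
  obtain ⟨e2, he2⟩ := exists_surjective_nat (Option (Σ n, (L2 L).Relations n))
  have hct := countable_TL hc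
  have hfin : Finite {R : Σ n, L.Relations n // 3 ≤ R.1} := hf
  have hD : Countable (Dat L) := by
    have h1 : ∀ m : ℕ, Countable (L.Formula (Fin m ⊕ Fin 3)) := fun m => countable_fm hc _
    have h2 : ∀ m j : ℕ, Countable ((TL (L2 L)).Formula (Fin m ⊕ Fin j)) :=
      fun m j => countable_fm hct _
    unfold Dat
    infer_instance
  have hDn : Nonempty (Dat L) := ⟨⟨0, ⊥, fun _ => ⊥⟩⟩
  obtain ⟨F, hF⟩ := exists_surjective_nat (Dat L)
  have har : ∀ i, ar (e2 i) ≤ 2 := by
    intro i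
    cases h : e2 i with
    | none => exact Nat.zero_le _
    | some R => exact R.2.2
  have hvc := vc_gen main har (fun i => cG e he e2 (F i)) (fun i => dG e e2 he2 (F i))
    (fun i => pcanon_G e he e2 he2 (F i))
  refine dichotomy_gen hc T e he _ hvc fun S hS => ?_
  obtain ⟨m, p, φ, C, n, h0, h1, h2⟩ := hT S hS
  choose ψ hψ using h2
  obtain ⟨i, hi⟩ := hF ⟨m, φ, fun R => ψ R.1.1 R.1.2 R.2⟩
  have hlen : (List.ofFn p).length = m := by simp
  have hC : ∀ x y w, C3 (cG e he e2 (F i) (List.ofFn p) (enc e S)) x y w ↔ C x y w := by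
    intro x y w
    have e1 : C3 (cG e he e2 (F i) (List.ofFn p) (enc e S)) x y w ↔
        FG e he (F i) (List.ofFn p) (enc e S) x y w := decide_eq_true_iff
    rw [e1, hi, h0]
    unfold FG
    rw [dec_enc]
    exact ⟨fun ⟨h, h3⟩ => (fg_key S φ p x y w h).1 h3,
      fun h3 => ⟨hlen, (fg_key S φ p x y w hlen).2 h3⟩⟩
  have hz : tl3 (cG e he e2 (F i) (List.ofFn p) (enc e S)) = enc e2 (red S) := by
    funext j v
    show enc e2 (red (dec e he (enc e S))) j v = _
    rw [dec_enc]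
  refine ⟨i, List.ofFn p, n, tk_gen e2 S C h1 _ hC hz, ?_⟩
  show enc e (SZ e2 he2 (F i) (List.ofFn p) (cG e he e2 (F i) (List.ofFn p) (enc e S))) = enc e S
  congr 1
  refine struct_ext fun j R v => ?_
  have hCe : C3 (cG e he e2 (F i) (List.ofFn p) (enc e S)) = C := by
    funext x y w
    exact propext (hC x y w)
  show (if h : j ≤ 2 then _ else _) ↔ _
  rw [hz, hCe, hi]
  by_cases h : j ≤ 2
  · rw [dif_pos h]
    exact rel_dec_enc e2 he2 (red S) (⟨R, h⟩ : (L2 L).Relations j) v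
  · rw [dif_neg h]
    have e1 : (fun i => (List.ofFn p).get (Fin.cast hlen.symm i)) = p := by
      funext i
      simp
    rw [dec_enc e2 he2 (red S)]
    constructor
    · rintro ⟨h', h3⟩
      refine (hψ j R (not_le.1 h) v).2 ?_
      have e2 : (fun i => (List.ofFn p).get (Fin.cast h'.symm i)) = p := by
        funext i
        simp
      have h4 : @Formula.Realize (TL (L2 L)) ℕ (TSt (red S) C) _ (ψ j R (not_le.1 h))
        (Sum.elim (fun i => (List.ofFn p).get (Fin.cast h'.symm i)) v) := h3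
      rw [e2] at h4
      exact h4
    · intro h3
      refine ⟨hlen, ?_⟩
      have h4 := (hψ j R (not_le.1 h) v).1 h3
      rw [← e1] at h4
      exact h4

end Pool.Agent.N643.TC.FO
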