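import Pool.Agent.N643.TC.Defs
import Pool.Agent.H533R2.VO.Lib

set_option autoImplicit false

/-! Basic lemmas. -/

namespace Pool.Agent.N643.TC

open Set
open Pool.Agent.H899R2.VP
open Pool.Agent.H533R2.VO (Lev resBF resIso iso_refl0 iso_symm0 iso_trans0 bf_comp0 bf_symm0
  iso_congr)

theorem CsOn.cr {n : ℕ} {M : T} (h : CsOn n M univ) : Cr M :=
  ⟨fun x z => h.refl x (mem_univ _) z (mem_univ _),
    fun x y => h.irr x (mem_univ _) y (mem_univ _),
    fun x y z => h.symm x (mem_univ _) y (mem_univ _) z (mem_univ _),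
    fun x y z => h.c2 x (mem_univ _) y (mem_univ _) z (mem_univ _),
    fun x y z h1 w => h.c3 x (mem_univ _) y (mem_univ _) z (mem_univ _) h1 w (mem_univ _)⟩

section cs

variable {M N : T} {x y z u v w a b d x' z' : ℕ} {X Y : Set ℕ}

theorem Cr.ne (h : Cr M) (h1 : D M x y z) : x ≠ z := fun e => h.irr z y (e ▸ h1)

theorem Cr.ne' (h : Cr M) (h1 : D M x y z) : y ≠ z := h.ne (h.symm _ _ _ h1)

theorem Cr.trans (h : Cr M) (h1 : D M x y z) (h2 : D M y w z) : D M x w z := by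
  rcases h.c3 _ _ _ (h.symm _ _ _ h1) w with h3 | h3
  · rcases h.c3 _ _ _ h2 x with h4 | h4
    · exact absurd (h.symm _ _ _ h3) (fun h5 => h.c2 _ _ _ h4 (h.symm _ _ _ h5))
    · exact h4
  · exact h.symm _ _ _ h3

theorem mem_Cn : y ∈ Cn M x z ↔ D M x y z := Iff.rfl

theorem mem_Nd : z ∈ Nd M x y ↔ ¬ D M x y z := Iff.rfl

theorem Cr.self_mem (h : Cr M) (h1 : x ≠ z) : x ∈ Cn M x z := h.refl x z h1

theorem Cr.not_mem (h : Cr M) : z ∉ Cn M x z := fun h1 => h.ne' h1 rfl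

theorem Cr.Cn_eq (h : Cr M) (h1 : D M x y z) : Cn M x z = Cn M y z := by
  ext w
  exact ⟨fun h2 => h.trans (h.symm _ _ _ h1) h2, fun h2 => h.trans h1 h2⟩

/-- A3, first part. -/
theorem Cr.cin (h : Cr M) (ha : a ∈ Cn M x z) (hb : b ∈ Cn M x z) (hw : w ∉ Cn M x z) :
    D M a b w := by
  have h1 : D M a b z := h.trans (h.symm _ _ _ ha) hb
  rcases h.c3 _ _ _ h1 w with h2 | h2
  · exact h2
  · exact absurd (h.trans hb (h.symm _ _ _ h2)) hw

/-- A3, second part. -/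
theorem Cr.cout (h : Cr M) (ha : a ∈ Cn M x z) (hb : b ∈ Cn M x z) (hw : w ∉ Cn M x z) :
    ¬ D M a w b := h.c2 _ _ _ (h.cin ha hb hw)

theorem Cr.cout' (h : Cr M) (ha : a ∈ Cn M x z) (hb : b ∈ Cn M x z) (hw : w ∉ Cn M x z) :
    ¬ D M w a b := fun h1 => h.cout ha hb hw (h.symm _ _ _ h1)

/-- A3, third part. -/
theorem Cr.csw (h : Cr M) (ha : a ∈ Cn M x z) (hb : b ∈ Cn M x z) (hv : v ∉ Cn M x z) :
    D M a w v ↔ D M b w v :=
  ⟨fun h1 => h.trans (h.cin hb ha hv) h1, fun h1 => h.trans (h.cin ha hb hv) h1⟩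

/-- A3, fourth part. -/
theorem Cr.csw' (h : Cr M) (ha : a ∈ Cn M x z) (hb : b ∈ Cn M x z) (hv : v ∉ Cn M x z) : D M w v a ↔ D M w v b := by
  constructor
  · intro h1
    rcases h.c3 _ _ _ h1 b with h2 | h2
    · exact h2
    · exact absurd h2 (h.cout hb ha hv)
  · intro h1
    rcases h.c3 _ _ _ h1 a with h2 | h2
    · exact h2
    · exact absurd h2 (h.cout ha hb hv)

/-- Laminarity of cones. -/
theorem Cr.lam (h : Cr M) : Cn M x z ⊆ Cn M x' z' ∨ Cn M x' z' ⊆ Cn M x z ∨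
    Disjoint (Cn M x z) (Cn M x' z') := by
  by_contra hcon
  push Not at hcon
  obtain ⟨h1, h2, h3⟩ := hcon
  obtain ⟨b, hb, hb'⟩ := not_subset.1 h1
  obtain ⟨c, hc, hc'⟩ := not_subset.1 h2
  obtain ⟨a, ha, ha'⟩ := Set.not_disjoint_iff.1 h3
  exact h.c2 _ _ _ (h.cin ha hb hc') (h.cin ha' hc hb')

theorem Cr.csub (h : Cr M) (hx : x' ∈ Cn M x z) (hz : z' ∈ Cn M x z) :
    Cn M x' z' ⊆ Cn M x z := by
  intro y hy
  by_contra hy'
  exact h.cout hx hz hy' hy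

theorem Cr.cmax (h : Cr M) (ha : a ∈ Cn M x z) (hw : w ∉ Cn M x z) : Cn M x z ⊆ Cn M a w :=
  fun _ hb => h.cin ha hb hw

theorem Cr.nself (h : Cr M) : x ∈ Nd M x y := h.irr x y

theorem Cr.nself' (h : Cr M) : y ∈ Nd M x y := fun h1 => h.irr y x (h.symm _ _ _ h1)

theorem Cr.nsub (h : Cr M) (hu : u ∈ Nd M x y) (hv : v ∈ Nd M x y) : Nd M u v ⊆ Nd M x y := by
  intro w hw h1
  apply hw
  have h2 : D M u y w := by
    rcases h.c3 _ _ _ h1 u with h2 | h2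
    · exact absurd h2 hu
    · exact h2
  have h3 : D M v y w := by
    rcases h.c3 _ _ _ h1 v with h3 | h3
    · exact absurd h3 hv
    · exact h3
  exact h.trans h2 (h.symm _ _ _ h3)

theorem Cr.neq (h : Cr M) (h1 : D M v d x) : Nd M x v = Nd M x d := by
  have key : ∀ v d, D M v d x → Nd M x v ⊆ Nd M x d := by
    intro v d h1 w hw h2
    apply hw
    rcases h.c3 _ _ _ h2 v with h3 | h3
    · exact absurd (h.symm _ _ _ h3) (h.c2 _ _ _ (h.symm _ _ _ h1))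
    · exact h.trans h2 (h.symm _ _ _ h3)
  exact Subset.antisymm (key _ _ h1) (key _ _ (h.symm _ _ _ h1))

/-- The cone at `x` away from `v` or from `d`. -/
theorem Cr.ceq (h : Cr M) (h1 : D M v d x) : Cn M x v = Cn M x d := by
  have key : ∀ v d, D M v d x → Cn M x v ⊆ Cn M x d := by
    intro v d h1 w hw
    rcases h.c3 _ _ _ hw d with h3 | h3
    · exact h3
    · exact absurd (h.symm _ _ _ h1) (h.c2 _ _ _ (h.trans h3 (h.symm _ _ _ hw)))
  exact Subset.antisymm (key _ _ h1) (key _ _ (h.symm _ _ _ h1))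

/-- A cone and a node which meet are comparable. -/
theorem Cr.cnode (h : Cr M) (ha : a ∈ Cn M x z) (ha' : a ∈ Nd M u v)
    (hn : ¬ Nd M u v ⊆ Cn M x z) : Cn M x z ⊆ Nd M u v := by
  obtain ⟨b, hb, hb'⟩ := not_subset.1 hn
  intro c hc hcn
  have key : ∀ s, s ∈ Nd M u v → D M s v c := by
    intro s hs
    rcases h.c3 _ _ _ hcn s with h1 | h1
    · exact absurd h1 hs
    · exact h1
  exact h.cout ha hc hb' (h.trans (key a ha') (h.symm _ _ _ (key b hb)))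

end cs


/-! ### Values on pieces -/

section val

variable {M N : T} {X Y Z : Set ℕ} {us : List ℕ} {u v w x z : ℕ} {n : ℕ}

theorem vec2 (s : Fin 2 → ℕ) : s = ![s 0, s 1] := by
  funext k
  fin_cases k <;> rfl

theorem vec3 (s : Fin 3 → ℕ) : s = ![s 0, s 1, s 2] := by
  funext k
  fin_cases k <;> rfl

theorem er0_pc : er0 (pc M X Y) = er0 M := by
  funext i s
  cases i with
  | zero => rfl
  | succ i =>
    show (if i % 2 = 0 then false else (er0 M) (i + 1) s) = er0 M (i + 1) s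
    show (if i % 2 = 0 then false else (if i % 2 = 0 then false else M.2 (i + 1) s)) =
      if i % 2 = 0 then false else M.2 (i + 1) s
    split_ifs <;> rfl

theorem er0_od : er0 (od M us) = er0 M := by
  funext i s
  cases i with
  | zero => rfl
  | succ i =>
    show (if i % 2 = 0 then false else (if i % 2 = 0 then _ else M.2 (i + 1) s)) =
      if i % 2 = 0 then false else M.2 (i + 1) s
    split_ifs <;> rfl

theorem D_pc : D (pc M X Y) u v w ↔ D M u v w := Iff.rfl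

theorem D_od : D (od M us) u v w ↔ D M u v w := Iff.rfl

theorem Cn_pc : Cn (pc M X Y) x z = Cn M x z := rfl

theorem Cn_od : Cn (od M us) x z = Cn M x z := rfl

theorem Nd_od : Nd (od M us) x z = Nd M x z := rfl

theorem R_pc (i : ℕ) : R (pc M X Y) i u v = R M i u v := by
  show (if (2 * i + 1) % 2 = 0 then false else M.2 (2 * i + 1 + 1) ![u, v]) = _
  rw [if_neg (by omega)]
  rfl

theorem R_od (i : ℕ) : R (od M us) i u v = R M i u v := by
  show (if (2 * i + 1) % 2 = 0 then _ else M.2 (2 * i + 1 + 1) ![u, v]) = _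
  rw [if_neg (by omega)]
  rfl

theorem lb_pc (j : ℕ) : lb (pc M X Y) j u = false := by
  show (if (2 * j) % 2 = 0 then false else _) = _
  rw [if_pos (by omega)]

theorem lb_od (j : ℕ) : lb (od M us) j u = decide (ix M us u = j) := by
  show (if (2 * j) % 2 = 0 then decide (u = u ∧ ix M us u = 2 * j / 2) else _) = _
  rw [if_pos (by omega), show 2 * j / 2 = j by omega]
  simp

theorem fl_pc (j : ℕ) : (pc M X Y).2 (2 * j + 1) ![u, v] = false := by
  show (if (2 * j) % 2 = 0 then false else _) = _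
  rw [if_pos (by omega)]

theorem fl_od (j : ℕ) (h : u ≠ v) : (od M us).2 (2 * j + 1) ![u, v] = false := by
  show (if (2 * j) % 2 = 0 then decide (u = v ∧ ix M us u = 2 * j / 2) else _) = _
  rw [if_pos (by omega)]
  simp [h]

theorem pc1 : (pc M X Y).1 u v = true ↔ er M X Y u v := by
  classical
  exact decide_eq_true_iff

theorem pc1f : (pc M X Y).1 u v = false ↔ ¬ er M X Y u v := by
  classical
  exact decide_eq_false_iff_not

/-- Two structures agree on `Y`. -/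
theorem agree (h1 : ∀ u ∈ Y, ∀ v ∈ Y, M.1 u v = N.1 u v)
    (h2 : ∀ u ∈ Y, ∀ v ∈ Y, ∀ w ∈ Y, (D M u v w ↔ D N u v w))
    (h3 : ∀ j, ∀ u ∈ Y, lb M j u = lb N j u)
    (h4 : ∀ j, ∀ u ∈ Y, ∀ v ∈ Y, u ≠ v → M.2 (2 * j + 1) ![u, v] = false)
    (h5 : ∀ j, ∀ u ∈ Y, ∀ v ∈ Y, u ≠ v → N.2 (2 * j + 1) ![u, v] = false)
    (h6 : ∀ i, ∀ u ∈ Y, ∀ v ∈ Y, R M i u v = R N i u v) : IsoOn M N Y Y (idOn Y) := by
  refine iso_congr h1 fun i t ht => ?_
  match i, t, ht with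
  | 0, t, ht =>
    rw [vec3 t]
    exact Bool.eq_iff_iff.2 (h2 _ (ht 0) _ (ht 1) _ (ht 2))
  | i + 1, t, ht =>
    have ht' : ∀ k : Fin 2, t k ∈ Y := ht
    have e : t = ![t (0 : Fin 2), t (1 : Fin 2)] := vec2 t
    rcases Nat.even_or_odd' i with ⟨j, rfl | rfl⟩
    · by_cases he : t (0 : Fin 2) = t (1 : Fin 2)
      · rw [e, ← he]
        exact h3 j _ (ht' 0)
      · rw [e, h4 j _ (ht' 0) _ (ht' 1) he, h5 j _ (ht' 0) _ (ht' 1) he]
    · rw [e]
      exact h6 j _ (ht' 0) _ (ht' 1)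

/-- Characterisation of partial isomorphisms. -/
theorem PIso_mk {p : Set (ℕ × ℕ)} (h0 : ∀ u ∈ p, ∀ v ∈ p, (u.1 = v.1 ↔ u.2 = v.2))
    (h1 : ∀ u ∈ p, ∀ v ∈ p, M.1 u.1 v.1 = N.1 u.2 v.2)
    (h2 : ∀ u ∈ p, ∀ v ∈ p, ∀ w ∈ p, (D M u.1 v.1 w.1 ↔ D N u.2 v.2 w.2))
    (h3 : ∀ j, ∀ u ∈ p, lb M j u.1 = lb N j u.2)
    (h4 : ∀ j, ∀ u ∈ p, ∀ v ∈ p, u.1 ≠ v.1 → M.2 (2 * j + 1) ![u.1, v.1] = false)
    (h5 : ∀ j, ∀ u ∈ p, ∀ v ∈ p, u.2 ≠ v.2 → N.2 (2 * j + 1) ![u.2, v.2] = false)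
    (h6 : ∀ i, ∀ u ∈ p, ∀ v ∈ p, R M i u.1 v.1 = R N i u.2 v.2) : PIso M N p := by
  refine ⟨h0, h1, fun i t ht => ?_⟩
  match i, t, ht with
  | 0, t, ht =>
    have e1 : (fun k => (t k).1) = ![(t 0).1, (t 1).1, (t 2).1] := vec3 _
    have e2 : (fun k => (t k).2) = ![(t 0).2, (t 1).2, (t 2).2] := vec3 _
    rw [e1, e2]
    exact Bool.eq_iff_iff.2 (h2 _ (ht 0) _ (ht 1) _ (ht 2))
  | i + 1, t, ht =>
    have ht' : ∀ k : Fin 2, t k ∈ p := ht
    have e1 : (fun k => (t k).1) = ![(t (0 : Fin 2)).1, (t (1 : Fin 2)).1] :=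
      vec2 (fun k => (t k).1)
    have e2 : (fun k => (t k).2) = ![(t (0 : Fin 2)).2, (t (1 : Fin 2)).2] :=
      vec2 (fun k => (t k).2)
    rcases Nat.even_or_odd' i with ⟨j, rfl | rfl⟩
    · by_cases he : (t (0 : Fin 2)).1 = (t (1 : Fin 2)).1
      · have he' := (h0 _ (ht' 0) _ (ht' 1)).1 he
        rw [e1, e2, ← he, ← he']
        exact h3 j _ (ht' 0)
      · have he' : (t (0 : Fin 2)).2 ≠ (t (1 : Fin 2)).2 := fun h =>
          he ((h0 _ (ht' 0) _ (ht' 1)).2 h)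
        rw [e1, e2, h4 j _ (ht' 0) _ (ht' 1) he, h5 j _ (ht' 0) _ (ht' 1) he']
    · rw [e1, e2]
      exact h6 j _ (ht' 0) _ (ht' 1)

variable {p : Set (ℕ × ℕ)} {x' z' y' y : ℕ}

/-- `D` is preserved by partial isomorphisms. -/
theorem PIso_D (h : PIso M N p) (hx : (x, x') ∈ p) (hy : (y, y') ∈ p)
    (hz : (z, z') ∈ p) : D M x y z ↔ D N x' y' z' := by
  have h1 := h.2.2 0 ![(x, x'), (y, y'), (z, z')] (by
    intro k
    fin_cases k <;> assumption)
  have e1 : (fun k => (![(x, x'), (y, y'), (z, z')] k).1) = ![x, y, z] := vec3 _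
  have e2 : (fun k => (![(x, x'), (y, y'), (z, z')] k).2) = ![x', y', z'] := vec3 _
  unfold D
  rw [← e1, ← e2]
  exact iff_of_eq (congrArg (· = true) h1)

theorem PIso_two (h : PIso M N p) (i : ℕ) (hx : (x, x') ∈ p) (hy : (y, y') ∈ p) :
    M.2 (i + 1) ![x, y] = N.2 (i + 1) ![x', y'] := by
  have h1 := h.2.2 (i + 1) ![(x, x'), (y, y')] (by
    intro k
    fin_cases k <;> assumption)
  have e1 : (fun k => (![(x, x'), (y, y')] k).1) = ![x, y] := vec2 _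
  have e2 : (fun k => (![(x, x'), (y, y')] k).2) = ![x', y'] := vec2 _
  rw [← e1, ← e2]
  exact h1

theorem PIso_R (h : PIso M N p) (i : ℕ) (hx : (x, x') ∈ p) (hy : (y, y') ∈ p) :
    R M i x y = R N i x' y' := PIso_two h _ hx hy

theorem PIso_lb (h : PIso M N p) (j : ℕ) (hx : (x, x') ∈ p) :
    lb M j x = lb N j x' := PIso_two h _ hx hx

end val

end Pool.Agent.N643.TC
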