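import Pool.Agent.N643.TC.All1

set_option autoImplicit false

/-! Assembly of the main argument for structures over definable trees (C-relations). -/

namespace Pool.Agent.N643.TC

theorem main3 : S_MAIN3 := by
  have glb : S_GLB3 := t_GLB3
  have kcone := t_KCONE t_CSBF t_CSOD glb t_GLF3
  have fill : S_FILL3 := t_FILL3 t_TRP3
  have sq := t_SEQ3 fill
  have dsf := t_DSF glb t_GLF3 t_CSBF
  have stg := t_STG dsf t_CBF
  have da := t_DA dsf stg
  have db := t_DB dsf stg t_CBF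
  have dc := t_DC dsf da db t_CBF
  have dd := t_DD dsf dc stg
  have code := t_CODE3 sq dsf dd
  have ct : S_CT := t_CT t_CSBF t_EXE t_UNQ t_LOC t_TRN t_TRX2 t_CHG t_KEY t_MRC (t_MEN t_GENC t_LEV3)
    (t_MCT t_LEV3 t_MS) (t_TYP t_LAB3)
  have finc : S_FINC := t_FINC t_LAB3
  have infc := t_INFC kcone ct t_CTF t_CTT
  have sim := t_SIM3 t_LAB3 t_GENC t_GENUC finc infc t_TRX
  have cnt := t_CNT3 sim t_GENUC
  have base : S_BASE3 := t_BASE3 t_LAB3 t_GENC
  exact t_MAIN3 base t_LEV3 t_MS t_MSC t_BL3 t_COMB code cnt ct t_CTF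

end Pool.Agent.N643.TC
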